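import Pool.Agent.Lib.HLR.OneDefect

/-!
# Concentration from a moment with a fixed defect
-/

set_option autoImplicit false

open Finset Filter

namespace Pool.Agent.HLR

open Pool.Agent.HLB Pool.Agent.HLT UpperAux

theorem conc_N_eta (k : ℕ) {δ : ℝ} (hδ : 0 < δ) (hδ1 : δ ≤ 1 / 4) : ∃ A0 : ℕ, ∀ A : ℕ, A0 ≤ A →
    ∀ᶠ x : ℕ in atTop, ∀ B : Finset ℕ, (∀ b ∈ B, b ≤ x) → Real.log x ^ (2 + δ) ≤ B.card →
    ∀ η : ℝ, 0 ≤ η →
      ∑ b ∈ Inj (k + 2) B, pin x b ^ 2 ≤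
        ∑ b ∈ Inj (k + 2) B, SI b ^ 2 + η * (B.card : ℝ) ^ (k + 2) →
      ∑ w ∈ Om x, (SS lp lp B w - SS (nuz (zA A x)) (nuz (zA A x)) B w) ^ 2 ≤
        2 * (Om x).card * (B.card : ℝ) ^ 2 * (η + 1 / Real.log x ^ (δ / 2)) ^ (2 / ((k : ℝ) + 2)) := by
  obtain ⟨A0, hA0⟩ := defect_core (k + 1) hδ hδ1
  refine ⟨A0, fun A hA => ?_⟩
  filter_upwards [hA0 A hA, ev_log_ge 1, eventually_gt_atTop 0] with x hx hL hx0 B hB hcard η hη hyp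
  have hL0 : 0 < Real.log x := by linarith
  have hβ : (0 : ℝ) < B.card := lt_of_lt_of_le (Real.rpow_pos_of_pos hL0 _) hcard
  have hdef : ∑ w ∈ Om x, (SS lp lp B w ^ (k + 2) - (k + 2) * (SS lp lp B w *
      SS (nuz (zA A x)) (nuz (zA A x)) B w ^ (k + 1)) +
      (k + 1) * SS (nuz (zA A x)) (nuz (zA A x)) B w ^ (k + 2)) ≤
      (Om x).card * ((B.card : ℝ) ^ (k + 2) * (η + 1 / Real.log x ^ (δ / 2))) := by
    have h1 := hx B hB hcard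
    have h2 := moment_comb (k + 1) (zA A x) x hx0 B
    have h3 : ((k + 1 : ℕ) : ℝ) + 1 = (k : ℝ) + 2 := by push_cast; ring
    have h4 : ((k + 1 : ℕ) : ℝ) = (k : ℝ) + 1 := by push_cast; ring
    rw [h3, h4] at h1 h2
    have hyp' : ∑ b ∈ Inj (k + 1 + 1) B, pin x b ^ 2 ≤
        ∑ b ∈ Inj (k + 1 + 1) B, SI b ^ 2 + η * (B.card : ℝ) ^ (k + 1 + 1) := hyp
    refine (le_of_eq h2).trans ?_
    change _ ≤ ((Om x).card : ℝ) * ((B.card : ℝ) ^ (k + 1 + 1) * (η + 1 / Real.log x ^ (δ / 2)))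
    rw [card_Om]
    push_cast
    apply mul_le_mul_of_nonneg_left _ (by positivity)
    refine h1.trans ?_
    have h6 : 0 ≤ (B.card : ℝ) ^ (k + 1 + 1) * (1 / Real.log x ^ δ) := by positivity
    have h5 : (B.card : ℝ) ^ (k + 1 + 1) * (1 / Real.log x ^ (δ / 2) - 1 / Real.log x ^ δ) =
        (B.card : ℝ) ^ (k + 1 + 1) * (1 / Real.log x ^ (δ / 2)) -
          (B.card : ℝ) ^ (k + 1 + 1) * (1 / Real.log x ^ δ) := by ring
    rw [h5]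
    have h7 : (B.card : ℝ) ^ (k + 1 + 1) * (η + 1 / Real.log x ^ (δ / 2)) =
        η * (B.card : ℝ) ^ (k + 1 + 1) + (B.card : ℝ) ^ (k + 1 + 1) * (1 / Real.log x ^ (δ / 2)) := by
      ring
    rw [h7]
    linarith
  exact conc (Om x) (SS lp lp B) (SS (nuz (zA A x)) (nuz (zA A x)) B)
    (fun w _ => SS_nonneg _ _ lp_nonneg lp_nonneg B w)
    (fun w _ => SS_nonneg _ _ (nuz_nonneg _) (nuz_nonneg _) B w) k B.card
    (η + 1 / Real.log x ^ (δ / 2)) hβ (by positivity) hdef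

theorem conc_N1_eta (k : ℕ) {δ : ℝ} (hδ : 0 < δ) (hδ1 : δ ≤ 1 / 4) : ∃ A0 : ℕ, ∀ A : ℕ, A0 ≤ A →
    ∀ᶠ x : ℕ in atTop, ∀ B : Finset ℕ, (∀ b ∈ B, b ≤ x) → Real.log x ^ (1 + δ) ≤ B.card →
    ∀ η : ℝ, 0 ≤ η →
      ∑ b ∈ Inj (k + 2) B, pin x b ≤
        ∑ b ∈ Inj (k + 2) B, SI b + η * (B.card : ℝ) ^ (k + 2) →
      ∑ n ∈ Icc 1 x, (S1 lp B n - S1 (nuz (zA A x)) B n) ^ 2 ≤
        2 * (Icc 1 x).card * (B.card : ℝ) ^ 2 *
          (η + 1 / Real.log x ^ (δ / 2)) ^ (2 / ((k : ℝ) + 2)) := by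
  obtain ⟨A0, hA0⟩ := defect_core1 (k + 1) hδ hδ1
  refine ⟨A0, fun A hA => ?_⟩
  filter_upwards [hA0 A hA, ev_log_ge 1, eventually_gt_atTop 0] with x hx hL hx0 B hB hcard η hη hyp
  have hL0 : 0 < Real.log x := by linarith
  have hβ : (0 : ℝ) < B.card := lt_of_lt_of_le (Real.rpow_pos_of_pos hL0 _) hcard
  have hdef : ∑ n ∈ Icc 1 x, (S1 lp B n ^ (k + 2) - (k + 2) * (S1 lp B n *
      S1 (nuz (zA A x)) B n ^ (k + 1)) + (k + 1) * S1 (nuz (zA A x)) B n ^ (k + 2)) ≤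
      (Icc 1 x).card * ((B.card : ℝ) ^ (k + 2) * (η + 1 / Real.log x ^ (δ / 2))) := by
    have h1 := hx B hB hcard
    have h2 := moment_comb1 (k + 1) (zA A x) x hx0 B
    have h3 : ((k + 1 : ℕ) : ℝ) + 1 = (k : ℝ) + 2 := by push_cast; ring
    have h4 : ((k + 1 : ℕ) : ℝ) = (k : ℝ) + 1 := by push_cast; ring
    rw [h3, h4] at h1 h2
    have hyp' : ∑ b ∈ Inj (k + 1 + 1) B, pin x b ≤
        ∑ b ∈ Inj (k + 1 + 1) B, SI b + η * (B.card : ℝ) ^ (k + 1 + 1) := hyp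
    refine (le_of_eq h2).trans ?_
    change _ ≤ ((Icc 1 x).card : ℝ) * ((B.card : ℝ) ^ (k + 1 + 1) * (η + 1 / Real.log x ^ (δ / 2)))
    rw [Nat.card_Icc, Nat.add_sub_cancel]
    apply mul_le_mul_of_nonneg_left _ (by positivity)
    refine h1.trans ?_
    have h6 : 0 ≤ (B.card : ℝ) ^ (k + 1 + 1) * (1 / Real.log x ^ δ) := by positivity
    have h5 : (B.card : ℝ) ^ (k + 1 + 1) * (1 / Real.log x ^ (δ / 2) - 1 / Real.log x ^ δ) =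
        (B.card : ℝ) ^ (k + 1 + 1) * (1 / Real.log x ^ (δ / 2)) -
          (B.card : ℝ) ^ (k + 1 + 1) * (1 / Real.log x ^ δ) := by ring
    rw [h5]
    have h7 : (B.card : ℝ) ^ (k + 1 + 1) * (η + 1 / Real.log x ^ (δ / 2)) =
        η * (B.card : ℝ) ^ (k + 1 + 1) + (B.card : ℝ) ^ (k + 1 + 1) * (1 / Real.log x ^ (δ / 2)) := by
      ring
    rw [h7]
    linarith
  exact conc (Icc 1 x) (S1 lp B) (S1 (nuz (zA A x)) B)
    (fun n _ => S1_nonneg _ lp_nonneg B n) (fun n _ => S1_nonneg _ (nuz_nonneg _) B n) k B.card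
    (η + 1 / Real.log x ^ (δ / 2)) hβ (by positivity) hdef

end Pool.Agent.HLR
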