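import Pool.Agent.Lib.HLS.SetStable
import Pool.Agent.Lib.HLR.Dilations

/-!
# All sets dilated by a good dilation

PROOF SKETCH. `dil_set` (Dilations.lean): `B = S.image (fun a => c + t * a)` has `|S|` elements, all `<= x`, and `pin b <= SI b + 1 / L^(1/4)` for all
`b ∈ Inj 2 B`. So `∑_{Inj 2 B} max (pin - SI) 0 <= |B|^2 / L^(1/4)` (`card_Inj_le`) `<= |B|^2 / L^δ0`, `δ0 = min δ (1/4)`, and `set_pos m 2 s` with `δ0` applies
(`L^(m + δ0) <= L^(m + δ)`). Finally `∑_{a ∈ Inj s S} g (fun i => c + t * a i) = ∑_{b ∈ Inj s B} g b` (`Finset.sum_bij`, or `Finset.sum_image` with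
`Inj s B = (Inj s S).image (fun a i => c + t * a i)`).
-/

set_option autoImplicit false

open Finset Filter

namespace Pool.Agent.HLR

open Pool.Agent.HLB Pool.Agent.HLT UpperAux

theorem dil_stable (m s K : ℕ) (hm : m = 1 ∨ m = 2) (hs : 1 ≤ s) {δ : ℝ} (hδ : 0 < δ) :
    ∃ δ' : ℝ, 0 < δ' ∧ ∀ᶠ x : ℕ in atTop, ∀ t : ℕ, DP x K t →
      ∀ c : ℕ, 2 * c ≤ x → ∀ S : Finset ℕ, (∀ a ∈ S, (a : ℝ) ≤ Real.log x ^ K) →
        Real.log x ^ (m + δ) ≤ S.card →
        |∑ a ∈ Inj s S, (pin x (fun i => c + t * a i) - SI (fun i => c + t * a i)) ^ m| ≤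
          (S.card : ℝ) ^ s / Real.log x ^ δ' := by
  classical
  set δ0 : ℝ := min δ (1 / 4) with hδ0
  have hδ00 : 0 < δ0 := lt_min hδ (by norm_num)
  obtain ⟨δ', hδ', hP⟩ := set_pos m 2 s hm le_rfl hs hδ00
  refine ⟨δ', hδ', ?_⟩
  filter_upwards [hP, ev_log_ge 1] with x hP hL1 t ht c hc S hS hSc
  obtain ⟨hinj, hcard, hBx, hBg⟩ := dil_set ht hc S hS
  set L : ℝ := Real.log x with hL
  have hL0 : 0 < L := by linarith
  set B : Finset ℕ := S.image (fun a => c + t * a) with hB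
  have hpow : ∀ {a b : ℝ}, a ≤ b → L ^ a ≤ L ^ b := fun h =>
    Real.rpow_le_rpow_of_exponent_le hL1 h
  have hBc : L ^ ((m : ℝ) + δ0) ≤ (B.card : ℝ) := by
    rw [hcard]
    exact (hpow (by linarith [min_le_left δ (1 / 4)])).trans hSc
  have h1 : ∑ b ∈ Inj 2 B, max (pin x b - SI b) 0 ≤ (B.card : ℝ) ^ 2 / L ^ δ0 := by
    have h2 : ∑ b ∈ Inj 2 B, max (pin x b - SI b) 0 ≤
        ∑ b ∈ Inj 2 B, 1 / L ^ (1 / 4 : ℝ) := by
      refine Finset.sum_le_sum fun b hb => max_le ?_ (by positivity)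
      have := not_lt.1 (hBg b hb)
      linarith
    refine h2.trans ?_
    rw [Finset.sum_const, nsmul_eq_mul, mul_one_div]
    refine div_le_div₀ (by positivity) (card_Inj_le 2 B) (by positivity)
      (hpow (min_le_right δ (1 / 4)))
  have h3 := hP B hBx hBc h1
  rw [hcard] at h3
  have hfi : Function.Injective (fun a : Fin s → ℕ => (fun i => c + t * a i)) := by
    intro a a' h
    funext i
    exact hinj (congrFun h i)
  have himg : Inj s B = (Inj s S).image (fun a => (fun i => c + t * a i)) := by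
    ext b
    rw [Finset.mem_image]
    unfold Inj
    simp only [Finset.mem_filter, mem_Tup]
    constructor
    · rintro ⟨hb, hbi⟩
      have h4 : ∀ i, ∃ a ∈ S, c + t * a = b i := by
        intro i
        have := hb i
        rw [hB, Finset.mem_image] at this
        exact this
      choose a ha1 ha2 using h4
      refine ⟨a, ⟨ha1, ?_⟩, funext ha2⟩
      intro i j hij
      refine hbi ?_
      rw [← ha2, ← ha2, hij]
    · rintro ⟨a, ⟨ha, hai⟩, rfl⟩
      refine ⟨fun i => ?_, fun i j hij => hai (hinj hij)⟩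
      rw [hB, Finset.mem_image]
      exact ⟨a i, ha i, rfl⟩
  rw [himg, Finset.sum_image (fun a _ a' _ h => hfi h)] at h3
  exact h3

end Pool.Agent.HLR
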