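import Pool.Agent.Lib.HLR.ToPi

/-!
# The sieve bound for prime tuples in terms of the singular series

PROOF SKETCH. `PP_le_SI`: this is the proof of `PP_inj_small` (Upper.lean) stopped one line earlier. If `nuI t p < p` for all
primes: `HLB.tuple_upperI` gives `#{n <= x : all n + t i prime} <= K SI t x / L^r`, and `sum_prod_lp_le` gives
`PP x t <= (2 L)^r # / x <= 2^r K SI t`. Otherwise `HLB.count_inadm` gives at most `r` such `n`, so
`PP x t <= (2 L)^r r / x <= 1 / L` for large `x` (`ev_pow_log_le`), and `SI t = 0` (`SI_nonneg` is enough).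
`pin_le_SI`: add `pin_close` (`|PP - pin| <= 1 / L^(1/2)`).
-/

set_option autoImplicit false

open Finset Filter

namespace Pool.Agent.HLR

open Pool.Agent.HLB Pool.Agent.HLT UpperAux

theorem PP_le_SI (r : ℕ) (hr : 1 ≤ r) : ∃ C : ℝ, 1 ≤ C ∧ ∀ᶠ x : ℕ in atTop,
    ∀ t : Fin r → ℕ, Function.Injective t → (∀ i, t i ≤ x) →
      PP x t ≤ C * SI t + 1 / Real.log x := by
  obtain ⟨K, hK, hup⟩ := tuple_upperI r hr
  refine ⟨max 1 (2 ^ r * K), le_max_left _ _, ?_⟩
  filter_upwards [ev_pow_log_le (2 ^ r * r) (r + 1),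
    tendsto_log_nat.eventually (eventually_ge_atTop (1 : ℝ)), eventually_ge_atTop 2]
    with x h4 h5 hx t ht htx
  have hx0 : (0 : ℝ) < x := by exact_mod_cast (by omega : 0 < x)
  have hlog : 0 < Real.log (x : ℝ) := by linarith
  have hs := sum_prod_lp_le hx t htx
  have hSI : 0 ≤ SI t := SI_nonneg t ht
  have hC : 2 ^ r * K * SI t ≤ max 1 (2 ^ r * K) * SI t :=
    mul_le_mul_of_nonneg_right (le_max_right _ _) hSI
  have hC0 : 0 ≤ max 1 (2 ^ r * K) * SI t :=
    mul_nonneg (le_trans zero_le_one (le_max_left _ _)) hSI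
  have hinv : 0 < 1 / Real.log (x : ℝ) := by positivity
  unfold PP Av
  rw [div_le_iff₀ hx0]
  refine hs.trans ?_
  by_cases hadm : ∀ p : ℕ, p.Prime → nuI t p < p
  · have h6' := hup (Fin r) t (Fintype.card_fin r) ht hadm x hx
    have h6 : (((Icc 1 x).filter (fun n : ℕ => ∀ i, (n + t i).Prime)).card : ℝ) ≤
        K * SI t * (x / Real.log x ^ r) := by
      convert h6'
    calc (2 * Real.log x) ^ r *
          (((Icc 1 x).filter (fun n : ℕ => ∀ i, (n + t i).Prime)).card : ℝ)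
        ≤ (2 * Real.log x) ^ r * (K * SI t * (x / Real.log x ^ r)) :=
          mul_le_mul_of_nonneg_left h6 (by positivity)
      _ = (2 ^ r * K * SI t) * x := by
          rw [mul_pow]
          field_simp
      _ ≤ (max 1 (2 ^ r * K) * SI t + 1 / Real.log x) * x := by
          apply mul_le_mul_of_nonneg_right _ hx0.le
          linarith
  · push Not at hadm
    obtain ⟨p, hp, hp2⟩ := hadm
    have h6 := count_inadm t hp hp2 x
    rw [Fintype.card_fin] at h6
    have h6' : (((Icc 1 x).filter (fun n : ℕ => ∀ i, (n + t i).Prime)).card : ℝ) ≤ r := by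
      have h7 : ((Icc 1 x).filter (fun n : ℕ => ∀ i, (n + t i).Prime)).card ≤ r := by
        convert h6
      exact_mod_cast h7
    have h8 : 2 ^ r * r * Real.log (x : ℝ) ^ r ≤ 1 / Real.log x * x := by
      rw [one_div_mul_eq_div, le_div_iff₀ hlog]
      calc 2 ^ r * r * Real.log (x : ℝ) ^ r * Real.log x = 2 ^ r * r * Real.log (x : ℝ) ^ (r + 1) := by
            rw [pow_succ]
            ring
        _ ≤ x := h4
    calc (2 * Real.log x) ^ r *
          (((Icc 1 x).filter (fun n : ℕ => ∀ i, (n + t i).Prime)).card : ℝ)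
        ≤ (2 * Real.log x) ^ r * r := mul_le_mul_of_nonneg_left h6' (by positivity)
      _ = 2 ^ r * r * Real.log x ^ r := by
          rw [mul_pow]
          ring
      _ ≤ 1 / Real.log x * x := h8
      _ ≤ (max 1 (2 ^ r * K) * SI t + 1 / Real.log x) * x := by
          apply mul_le_mul_of_nonneg_right _ hx0.le
          linarith

theorem pin_le_SI (r : ℕ) (hr : 1 ≤ r) : ∃ C : ℝ, 1 ≤ C ∧ ∀ᶠ x : ℕ in atTop,
    ∀ t : Fin r → ℕ, Function.Injective t → (∀ i, t i ≤ x) →
      pin x t ≤ C * SI t + 2 / Real.log x ^ (1 / 2 : ℝ) := by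
  obtain ⟨C, hC1, hC⟩ := PP_le_SI r hr
  refine ⟨C, hC1, ?_⟩
  filter_upwards [hC, pin_close r, tendsto_log_nat.eventually (eventually_ge_atTop (1 : ℝ))]
    with x h1 h2 h3 t ht htx
  have h4 := h1 t ht htx
  have h5 := h2 t ht htx
  rw [abs_le] at h5
  have hlog : 0 < Real.log (x : ℝ) := by linarith
  have h6 : Real.log (x : ℝ) ^ (1 / 2 : ℝ) ≤ Real.log x := by
    calc Real.log (x : ℝ) ^ (1 / 2 : ℝ) ≤ Real.log (x : ℝ) ^ (1 : ℝ) :=
          Real.rpow_le_rpow_of_exponent_le h3 (by norm_num)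
      _ = Real.log x := Real.rpow_one _
  have h7 : 1 / Real.log (x : ℝ) ≤ 1 / Real.log (x : ℝ) ^ (1 / 2 : ℝ) :=
    one_div_le_one_div_of_le (Real.rpow_pos_of_pos hlog _) h6
  have h8 : 2 / Real.log (x : ℝ) ^ (1 / 2 : ℝ) =
      1 / Real.log (x : ℝ) ^ (1 / 2 : ℝ) + 1 / Real.log (x : ℝ) ^ (1 / 2 : ℝ) := by
    rw [← add_div]
    norm_num
  rw [h8]
  linarith [h5.1]

end Pool.Agent.HLR
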