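import Pool.Agent.Lib.HLR.Upper

/-!
# Pairs of shifts in an interval: reduction to the pairs `(0, h)`

PROOF SKETCH. `dst b = |b 0 - b 1|`. `SI_pair`: for every prime `nuI b p = nuI ![0, dst b] p` (both are the number of classes of two
integers with difference `± dst b`: `1` if `p ∣ dst b`, else `2`), so the local factors agree, and `HasProd.unique` with `hasProd_SI`
(`![0, dst b]` is injective as `dst b ≠ 0`). `pin_pair`: let `m = min (b 0) (b 1)`; `n ↦ n + m` maps `{n ∈ [1,x] : n + b 0, n + b 1 prime}` onto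
`{n ∈ [m+1, x+m] : n, n + dst b prime}`, which differs from `{n ∈ [1,x] : n, n + dst b prime}` by at most `m` elements at either end; so
`|piT x b - piT x ![0, dst b]| <= m` and `|pin - pin| <= m L^2 / x <= 1 / L` (`m L^3 <= x`).
`sum_pairs_le`: the sum over `b` with `b 0 = u` of `g (dst b)` is at most `2 ∑_{h ∈ Icc 1 H} g h` (each `h` occurs for at most two `b 1`).
-/

set_option autoImplicit false

open Finset Filter

namespace Pool.Agent.HLR

open Pool.Agent.HLB Pool.Agent.HLT UpperAux

/-- The distance of the two shifts. -/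
def dst (b : Fin 2 → ℕ) : ℕ := (b 0 - b 1) + (b 1 - b 0)

theorem dst_pos {b : Fin 2 → ℕ} (hb : Function.Injective b) : 1 ≤ dst b := by
  have h : b 0 ≠ b 1 := fun h => by
    have := hb h
    simp at this
  unfold dst
  omega

private lemma nuI_two (t : Fin 2 → ℕ) (p : ℕ) :
    nuI t p = if ((t 0 : ℕ) : ZMod p) = ((t 1 : ℕ) : ZMod p) then 1 else 2 := by
  have h : (univ.image (fun i => ((t i : ℕ) : ZMod p))) =
      {((t 0 : ℕ) : ZMod p), ((t 1 : ℕ) : ZMod p)} := by
    ext y
    simp only [Finset.mem_image, Finset.mem_univ, true_and, Finset.mem_insert,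
      Finset.mem_singleton, Fin.exists_fin_two, eq_comm (a := y)]
  unfold nuI
  rw [h]
  split_ifs with h1
  · rw [h1, Finset.pair_eq_singleton, Finset.card_singleton]
  · exact Finset.card_pair h1

private lemma dst_zmod (b : Fin 2 → ℕ) (p : ℕ) :
    (((b 0 : ℕ) : ZMod p) = ((b 1 : ℕ) : ZMod p)) ↔ (((0 : ℕ) : ZMod p) = ((dst b : ℕ) : ZMod p)) := by
  rcases le_total (b 0) (b 1) with h | h
  · have e : dst b = b 1 - b 0 := by unfold dst; omega
    rw [e, Nat.cast_sub h, Nat.cast_zero, eq_comm (a := (0 : ZMod p)), sub_eq_zero, eq_comm]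
  · have e : dst b = b 0 - b 1 := by unfold dst; omega
    rw [e, Nat.cast_sub h, Nat.cast_zero, eq_comm (a := (0 : ZMod p)), sub_eq_zero]

theorem SI_pair (b : Fin 2 → ℕ) (hb : Function.Injective b) :
    SI b = SI (![0, dst b] : Fin 2 → ℕ) := by
  have _ := hb
  unfold SI
  refine tprod_congr fun p => ?_
  unfold locI
  have h : nuI b (p : ℕ) = nuI (![0, dst b] : Fin 2 → ℕ) (p : ℕ) := by
    rw [nuI_two, nuI_two]
    have h := dst_zmod b p
    change (if ((b 0 : ℕ) : ZMod p) = ((b 1 : ℕ) : ZMod p) then 1 else 2) =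
      (if ((0 : ℕ) : ZMod p) = ((dst b : ℕ) : ZMod p) then 1 else 2)
    by_cases h1 : ((b 0 : ℕ) : ZMod p) = ((b 1 : ℕ) : ZMod p)
    · rw [if_pos h1, if_pos (h.1 h1)]
    · rw [if_neg h1, if_neg (fun h2 => h1 (h.2 h2))]
  rw [h]

private lemma piT_two (x : ℕ) (b : Fin 2 → ℕ) :
    piT x b ≤ piT x (![0, dst b] : Fin 2 → ℕ) + min (b 0) (b 1) ∧
      piT x (![0, dst b] : Fin 2 → ℕ) ≤ piT x b + min (b 0) (b 1) := by
  classical
  obtain ⟨m, hm⟩ : ∃ m, m = min (b 0) (b 1) := ⟨_, rfl⟩
  obtain ⟨d, hd⟩ : ∃ d, d = dst b := ⟨_, rfl⟩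
  have e1 : ∀ n : ℕ, (∀ i, (n + b i).Prime) ↔ ((n + m).Prime ∧ (n + m + d).Prime) := by
    intro n
    rw [Fin.forall_fin_two]
    rcases le_total (b 0) (b 1) with h | h
    · have h1 : b 0 = m := by rw [hm]; omega
      have h2 : b 1 = m + d := by rw [hd]; unfold dst; omega
      rw [h1, h2, add_assoc]
    · have h1 : b 1 = m := by rw [hm]; omega
      have h2 : b 0 = m + d := by rw [hd]; unfold dst; omega
      rw [h1, h2, add_assoc]
      exact and_comm
  have e2 : ∀ n : ℕ, (∀ i, (n + (![0, d] : Fin 2 → ℕ) i).Prime) ↔ (n.Prime ∧ (n + d).Prime) := by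
    intro n
    rw [Fin.forall_fin_two]
    simp
  rw [← hm, ← hd]
  unfold piT
  simp only [e1, e2]
  constructor
  · have h1 : (((Icc 1 x).filter (fun n : ℕ => (n + m).Prime ∧ (n + m + d).Prime)).image
        (fun n => n + m)) ⊆ ((Icc 1 x).filter (fun n : ℕ => n.Prime ∧ (n + d).Prime)) ∪
        Icc (x + 1) (x + m) := by
      intro y hy
      rw [Finset.mem_image] at hy
      obtain ⟨n, hn, rfl⟩ := hy
      rw [Finset.mem_filter, Finset.mem_Icc] at hn
      rw [Finset.mem_union, Finset.mem_filter, Finset.mem_Icc, Finset.mem_Icc]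
      by_cases h : n + m ≤ x
      · left
        exact ⟨⟨by omega, h⟩, hn.2⟩
      · right
        omega
    have h2 := Finset.card_le_card h1
    rw [Finset.card_image_of_injective _ (add_left_injective m)] at h2
    refine h2.trans ((Finset.card_union_le _ _).trans ?_)
    rw [Nat.card_Icc]
    omega
  · have h1 : ((Icc 1 x).filter (fun n : ℕ => n.Prime ∧ (n + d).Prime)) ⊆
        (((Icc 1 x).filter (fun n : ℕ => (n + m).Prime ∧ (n + m + d).Prime)).image
        (fun n => n + m)) ∪ Icc 1 m := by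
      intro y hy
      rw [Finset.mem_filter, Finset.mem_Icc] at hy
      rw [Finset.mem_union, Finset.mem_image, Finset.mem_Icc]
      by_cases h : y ≤ m
      · right
        omega
      · left
        refine ⟨y - m, ?_, by omega⟩
        rw [Finset.mem_filter, Finset.mem_Icc]
        have e3 : y - m + m = y := by omega
        rw [e3]
        exact ⟨⟨by omega, by omega⟩, hy.2⟩
    have h2 := Finset.card_le_card h1
    refine h2.trans ((Finset.card_union_le _ _).trans ?_)
    rw [Finset.card_image_of_injective _ (add_left_injective m), Nat.card_Icc]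
    omega

theorem pin_pair : ∀ᶠ x : ℕ in atTop, ∀ b : Fin 2 → ℕ,
    (∀ i, (b i : ℝ) * Real.log x ^ 3 ≤ x) →
      |pin x b - pin x (![0, dst b] : Fin 2 → ℕ)| ≤ 1 / Real.log x := by
  have hlim : Tendsto (fun n : ℕ => Real.log (n : ℝ)) atTop atTop :=
    Real.tendsto_log_atTop.comp tendsto_natCast_atTop_atTop
  filter_upwards [hlim.eventually_ge_atTop 1, eventually_gt_atTop 0] with x hL1 hx0
  intro b hb
  have hL0 : 0 < Real.log (x : ℝ) := by linarith
  have hx : (0 : ℝ) < x := by exact_mod_cast hx0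
  obtain ⟨h1, h2⟩ := piT_two x b
  have h1' : (piT x b : ℝ) ≤ piT x (![0, dst b] : Fin 2 → ℕ) + (min (b 0) (b 1) : ℕ) := by
    exact_mod_cast h1
  have h2' : (piT x (![0, dst b] : Fin 2 → ℕ) : ℝ) ≤ piT x b + (min (b 0) (b 1) : ℕ) := by
    exact_mod_cast h2
  have hm : ((min (b 0) (b 1) : ℕ) : ℝ) * Real.log x ^ 3 ≤ x := by
    refine le_trans ?_ (hb 0)
    apply mul_le_mul_of_nonneg_right _ (by positivity)
    exact_mod_cast min_le_left _ _
  unfold pin
  rw [← sub_div, abs_div, abs_of_pos (show (0 : ℝ) < x / Real.log x ^ 2 by positivity),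
    div_le_div_iff₀ (by positivity) hL0]
  have h3 : |(piT x b : ℝ) - piT x (![0, dst b] : Fin 2 → ℕ)| ≤ (min (b 0) (b 1) : ℕ) := by
    rw [abs_le]
    constructor <;> linarith
  have h4 : ((min (b 0) (b 1) : ℕ) : ℝ) * Real.log x ≤ 1 * (x / Real.log x ^ 2) := by
    rw [one_mul, le_div_iff₀ (by positivity)]
    refine le_trans (le_of_eq ?_) hm
    ring
  exact (mul_le_mul_of_nonneg_right h3 hL0.le).trans h4

theorem sum_pairs_le (H : ℕ) (g : ℕ → ℝ) (hg : ∀ h, 0 ≤ g h) :
    ∑ b ∈ Inj 2 (range (H + 1)), g (dst b) ≤ 2 * (H + 1) * ∑ h ∈ Icc 1 H, g h := by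
  classical
  have hmaps : ∀ b ∈ Inj 2 (range (H + 1)), (b 0, dst b) ∈ range (H + 1) ×ˢ Icc 1 H := by
    intro b hb
    unfold Inj at hb
    rw [Finset.mem_filter, mem_Tup] at hb
    have h0 := Finset.mem_range.1 (hb.1 0)
    have h1 := Finset.mem_range.1 (hb.1 1)
    have h2 := dst_pos hb.2
    rw [Finset.mem_product, Finset.mem_range, Finset.mem_Icc]
    refine ⟨h0, h2, ?_⟩
    unfold dst
    omega
  rw [← Finset.sum_fiberwise_of_maps_to hmaps, Finset.sum_product]
  have hfib : ∀ u ∈ range (H + 1), ∀ h ∈ Icc 1 H,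
      ∑ b ∈ (Inj 2 (range (H + 1))).filter (fun b => (b 0, dst b) = (u, h)), g (dst b) ≤
        2 * g h := by
    intro u _ h _
    have e1 : ∑ b ∈ (Inj 2 (range (H + 1))).filter (fun b => (b 0, dst b) = (u, h)), g (dst b) =
        ∑ b ∈ (Inj 2 (range (H + 1))).filter (fun b => (b 0, dst b) = (u, h)), g h := by
      refine Finset.sum_congr rfl fun b hb => ?_
      rw [Finset.mem_filter, Prod.mk.injEq] at hb
      rw [hb.2.2]
    rw [e1, Finset.sum_const, nsmul_eq_mul]
    apply mul_le_mul_of_nonneg_right _ (hg h)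
    have h2 : (Inj 2 (range (H + 1))).filter (fun b => (b 0, dst b) = (u, h)) ⊆
        {(![u, u + h] : Fin 2 → ℕ), (![u, u - h] : Fin 2 → ℕ)} := by
      intro b hb
      rw [Finset.mem_filter, Prod.mk.injEq] at hb
      obtain ⟨-, h3, h4⟩ := hb
      rw [Finset.mem_insert, Finset.mem_singleton]
      unfold dst at h4
      rcases le_total (b 0) (b 1) with h5 | h5
      · left
        funext i
        fin_cases i
        · exact h3
        · show b 1 = u + h
          omega
      · right
        funext i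
        fin_cases i
        · exact h3
        · show b 1 = u - h
          omega
    have h3 : ((Inj 2 (range (H + 1))).filter (fun b => (b 0, dst b) = (u, h))).card ≤ 2 :=
      (Finset.card_le_card h2).trans Finset.card_le_two
    exact_mod_cast h3
  calc _ ≤ ∑ u ∈ range (H + 1), ∑ h ∈ Icc 1 H, 2 * g h :=
        Finset.sum_le_sum fun u hu => Finset.sum_le_sum fun h hh => hfib u hu h hh
    _ = 2 * (H + 1) * ∑ h ∈ Icc 1 H, g h := by
        rw [Finset.sum_const, Finset.card_range, nsmul_eq_mul, ← Finset.mul_sum]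
        push_cast
        ring

end Pool.Agent.HLR
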