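import Pool.Agent.Lib.HLB.SingTail
import Pool.Agent.Lib.HLR.Defs

/-!
# Moments of the singular series over the tuples of an interval
-/

set_option autoImplicit false

open Finset Filter

namespace Pool.Agent.HLR

open Pool.Agent.HLB Pool.Agent.HLT

namespace SIAvgAux

open Pool.Agent.HL Pool.Agent.Lib.Sieve4

lemma SI_le_bad {q : ℕ} (hq : 1 ≤ q) (H : ℕ) (b : Fin q → ℕ) (hb : Function.Injective b)
    (hbH : ∀ i, b i ≤ H) :
    (fun i => b i + 1) ∈ injTuples q (Icc 1 (H + 1)) ∧
    SI b ≤ ∏ p ∈ badPrimes (fun i => b i + 1) 1 (H + 1), ww (q - 1) p := by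
  have hbT : (fun i => b i + 1) ∈ injTuples q (Icc 1 (H + 1)) := by
    rw [mem_injTuples]
    constructor
    · intro i
      rw [mem_Icc]
      have := hbH i
      constructor
      · simp
      · simpa using this
    · intro i j hij
      exact hb (by simpa using hij)
  refine ⟨hbT, ?_⟩
  have hlocb : ∀ p, loc (shift 0 1 (fun i => b i + 1)) p = locI b p := by
    intro p
    rw [locI_fin, locI_succ b p]
  have hS : HasProd (fun p : Nat.Primes => loc (shift 0 1 (fun i => b i + 1)) p) (SI b) := by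
    have e : (fun p : Nat.Primes => loc (shift 0 1 (fun i => b i + 1)) (p : ℕ))
        = fun p : Nat.Primes => locI b (p : ℕ) := by
      funext p
      exact hlocb p
    rw [e]
    exact hasProd_SI b hb
  have h1 := SS_le' hq 0 1 (H + 1) one_ne_zero (fun i => b i + 1) hbT hS
  have h2 : DD1 1 = 1 := by
    unfold DD1
    rw [Nat.primeFactors_one, Finset.prod_empty]
  rw [h2, inv_one, one_pow, one_mul] at h1
  exact h1

end SIAvgAux

theorem SI_avg (q k : ℕ) (hq : 1 ≤ q) : ∃ C : ℝ, 1 ≤ C ∧ ∀ H : ℕ, 1 ≤ H →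
    ∑ b ∈ Inj q (range (H + 1)), SI b ^ k ≤ C * (H : ℝ) ^ q := by
  classical
  have hmem : ∀ H : ℕ, ∀ b ∈ Inj q (range (H + 1)), Function.Injective b ∧ ∀ i, b i ≤ H := by
    intro H b hb
    unfold Inj at hb
    rw [mem_filter, mem_Tup] at hb
    refine ⟨hb.2, fun i => ?_⟩
    have := mem_range.mp (hb.1 i)
    omega
  rcases Nat.lt_or_ge 1 q with hq2 | hq1
  · refine ⟨Real.exp (2 ^ ((q - 1) * k * (q * (q - 1)) + 1) / ((1 : ℕ) : ℝ)) * 2 ^ q, ?_, ?_⟩
    · have h1 : (1 : ℝ) ≤ Real.exp (2 ^ ((q - 1) * k * (q * (q - 1)) + 1) / ((1 : ℕ) : ℝ)) :=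
        Real.one_le_exp (by positivity)
      have h2 : (1 : ℝ) ≤ 2 ^ q := one_le_pow₀ (by norm_num)
      exact one_le_mul_of_one_le_of_one_le h1 h2
    · intro H hH
      have h1 := HL.avg_badPrimes (r := q) hq2 ((q - 1) * k) (z := 1) le_rfl (H + 1)
      have h2 : ∑ b ∈ Inj q (range (H + 1)), SI b ^ k ≤
          ∑ b ∈ Inj q (range (H + 1)),
            ∏ p ∈ HL.badPrimes (fun i => b i + 1) 1 (H + 1), HL.ww ((q - 1) * k) p := by
        refine Finset.sum_le_sum fun b hb => ?_
        obtain ⟨hb1, hb2⟩ := hmem H b hb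
        obtain ⟨-, h3⟩ := SIAvgAux.SI_le_bad hq H b hb1 hb2
        refine (pow_le_pow_left₀ (SI_nonneg b hb1) h3 k).trans (le_of_eq ?_)
        rw [← Finset.prod_pow]
        exact Finset.prod_congr rfl fun p _ => HL.ww_pow _ _ _
      have h4 : ∑ b ∈ Inj q (range (H + 1)),
            ∏ p ∈ HL.badPrimes (fun i => b i + 1) 1 (H + 1), HL.ww ((q - 1) * k) p ≤
          ∑ b ∈ HL.injTuples q (Icc 1 (H + 1)),
            ∏ p ∈ HL.badPrimes b 1 (H + 1), HL.ww ((q - 1) * k) p := by
        rw [← Finset.sum_image (s := Inj q (range (H + 1))) (g := fun b => (fun i => b i + 1))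
          (f := fun b => ∏ p ∈ HL.badPrimes b 1 (H + 1), HL.ww ((q - 1) * k) p)]
        · refine Finset.sum_le_sum_of_subset_of_nonneg ?_ ?_
          · intro c hc
            rw [mem_image] at hc
            obtain ⟨b, hb, rfl⟩ := hc
            obtain ⟨hb1, hb2⟩ := hmem H b hb
            exact (SIAvgAux.SI_le_bad hq H b hb1 hb2).1
          · intro c _ _
            refine Finset.prod_nonneg fun p hp => ?_
            exact zero_le_one.trans (HL.one_le_ww _
              (mem_filter.mp (mem_filter.mp hp).1).2)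
        · intro b _ c _ hbc
          funext i
          have := congrFun hbc i
          simpa using this
      refine (h2.trans h4).trans (h1.trans ?_)
      rw [mul_assoc (Real.exp _) ((2 : ℝ) ^ q) ((H : ℝ) ^ q), ← mul_pow]
      refine mul_le_mul_of_nonneg_left ?_ (Real.exp_pos _).le
      refine pow_le_pow_left₀ (Nat.cast_nonneg _) ?_ q
      have h5 : (1 : ℝ) ≤ H := by exact_mod_cast hH
      push_cast
      linarith
  · have hq' : q = 1 := by omega
    subst hq'
    refine ⟨2, by norm_num, ?_⟩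
    intro H hH
    have h2 : ∑ b ∈ Inj 1 (range (H + 1)), SI b ^ k ≤ ∑ b ∈ Inj 1 (range (H + 1)), (1 : ℝ) := by
      refine Finset.sum_le_sum fun b hb => ?_
      obtain ⟨hb1, hb2⟩ := hmem H b hb
      obtain ⟨-, h3⟩ := SIAvgAux.SI_le_bad le_rfl H b hb1 hb2
      have h4 : ∏ p ∈ HL.badPrimes (fun i => b i + 1) 1 (H + 1), HL.ww (1 - 1) p = 1 := by
        refine Finset.prod_eq_one fun p _ => ?_
        unfold HL.ww
        simp
      rw [h4] at h3
      exact pow_le_one₀ (SI_nonneg b hb1) h3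
    refine h2.trans ?_
    rw [Finset.sum_const, nsmul_eq_mul, mul_one]
    have h3 : (Inj 1 (range (H + 1))).card ≤ H + 1 := by
      unfold Inj
      refine (Finset.card_filter_le _ _).trans (le_of_eq ?_)
      rw [card_Tup, card_range, pow_one]
    have h4 : ((Inj 1 (range (H + 1))).card : ℝ) ≤ (H : ℝ) + 1 := by exact_mod_cast h3
    have h5 : (1 : ℝ) ≤ H := by exact_mod_cast hH
    rw [pow_one]
    linarith

end Pool.Agent.HLR
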