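import Pool.Agent.Lib.HLR.Defect
import Pool.Agent.Lib.HLS.PPSI
import Pool.Agent.Lib.HLS.Pairs
import Pool.Agent.Lib.HLS.SIAvg

/-!
# The moments over the pairs of an interval from a one-sided bound for the pairs `(0, h)`
-/

set_option autoImplicit false

open Finset Filter

namespace Pool.Agent.HLR

open Pool.Agent.HLB Pool.Agent.HLT UpperAux

namespace IntDefectAux

/-- The excess at distance `h`. -/
noncomputable def uu (x h : ℕ) : ℝ :=
  max (pin x (![0, h] : Fin 2 → ℕ) - SI (![0, h] : Fin 2 → ℕ)) 0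

lemma uu_nonneg (x h : ℕ) : 0 ≤ uu x h := le_max_right _ _

lemma ev_pair : ∀ᶠ x : ℕ in atTop, ∀ H : ℕ, (H : ℝ) * Real.log x ^ 3 ≤ x →
    ∀ b ∈ Inj 2 (range (H + 1)), pin x b - SI b ≤ uu x (dst b) + 1 / Real.log x := by
  filter_upwards [pin_pair, eventually_ge_atTop 2] with x hx hx2 H hHx b hb
  rw [mem_Inj, mem_Tup] at hb
  have hL : 0 ≤ Real.log x := Real.log_natCast_nonneg x
  have h1 := hx b (fun i => by
    refine le_trans ?_ hHx
    refine mul_le_mul_of_nonneg_right ?_ (by positivity)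
    have := mem_range.mp (hb.1 i)
    exact_mod_cast (by omega : b i ≤ H))
  rw [abs_le] at h1
  rw [SI_pair b hb.2]
  have h2 : pin x (![0, dst b] : Fin 2 → ℕ) - SI (![0, dst b] : Fin 2 → ℕ) ≤ uu x (dst b) :=
    le_max_left _ _
  linarith [h1.2]

lemma sum_vv (x H : ℕ) (hH : 1 ≤ H) {L η : ℝ} (hL : 0 < L) (hη : 0 ≤ η)
    (h : ∑ h ∈ Icc 1 H, uu x h ≤ η * H) :
    ∑ b ∈ Inj 2 (range (H + 1)), (uu x (dst b) + 1 / L) ≤ 4 * (η + 1 / L) * (H : ℝ) ^ 2 := by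
  have hH1 : (1 : ℝ) ≤ H := by exact_mod_cast hH
  rw [Finset.sum_add_distrib, Finset.sum_const, nsmul_eq_mul]
  have h1 := sum_pairs_le H (uu x) (uu_nonneg x)
  have h2 : ((Inj 2 (range (H + 1))).card : ℝ) ≤ ((H : ℝ) + 1) ^ 2 := by
    refine (card_Inj_le 2 (range (H + 1))).trans (le_of_eq ?_)
    rw [card_range]
    push_cast
    rfl
  have h3 : (0 : ℝ) < 1 / L := by positivity
  have h4 : 2 * ((H : ℝ) + 1) * ∑ h ∈ Icc 1 H, uu x h ≤ 2 * ((H : ℝ) + 1) * (η * H) :=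
    mul_le_mul_of_nonneg_left h (by positivity)
  have h5 : 2 * ((H : ℝ) + 1) * (η * H) ≤ 4 * η * (H : ℝ) ^ 2 := by
    have : 0 ≤ η * H := by positivity
    nlinarith
  have h6 : ((Inj 2 (range (H + 1))).card : ℝ) * (1 / L) ≤ 4 * (H : ℝ) ^ 2 * (1 / L) := by
    refine mul_le_mul_of_nonneg_right (h2.trans ?_) h3.le
    nlinarith
  calc _ ≤ 4 * η * (H : ℝ) ^ 2 + 4 * (H : ℝ) ^ 2 * (1 / L) := by linarith
    _ = _ := by ring

lemma pt {e v w W θ : ℝ} (he0 : 0 ≤ e) (hev : e ≤ v) (heW : e ≤ w) (hθ : 0 < θ) :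
    e * W ≤ v / (2 * θ) + θ / 2 * (w * W ^ 2) := by
  have h1 : e / (2 * θ) ≤ v / (2 * θ) := by gcongr
  have h2 : θ / 2 * (e * W ^ 2) ≤ θ / 2 * (w * W ^ 2) := by gcongr
  have h3 : e * W ≤ e / (2 * θ) + θ / 2 * (e * W ^ 2) := by
    have h4 : e / (2 * θ) + θ / 2 * (e * W ^ 2) - e * W = e * (1 - θ * W) ^ 2 / (2 * θ) := by
      field_simp
      ring
    have h5 : 0 ≤ e * (1 - θ * W) ^ 2 / (2 * θ) := by positivity
    linarith
  linarith

lemma cube {a : ℝ} (ha : 0 ≤ a) : (a + 1) ^ 3 ≤ 4 * (a ^ 3 + 1) := by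
  nlinarith [mul_nonneg (by linarith : (0 : ℝ) ≤ a + 1) (sq_nonneg (a - 1))]

end IntDefectAux

open IntDefectAux

theorem int_defect1 : ∃ C : ℝ, 1 ≤ C ∧ ∀ᶠ x : ℕ in atTop, ∀ H : ℕ, 1 ≤ H →
    (H : ℝ) * Real.log x ^ 3 ≤ x → ∀ η : ℝ, 0 ≤ η →
    ∑ h ∈ Icc 1 H, max (pin x (![0, h] : Fin 2 → ℕ) - SI (![0, h] : Fin 2 → ℕ)) 0 ≤ η * H →
    ∑ b ∈ Inj 2 (range (H + 1)), pin x b ≤ ∑ b ∈ Inj 2 (range (H + 1)), SI b +
      C * (η + 1 / Real.log x) * (H : ℝ) ^ 2 := by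
  refine ⟨4, by norm_num, ?_⟩
  filter_upwards [ev_pair, eventually_ge_atTop 2] with x hx hx2 H hH hHx η hη hsum
  have hL : 0 < Real.log x := Real.log_pos (by exact_mod_cast (by omega : 1 < x))
  have h1 := sum_vv x H hH hL hη hsum
  have h2 : ∑ b ∈ Inj 2 (range (H + 1)), pin x b ≤
      ∑ b ∈ Inj 2 (range (H + 1)), (SI b + (uu x (dst b) + 1 / Real.log x)) := by
    refine Finset.sum_le_sum fun b hb => ?_
    have := hx H hHx b hb
    linarith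
  rw [Finset.sum_add_distrib] at h2
  linarith

theorem int_defect2 : ∃ C : ℝ, 1 ≤ C ∧ ∀ᶠ x : ℕ in atTop, ∀ H : ℕ, 1 ≤ H →
    (H : ℝ) * Real.log x ^ 3 ≤ x → ∀ η : ℝ, 0 ≤ η →
    ∑ h ∈ Icc 1 H, max (pin x (![0, h] : Fin 2 → ℕ) - SI (![0, h] : Fin 2 → ℕ)) 0 ≤ η * H →
    ∑ b ∈ Inj 2 (range (H + 1)), pin x b ^ 2 ≤ ∑ b ∈ Inj 2 (range (H + 1)), SI b ^ 2 +
      C * (η ^ (1 / 2 : ℝ) + 1 / Real.log x ^ (1 / 2 : ℝ)) * (H : ℝ) ^ 2 := by
  obtain ⟨C1, hC1, hP⟩ := pin_le_SI 2 (by norm_num)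
  obtain ⟨C3, hC3, hS⟩ := SI_avg 2 3 (by norm_num)
  set D : ℝ := C1 + 2 with hD
  refine ⟨2 + 2 * (D + 1) ^ 3 * (C3 + 4), ?_, ?_⟩
  · have : 0 ≤ 2 * (D + 1) ^ 3 * (C3 + 4) := by
      have : 0 ≤ D + 1 := by linarith
      positivity
    linarith
  filter_upwards [ev_pair, eventually_ge_atTop 3, hP] with x hx hx2 hPx H hH hHx η hη hsum
  have hx1 : (1 : ℝ) < x := by exact_mod_cast (by omega : 1 < x)
  have hL : 0 < Real.log x := Real.log_pos hx1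
  have hL1 : 1 ≤ Real.log x := by
    rw [Real.le_log_iff_exp_le (by linarith)]
    have h3 : (3 : ℝ) ≤ x := by exact_mod_cast hx2
    linarith [Real.exp_one_lt_d9]
  set L : ℝ := Real.log x with hLdef
  set θ : ℝ := η ^ (1 / 2 : ℝ) + 1 / L ^ (1 / 2 : ℝ) with hθ
  have hLh : 0 < L ^ (1 / 2 : ℝ) := Real.rpow_pos_of_pos hL _
  have hLh1 : 1 ≤ L ^ (1 / 2 : ℝ) := Real.one_le_rpow hL1 (by norm_num)
  have hηh : 0 ≤ η ^ (1 / 2 : ℝ) := Real.rpow_nonneg hη _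
  have hθ0 : 0 < θ := by positivity
  have hθ2 : η + 1 / L ≤ θ ^ 2 := by
    have e1 : (η ^ (1 / 2 : ℝ)) ^ 2 = η := by
      rw [← Real.rpow_natCast, ← Real.rpow_mul hη]
      norm_num
    have e2 : (L ^ (1 / 2 : ℝ)) ^ 2 = L := by
      rw [← Real.rpow_natCast, ← Real.rpow_mul hL.le]
      norm_num
    have e3 : (1 / L ^ (1 / 2 : ℝ)) ^ 2 = 1 / L := by
      rw [div_pow, e2, one_pow]
    have e4 : θ ^ 2 = η + 1 / L + 2 * (η ^ (1 / 2 : ℝ) * (1 / L ^ (1 / 2 : ℝ))) := by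
      rw [hθ, add_sq, e1, e3]
      ring
    have e5 : 0 ≤ η ^ (1 / 2 : ℝ) * (1 / L ^ (1 / 2 : ℝ)) := by positivity
    linarith
  have hH1 : (1 : ℝ) ≤ H := by exact_mod_cast hH
  have hD1 : 3 ≤ D := by linarith
  have hLx : L ^ 3 ≤ x := by
    refine le_trans ?_ hHx
    have : 0 ≤ L ^ 3 := by positivity
    nlinarith
  have h1 := sum_vv x H hH hL hη hsum
  -- pointwise
  have hpt : ∀ b ∈ Inj 2 (range (H + 1)), pin x b ^ 2 ≤ SI b ^ 2 +
      ((uu x (dst b) + 1 / L) / (2 * θ) + θ / 2 * ((D + 1) ^ 3 * (4 * (SI b ^ 3 + 1)))) := by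
    intro b hb
    have hb' := hb
    rw [mem_Inj, mem_Tup] at hb'
    have hS0 : 0 ≤ SI b := SI_nonneg b hb'.2
    have hbx : ∀ i, b i ≤ x := by
      intro i
      have h2 : b i ≤ H := by
        have := mem_range.mp (hb'.1 i)
        omega
      have h3 : (H : ℝ) ≤ x := by
        refine le_trans ?_ hHx
        have : 1 ≤ L ^ 3 := one_le_pow₀ hL1
        nlinarith
      have h4 : H ≤ x := by exact_mod_cast h3
      omega
    have h2 := hPx b hb'.2 hbx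
    have h3 : pin x b ≤ D * (SI b + 1) := by
      have h4 : 2 / L ^ (1 / 2 : ℝ) ≤ 2 := by
        rw [div_le_iff₀ hLh]
        linarith
      rw [hD]
      nlinarith
    have h5 := hx H hHx b hb
    have hv0 : 0 ≤ uu x (dst b) + 1 / L := by
      have := uu_nonneg x (dst b)
      positivity
    have hpin0 : 0 ≤ pin x b := by
      unfold pin
      positivity
    have hc := cube hS0
    have hE0 : 0 ≤ (uu x (dst b) + 1 / L) / (2 * θ) +
        θ / 2 * ((D + 1) ^ 3 * (4 * (SI b ^ 3 + 1))) := by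
      have : 0 ≤ D + 1 := by linarith
      positivity
    rcases le_or_gt (pin x b) (SI b) with h6 | h6
    · have : pin x b ^ 2 ≤ SI b ^ 2 := pow_le_pow_left₀ hpin0 h6 2
      linarith
    · have he0 : 0 ≤ pin x b - SI b := by linarith
      have h7 := pt (e := pin x b - SI b) (v := uu x (dst b) + 1 / L) (w := (D + 1) * (SI b + 1))
        (W := (D + 1) * (SI b + 1)) he0 h5 (by nlinarith) hθ0
      have h8 : pin x b ^ 2 - SI b ^ 2 ≤ (pin x b - SI b) * ((D + 1) * (SI b + 1)) := by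
        have : pin x b ^ 2 - SI b ^ 2 = (pin x b - SI b) * (pin x b + SI b) := by ring
        rw [this]
        refine mul_le_mul_of_nonneg_left ?_ he0
        linarith
      have h9 : θ / 2 * ((D + 1) * (SI b + 1) * ((D + 1) * (SI b + 1)) ^ 2) ≤
          θ / 2 * ((D + 1) ^ 3 * (4 * (SI b ^ 3 + 1))) := by
        refine mul_le_mul_of_nonneg_left ?_ (by positivity)
        have e1 : (D + 1) * (SI b + 1) * ((D + 1) * (SI b + 1)) ^ 2 = (D + 1) ^ 3 * (SI b + 1) ^ 3 := by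
          ring
        rw [e1]
        refine mul_le_mul_of_nonneg_left hc ?_
        have : 0 ≤ D + 1 := by linarith
        positivity
      linarith
  have hcard : ((Inj 2 (range (H + 1))).card : ℝ) ≤ 4 * (H : ℝ) ^ 2 := by
    refine (card_Inj_le 2 (range (H + 1))).trans ?_
    rw [card_range]
    push_cast
    nlinarith
  have hS3 := hS H hH
  refine (Finset.sum_le_sum hpt).trans ?_
  have hcs : ∑ b ∈ Inj 2 (range (H + 1)), (SI b ^ 3 + 1) =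
      ∑ b ∈ Inj 2 (range (H + 1)), SI b ^ 3 + ((Inj 2 (range (H + 1))).card : ℝ) := by
    rw [Finset.sum_add_distrib, Finset.sum_const, nsmul_eq_mul, mul_one]
  rw [Finset.sum_add_distrib, Finset.sum_add_distrib, ← Finset.sum_div, ← Finset.mul_sum,
    ← Finset.mul_sum, ← Finset.mul_sum, hcs]
  have h10 : (∑ b ∈ Inj 2 (range (H + 1)), (uu x (dst b) + 1 / L)) / (2 * θ) ≤
      2 * θ * (H : ℝ) ^ 2 := by
    rw [div_le_iff₀ (by positivity)]
    refine h1.trans ?_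
    have h11 : 4 * (η + 1 / L) * (H : ℝ) ^ 2 ≤ 4 * θ ^ 2 * (H : ℝ) ^ 2 := by gcongr
    refine h11.trans (le_of_eq ?_)
    ring
  have h12 : θ / 2 * ((D + 1) ^ 3 * (4 * (∑ b ∈ Inj 2 (range (H + 1)), SI b ^ 3 +
      ((Inj 2 (range (H + 1))).card : ℝ)))) ≤
      θ / 2 * ((D + 1) ^ 3 * (4 * (C3 * (H : ℝ) ^ 2 + 4 * (H : ℝ) ^ 2))) := by
    have : 0 ≤ D + 1 := by linarith
    gcongr
  have e : 2 * θ * (H : ℝ) ^ 2 +
      θ / 2 * ((D + 1) ^ 3 * (4 * (C3 * (H : ℝ) ^ 2 + 4 * (H : ℝ) ^ 2))) =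
      (2 + 2 * (D + 1) ^ 3 * (C3 + 4)) * θ * (H : ℝ) ^ 2 := by ring
  linarith

end Pool.Agent.HLR
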