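import Pool.Agent.Lib.HLR.OneDefs
import Pool.Agent.Lib.HLR.Rigid

/-!
# Moments of the model in terms of moments of the singular series

PROOF SKETCH. Split `Tup q B` with `sum_Tup_split` (Defect.lean). Injective tuples: `|QQ - SI| <= 1/L` (`QQ_close q 1 hq`), so
`QQ^2 <= 2 SI^2 + 2 / L^2 <= 2 SI^2 + 1`, resp. `QQ <= SI + 1`. Non-injective tuples, first theorem: `noninj_QQ q A hδ` with `η = δ / 2`,
`L^(-δ/2) <= 1`. Second theorem: `QQ <= L^(1/2)` (`QQ_small`) and their number is at most `q^2 β^q / L` (`card_not_inj` in Rigid.lean with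
`B i = B`, `m = L`; or `sum_noninj` of Count.lean), `q^2 L^(1/2) / L <= 1`. Totals `2 K + 2 <= 4 K`, `K + 2 <= 3 K`.
-/

set_option autoImplicit false

open Finset Filter

namespace Pool.Agent.HLR

open Pool.Agent.HLB Pool.Agent.HLT UpperAux

theorem moment_QQ_K (q : ℕ) (hq : 1 ≤ q) {δ : ℝ} (hδ : 0 < δ) : ∃ A0 : ℕ, ∀ A : ℕ, A0 ≤ A →
    ∀ᶠ x : ℕ in atTop, ∀ B : Finset ℕ, (∀ b ∈ B, b ≤ x) → Real.log x ^ (2 + δ) ≤ B.card →
    ∀ K : ℝ, 1 ≤ K → ∑ b ∈ Inj q B, SI b ^ 2 ≤ K * (B.card : ℝ) ^ q →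
      ∑ b ∈ Tup q B, QQ (zA A x) x b ^ 2 ≤ 4 * K * (B.card : ℝ) ^ q := by
  obtain ⟨A0, hA0⟩ := QQ_close q 1 hq
  refine ⟨A0, fun A hA => ?_⟩
  filter_upwards [hA0 A hA, noninj_QQ q A hδ (show 0 < δ / 2 by positivity), ev_log_ge 2]
    with x hQS hnon hL2
  intro B hB hBc K hK hS
  set L := Real.log (x : ℝ) with hL
  set z := zA A x with hz
  have hL0 : 0 < L := by linarith
  have hβ0 : (0 : ℝ) ≤ (B.card : ℝ) ^ q := by positivity
  have hbx : ∀ b ∈ Tup q B, ∀ i, b i ≤ x := fun b hb i => hB _ (mem_Tup.1 hb i)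
  have hE : ∀ b ∈ Inj q B, QQ z x b ^ 2 ≤ 2 * SI b ^ 2 + 1 := by
    intro b hb
    rw [mem_Inj] at hb
    have h1 := hQS b hb.2 (hbx b hb.1)
    rw [pow_one] at h1
    have h2 : 1 / L ≤ 1 / 2 := one_div_le_one_div_of_le (by norm_num) hL2
    have h3 : |QQ z x b - SI b| ≤ 1 / 2 := h1.trans h2
    have h4 : (QQ z x b - SI b) ^ 2 ≤ (1 / 2) ^ 2 := by
      rw [← sq_abs]
      exact pow_le_pow_left₀ (abs_nonneg _) h3 2
    nlinarith [sq_nonneg (QQ z x b - 2 * SI b)]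
  have h1 : ∑ b ∈ Inj q B, QQ z x b ^ 2 ≤ 2 * (K * (B.card : ℝ) ^ q) + (B.card : ℝ) ^ q := by
    refine (Finset.sum_le_sum hE).trans ?_
    rw [Finset.sum_add_distrib, ← Finset.mul_sum, Finset.sum_const, nsmul_eq_mul, mul_one]
    have := card_Inj_le q B
    linarith
  have h2 := hnon B hB hBc
  have h3 : L ^ (δ / 2 - δ) ≤ 1 :=
    Real.rpow_le_one_of_one_le_of_nonpos (by linarith) (by linarith)
  have h4 : (B.card : ℝ) ^ q * L ^ (δ / 2 - δ) ≤ (B.card : ℝ) ^ q := mul_le_of_le_one_right hβ0 h3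
  have hsplit := sum_Tup_split q B (fun b => QQ z x b ^ 2)
  have h5 : (B.card : ℝ) ^ q ≤ K * (B.card : ℝ) ^ q := le_mul_of_one_le_left hβ0 hK
  rw [hsplit]
  linarith

theorem moment_QQ1_K (q : ℕ) (hq : 1 ≤ q) {δ : ℝ} (hδ : 0 < δ) : ∃ A0 : ℕ, ∀ A : ℕ, A0 ≤ A →
    ∀ᶠ x : ℕ in atTop, ∀ B : Finset ℕ, (∀ b ∈ B, b ≤ x) → Real.log x ^ (1 + δ) ≤ B.card →
    ∀ K : ℝ, 1 ≤ K → ∑ b ∈ Inj q B, SI b ≤ K * (B.card : ℝ) ^ q →
      ∑ b ∈ Tup q B, QQ (zA A x) x b ≤ 3 * K * (B.card : ℝ) ^ q := by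
  obtain ⟨A0, hA0⟩ := QQ_close q 1 hq
  refine ⟨A0, fun A hA => ?_⟩
  filter_upwards [hA0 A hA, QQ_small q A (show (0 : ℝ) < 1 / 2 by norm_num),
    ev_rpow_ge ((q : ℝ) ^ 2) (show (0 : ℝ) < 1 / 2 by norm_num), ev_log_ge 1]
    with x hQS hQ hpw hL1
  intro B hB hBc K hK hS
  set L := Real.log (x : ℝ) with hL
  set z := zA A x with hz
  have hL0 : 0 < L := by linarith
  have hβ0 : (0 : ℝ) ≤ (B.card : ℝ) ^ q := by positivity
  have hbx : ∀ b ∈ Tup q B, ∀ i, b i ≤ x := fun b hb i => hB _ (mem_Tup.1 hb i)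
  have hLB : L ≤ B.card := by
    refine le_trans ?_ hBc
    calc L = L ^ (1 : ℝ) := (Real.rpow_one L).symm
      _ ≤ L ^ (1 + δ) := Real.rpow_le_rpow_of_exponent_le hL1 (by linarith)
  have hE : ∀ b ∈ Inj q B, QQ z x b ≤ SI b + 1 := by
    intro b hb
    rw [mem_Inj] at hb
    have h1 := hQS b hb.2 (hbx b hb.1)
    rw [pow_one] at h1
    have h2 : 1 / L ≤ 1 := (div_le_one hL0).2 hL1
    have h3 := le_abs_self (QQ z x b - SI b)
    linarith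
  have h1 : ∑ b ∈ Inj q B, QQ z x b ≤ K * (B.card : ℝ) ^ q + (B.card : ℝ) ^ q := by
    refine (Finset.sum_le_sum hE).trans ?_
    rw [Finset.sum_add_distrib, Finset.sum_const, nsmul_eq_mul, mul_one]
    have := card_Inj_le q B
    linarith
  have hc := card_not_inj (fun _ : Fin q => B) hL0 (fun _ => hLB)
  rw [Finset.prod_const, Finset.card_univ, Fintype.card_fin] at hc
  have h2 : ∑ b ∈ (Tup q B).filter (fun b => ¬ Function.Injective b), QQ z x b ≤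
      (B.card : ℝ) ^ q := by
    have h3 : ∑ b ∈ (Tup q B).filter (fun b => ¬ Function.Injective b), QQ z x b ≤
        (((Tup q B).filter (fun b => ¬ Function.Injective b)).card : ℝ) * L ^ (1 / 2 : ℝ) := by
      rw [← nsmul_eq_mul, ← Finset.sum_const]
      exact Finset.sum_le_sum fun b _ => hQ b
    refine h3.trans ?_
    have h4 : (((Tup q B).filter (fun b => ¬ Function.Injective b)).card : ℝ) ≤
        (q : ℝ) ^ 2 * (B.card : ℝ) ^ q / L := hc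
    have hs : L ^ (1 / 2 : ℝ) * L ^ (1 / 2 : ℝ) = L := by
      rw [← Real.rpow_add hL0]
      norm_num
    have hsp : 0 < L ^ (1 / 2 : ℝ) := Real.rpow_pos_of_pos hL0 _
    calc (((Tup q B).filter (fun b => ¬ Function.Injective b)).card : ℝ) * L ^ (1 / 2 : ℝ)
        ≤ (q : ℝ) ^ 2 * (B.card : ℝ) ^ q / L * L ^ (1 / 2 : ℝ) :=
          mul_le_mul_of_nonneg_right h4 hsp.le
      _ ≤ L ^ (1 / 2 : ℝ) * (B.card : ℝ) ^ q / L * L ^ (1 / 2 : ℝ) := by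
          gcongr
      _ = (B.card : ℝ) ^ q * (L ^ (1 / 2 : ℝ) * L ^ (1 / 2 : ℝ) / L) := by ring
      _ = (B.card : ℝ) ^ q := by rw [hs, div_self hL0.ne', mul_one]
  have hsplit := sum_Tup_split q B (fun b => QQ z x b)
  have h5 : (B.card : ℝ) ^ q ≤ K * (B.card : ℝ) ^ q := le_mul_of_one_le_left hβ0 hK
  rw [hsplit]
  linarith

end Pool.Agent.HLR
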