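import Mathlib

/-!
# Numerical lemmas for the stability theorem

PROOF SKETCH. `rpow_split`: `Real.rpow_add_le_add_rpow` (`0 <= p <= 1`), `(1 / L^a)^p = 1 / L^(a p)`.
`final_num`: with `ε^(1/r) <= η^(1/r) + 1 / L^(δ / (2 r))` (`rpow_split`) and
`sqrt (2 ε^(2/r) (1 + s Q)) <= sqrt (2 (1 + s c)) K'^(1/2) ε^(1/r)` for `Q = c K'`, `1 <= K'`; then `K' <= K` in the first term (`K'^(1/2) <= K'`)
and `K' <= L^θ` in the second: `K'^(1/2) / L^(δ/(2r)) <= L^(θ/2 - δ/(2r)) <= 1 / L^(δ/(4r))` for `θ <= δ/(2r)`.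
-/

set_option autoImplicit false

namespace Pool.Agent.HLR

theorem rpow_split {η L a p : ℝ} (hη : 0 ≤ η) (hL : 1 ≤ L) (hp0 : 0 ≤ p) (hp1 : p ≤ 1) :
    (η + 1 / L ^ a) ^ p ≤ η ^ p + 1 / L ^ (a * p) := by
  have hL0 : 0 < L := by linarith
  have h1 : 0 < L ^ a := Real.rpow_pos_of_pos hL0 _
  refine (Real.rpow_add_le_add_rpow hη (one_div_nonneg.mpr h1.le) hp0 hp1).trans ?_
  rw [Real.div_rpow zero_le_one h1.le, Real.one_rpow, ← Real.rpow_mul hL0.le]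

/-- `ε = η + 1 / L^(δ/2)`, `V = 2 ε^(2/r)`. -/
theorem final_num {η L δ θ c K K' s r : ℝ} (hη : 0 ≤ η) (hL : 1 ≤ L) (hδ : 0 < δ) (hr : 2 ≤ r)
    (hs : 0 ≤ s) (hc : 0 ≤ c) (hθ : 0 ≤ θ) (hθ' : θ ≤ δ / (2 * r)) (hK1 : 1 ≤ K') (hK : K' ≤ K)
    (hKL : K' ≤ L ^ θ) :
    s * Real.sqrt ((2 * (η + 1 / L ^ (δ / 2)) ^ (2 / r)) * (1 + s * (c * K'))) ≤
      s * Real.sqrt (2 * (1 + s * c)) * (K * η ^ (1 / r) + 1 / L ^ (δ / (4 * r))) := by
  have hL0 : 0 < L := by linarith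
  have hr0 : 0 < r := by linarith
  have hK0 : 0 ≤ K' := by linarith
  have hsc : 0 ≤ s * c := mul_nonneg hs hc
  have hp2 : 0 < L ^ (δ / 2) := Real.rpow_pos_of_pos hL0 _
  obtain ⟨ε, hε⟩ : ∃ ε : ℝ, ε = η + 1 / L ^ (δ / 2) := ⟨_, rfl⟩
  have hε0 : 0 ≤ ε := by
    rw [hε]
    exact add_nonneg hη (one_div_nonneg.mpr hp2.le)
  have e1 : ε ^ (2 / r) = (ε ^ (1 / r)) ^ 2 := by
    rw [← Real.rpow_natCast, ← Real.rpow_mul hε0]
    congr 1
    push_cast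
    ring
  have e2 : ε ^ (1 / r) ≤ η ^ (1 / r) + 1 / L ^ (δ / (2 * r)) := by
    have h := rpow_split (a := δ / 2) (p := 1 / r) hη hL (by positivity)
      (by rw [div_le_one hr0]; linarith)
    have e : δ / 2 * (1 / r) = δ / (2 * r) := by
      field_simp
    rw [e, ← hε] at h
    exact h
  have hη1 : 0 ≤ η ^ (1 / r) := Real.rpow_nonneg hη _
  have hε1 : 0 ≤ ε ^ (1 / r) := Real.rpow_nonneg hε0 _
  have hsq : 0 ≤ Real.sqrt K' := Real.sqrt_nonneg _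
  rw [← hε, e1, mul_assoc s]
  apply mul_le_mul_of_nonneg_left _ hs
  have h1 : 2 * (ε ^ (1 / r)) ^ 2 * (1 + s * (c * K')) ≤
      2 * (1 + s * c) * (K' * (ε ^ (1 / r)) ^ 2) := by
    have h : 1 + s * (c * K') ≤ (1 + s * c) * K' := by nlinarith
    have h2 := mul_le_mul_of_nonneg_left h (mul_nonneg zero_le_two (sq_nonneg (ε ^ (1 / r))))
    calc _ ≤ _ := h2
      _ = _ := by ring
  refine (Real.sqrt_le_sqrt h1).trans ?_
  rw [Real.sqrt_mul (by positivity)]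
  apply mul_le_mul_of_nonneg_left _ (Real.sqrt_nonneg _)
  rw [Real.sqrt_mul hK0, Real.sqrt_sq hε1]
  have h2 : Real.sqrt K' * ε ^ (1 / r) ≤
      Real.sqrt K' * η ^ (1 / r) + Real.sqrt K' * (1 / L ^ (δ / (2 * r))) := by
    rw [← mul_add]
    exact mul_le_mul_of_nonneg_left e2 hsq
  have h3 : Real.sqrt K' ≤ K := by
    refine le_trans ?_ hK
    rw [Real.sqrt_le_left hK0]
    nlinarith
  have h4 : Real.sqrt K' ≤ L ^ (θ / 2) := by
    have h : Real.sqrt K' ≤ Real.sqrt (L ^ θ) := Real.sqrt_le_sqrt hKL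
    rwa [Real.sqrt_eq_rpow, Real.sqrt_eq_rpow, ← Real.rpow_mul hL0.le, ← Real.sqrt_eq_rpow,
      mul_one_div] at h
  have h5 : Real.sqrt K' * (1 / L ^ (δ / (2 * r))) ≤ 1 / L ^ (δ / (4 * r)) := by
    have a1 : 0 < L ^ (δ / (2 * r)) := Real.rpow_pos_of_pos hL0 _
    have a2 : 0 < L ^ (δ / (4 * r)) := Real.rpow_pos_of_pos hL0 _
    rw [mul_one_div, div_le_div_iff₀ a1 a2, one_mul]
    have a3 : L ^ (θ / 2) ≤ L ^ (δ / (4 * r)) := by
      apply Real.rpow_le_rpow_of_exponent_le hL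
      have : δ / (4 * r) = δ / (2 * r) / 2 := by
        field_simp
        norm_num
      rw [this]
      linarith
    have a4 : L ^ (δ / (2 * r)) = L ^ (δ / (4 * r)) * L ^ (δ / (4 * r)) := by
      rw [← Real.rpow_add hL0]
      congr 1
      field_simp
      norm_num
    rw [a4]
    exact mul_le_mul_of_nonneg_right (h4.trans a3) a2.le
  have h6 : Real.sqrt K' * η ^ (1 / r) ≤ K * η ^ (1 / r) := mul_le_mul_of_nonneg_right h3 hη1
  linarith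

end Pool.Agent.HLR
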