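import Pool.Agent.Lib.HLS.MomPP
import Pool.Agent.Lib.HLS.MomQQ
import Pool.Agent.Lib.HLS.ConcEta
import Pool.Agent.Lib.HLS.Num

/-!
# Stability: first moments

PROOF SKETCH. `r = k + 2`, `δ0 = min δ (1/4)`, `β = |B|`, `L = log x`. Let `θ = δ0 / (2 r)`, `K' = min K (L^θ)`; `K' >= 1` and
`∑_{Inj (2s) B} SI <= K' β^(2s)`: from the hypothesis and from `SI_small (2s)` with exponent `θ`. `conc_N1_eta k` (with `δ0`) gives
`∑_n (N - M)^2 <= |Ω| β^2 V`, `Ω = Icc 1 x`, `V = 2 (η + 1/L^(δ0/2))^(2/r)`, `N = S1 lp B`, `M = S1 (nuz z) B`.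
`∑_n (N + M)^(2s) <= |Ω| β^(2s) Q`, `Q = 2^(2s) (C + 3) K'` (`two_pow_sum` in StepTwo.lean, `moment1_pow`, `moment_PP1_K (2s)`,
`moment_QQ1_K (2s)`); `tele` with `B i = B` for all `i` gives `|∑_n (N^s - M^s)| <= |Ω| β^s s sqrt (V (1 + s Q))`, and
`∑_n (N^s - M^s) = x ∑_{Tup s B} (PP - QQ)` (`moment1_pow`); see `avg_of_conc1` (OneAvg.lean) for the same computation.
From `Tup s B` to `Inj s B` and from `PP, QQ` to `pin, SI` as at the end of `rigid1` (OneRigid.lean): the non-injective tuples contribute at most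
`noninj_PP1` (`β^s L^(-δ0/2)`) and `s^2 β^s L^(1/2) / L` (`QQ_small`, `card_not_inj`); `|PP - pin| <= 1 / L^(1/2)`, `|QQ - SI| <= 1 / L`.
Finish with `final_num` (`c = 2^(2s) (C + 3)`): `C_final = s sqrt (2 (1 + s c))`, `δ' = δ0 / (8 r)`.
-/

set_option autoImplicit false

open Finset Filter

namespace Pool.Agent.HLR

open Pool.Agent.HLB Pool.Agent.HLT UpperAux

lemma abs_sub_le_of {P Q a b : ℝ} (hP : 0 ≤ P) (hQ : 0 ≤ Q) (h1 : P ≤ a) (h2 : Q ≤ b) :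
    |P - Q| ≤ a + b := by
  rw [abs_le]
  constructor <;> linarith

lemma abs_le_of_split {A B T J u v w : ℝ} (h : T = B + J) (h1 : |A - B| ≤ u) (h2 : |T| ≤ v)
    (h3 : |J| ≤ w) : |A| ≤ u + v + w := by
  have e : A = (A - B) + (T - J) := by rw [h]; ring
  rw [e]
  refine (abs_add_le _ _).trans ?_
  have := abs_sub T J
  linarith

theorem stable1 (r s : ℕ) (hr : 2 ≤ r) (hs : 1 ≤ s) {δ : ℝ} (hδ : 0 < δ) : ∃ C δ' : ℝ, 0 < C ∧ 0 < δ' ∧
    ∀ᶠ x : ℕ in atTop, ∀ B : Finset ℕ, (∀ b ∈ B, b ≤ x) → Real.log x ^ (1 + δ) ≤ B.card →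
    ∀ K η : ℝ, 1 ≤ K → 0 ≤ η →
      ∑ b ∈ Inj (2 * s) B, SI b ≤ K * (B.card : ℝ) ^ (2 * s) →
      ∑ b ∈ Inj r B, pin x b ≤ ∑ b ∈ Inj r B, SI b + η * (B.card : ℝ) ^ r →
      |∑ b ∈ Inj s B, (pin x b - SI b)| ≤
        (C * K * η ^ (1 / (r : ℝ)) + 1 / Real.log x ^ δ') * (B.card : ℝ) ^ s := by
  obtain ⟨k, rfl⟩ : ∃ k, r = k + 2 := ⟨r - 2, by omega⟩
  obtain ⟨δ0, hδ0⟩ : ∃ δ0 : ℝ, δ0 = min δ (1 / 4) := ⟨_, rfl⟩
  have h0 : 0 < δ0 := by
    rw [hδ0]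
    exact lt_min hδ (by norm_num)
  have h0' : δ0 ≤ 1 / 4 := by
    rw [hδ0]
    exact min_le_right _ _
  have h0'' : δ0 ≤ δ := by
    rw [hδ0]
    exact min_le_left _ _
  obtain ⟨ρ, hρ⟩ : ∃ ρ : ℝ, ρ = ((k + 2 : ℕ) : ℝ) := ⟨_, rfl⟩
  have hρ2 : 2 ≤ ρ := by
    rw [hρ]
    push_cast
    have : (0 : ℝ) ≤ k := Nat.cast_nonneg k
    linarith
  have hρk : (k : ℝ) + 2 = ρ := by
    rw [hρ]
    push_cast
    ring
  obtain ⟨θ, hθ⟩ : ∃ θ : ℝ, θ = δ0 / (2 * ρ) := ⟨_, rfl⟩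
  have hθ0 : 0 < θ := by rw [hθ]; positivity
  have hs2 : 1 ≤ 2 * s := by omega
  obtain ⟨C1, hC1, hPPev⟩ := moment_PP1_K (2 * s) hs2 h0
  obtain ⟨A1, hA1⟩ := moment_QQ1_K (2 * s) hs2 h0
  obtain ⟨A2, hA2⟩ := conc_N1_eta k h0 h0'
  obtain ⟨A3, hA3⟩ := QQ_close s 1 hs
  obtain ⟨A, hA⟩ : ∃ A : ℕ, A = A1 + A2 + A3 := ⟨_, rfl⟩
  obtain ⟨c, hc⟩ : ∃ c : ℝ, c = 2 ^ (2 * s) * (C1 + 3) := ⟨_, rfl⟩
  have hc0 : 0 ≤ c := by
    rw [hc]
    have : (0 : ℝ) ≤ C1 + 3 := by linarith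
    positivity
  obtain ⟨D, hD⟩ : ∃ D : ℝ, D = s * Real.sqrt (2 * (1 + s * c)) := ⟨_, rfl⟩
  have hs0 : (0 : ℝ) < s := by
    have : 0 < s := by omega
    exact_mod_cast this
  have hD0 : 0 < D := by
    rw [hD]
    have : 0 < 2 * (1 + (s : ℝ) * c) := by positivity
    exact mul_pos hs0 (Real.sqrt_pos.2 this)
  have h8 : 0 < δ0 / (8 * ρ) := by positivity
  refine ⟨D, δ0 / (8 * ρ), hD0, h8, ?_⟩
  have h02 : 0 < δ0 / 2 := by positivity
  filter_upwards [hPPev, hA1 A (by omega), hA2 A (by omega), hA3 A (by omega),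
    SI_small (2 * s) hs2 hθ0, noninj_PP1 s h0 h02,
    QQ_small s A (show (0 : ℝ) < 1 / 2 by norm_num), pin_close s, ev_log_ge 1,
    ev_rpow_ge (D + 3 + (s : ℝ) ^ 2) h8, eventually_ge_atTop 1]
    with x hPP hQQ hconc hQ hSI hnon hQs hp hL1 hL2 hx1
  intro B hB hcard K η hK hη hmom hdef
  have hpow : ∀ {a b : ℝ}, a ≤ b → Real.log x ^ a ≤ Real.log x ^ b := fun h =>
    Real.rpow_le_rpow_of_exponent_le hL1 h
  have hcard0 : Real.log x ^ (1 + δ0) ≤ B.card := (hpow (by linarith)).trans hcard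
  have hcard1 : Real.log x ≤ (B.card : ℝ) := by
    refine le_trans ?_ hcard
    calc Real.log x = Real.log x ^ (1 : ℝ) := (Real.rpow_one _).symm
      _ ≤ _ := hpow (by linarith)
  obtain ⟨K', hK'⟩ : ∃ K' : ℝ, K' = min K (Real.log x ^ θ) := ⟨_, rfl⟩
  have hK'1 : 1 ≤ K' := by
    rw [hK']
    exact le_min hK (Real.one_le_rpow hL1 hθ0.le)
  have hK'K : K' ≤ K := by
    rw [hK']
    exact min_le_left _ _
  have hK'L : K' ≤ Real.log x ^ θ := by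
    rw [hK']
    exact min_le_right _ _
  have hmom' : ∑ b ∈ Inj (2 * s) B, SI b ≤ K' * (B.card : ℝ) ^ (2 * s) := by
    rcases min_choice K (Real.log x ^ θ) with h | h
    · rw [hK', h]
      exact hmom
    · rw [hK', h]
      have h1 : ∀ b ∈ Inj (2 * s) B, SI b ≤ Real.log x ^ θ := by
        intro b hb
        rw [mem_Inj, mem_Tup] at hb
        exact hSI b hb.2 (fun i => hB _ (hb.1 i))
      refine (Finset.sum_le_sum h1).trans ?_
      rw [Finset.sum_const, nsmul_eq_mul, mul_comm]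
      exact mul_le_mul_of_nonneg_left (card_Inj_le _ _) (by positivity)
  have hP1 := hPP B hB hcard0 K' hK'1 hmom'
  have hQ1 := hQQ B hB hcard0 K' hK'1 hmom'
  have hV := hconc B hB hcard0 η hη hdef
  rw [hρk] at hV
  set L : ℝ := Real.log x with hL
  have hL0 : 0 < L := by linarith
  set z : ℕ := zA A x with hz
  have hx0 : (0 : ℝ) < x := by exact_mod_cast hx1
  have hOm : ((Icc 1 x).card : ℝ) = (x : ℝ) := by
    rw [Nat.card_Icc, Nat.add_sub_cancel]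
  obtain ⟨β, hβ⟩ : ∃ β : ℝ, β = (B.card : ℝ) := ⟨_, rfl⟩
  rw [← hβ] at hP1 hQ1 hV hcard1
  have hβ0 : 0 < β := lt_of_lt_of_le hL0 hcard1
  have hNn : ∀ n : ℕ, 0 ≤ S1 lp B n := fun n => S1_nonneg lp lp_nonneg _ _
  have hMn : ∀ n : ℕ, 0 ≤ S1 (nuz z) B n := fun n => S1_nonneg (nuz z) (nuz_nonneg z) _ _
  have hmN : ∑ n ∈ Icc 1 x, S1 lp B n ^ (2 * s) ≤ (x : ℝ) * (C1 * K' * β ^ (2 * s)) := by
    rw [moment1_pow (2 * s) x hx1 B lp]
    exact mul_le_mul_of_nonneg_left hP1 hx0.le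
  have hmM : ∑ n ∈ Icc 1 x, S1 (nuz z) B n ^ (2 * s) ≤ (x : ℝ) * (3 * K' * β ^ (2 * s)) := by
    rw [moment1_pow (2 * s) x hx1 B (nuz z)]
    exact mul_le_mul_of_nonneg_left hQ1 hx0.le
  have hQ0 : 0 ≤ c * K' := mul_nonneg hc0 (by linarith)
  have hQN : ∑ n ∈ Icc 1 x, (S1 lp B n + S1 (nuz z) B n) ^ (2 * s) ≤
      (Icc 1 x).card * (β ^ (2 * s) * (c * K')) := by
    have h := two_pow_sum (Icc 1 x) (2 * s) _ _ (fun w _ => hNn w) (fun w _ => hMn w) hmN hmM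
    refine h.trans (le_of_eq ?_)
    rw [hOm, hc]
    ring
  obtain ⟨ε, hε⟩ : ∃ ε : ℝ, ε = η + 1 / L ^ (δ0 / 2) := ⟨_, rfl⟩
  have hε0 : 0 ≤ ε := by rw [hε]; positivity
  rw [← hε] at hV
  have hV0 : 0 ≤ 2 * ε ^ (2 / ρ) := by positivity
  have hconc' : ∑ n ∈ Icc 1 x, (S1 lp B n - S1 (nuz z) B n) ^ 2 ≤
      (Icc 1 x).card * (β ^ 2 * (2 * ε ^ (2 / ρ))) := by
    refine hV.trans (le_of_eq ?_)
    ring
  have t1 := tele (Icc 1 x) s (fun _ n => S1 lp B n)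
    (fun _ n => S1 (nuz z) B n) (fun _ => β) (2 * ε ^ (2 / ρ)) (c * K')
    (fun _ w _ => hNn w) (fun _ w _ => hMn w) (fun _ => hβ0) hV0 hQ0 (fun _ => hconc')
    (fun _ => hQN)
  have m1 := moment1 s x hx1 (fun _ => B) (fun _ => lp)
  have m3 := moment1 s x hx1 (fun _ => B) (fun _ => nuz z)
  have hid : ∑ n ∈ Icc 1 x, (∏ _i : Fin s, S1 lp B n - ∏ _i : Fin s, S1 (nuz z) B n) =
      (x : ℝ) * ∑ b ∈ Tup s B, (PP x b - QQ z x b) := by
    rw [Finset.sum_sub_distrib, m1, m3, ← mul_sub, ← Finset.sum_sub_distrib]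
    rfl
  rw [hid, abs_mul, abs_of_pos hx0, hOm, mul_assoc] at t1
  have t2 := le_of_mul_le_mul_left t1 hx0
  rw [Finset.prod_const, Finset.card_univ, Fintype.card_fin] at t2
  have hfin := final_num (η := η) (L := L) (δ := δ0) (θ := θ) (c := c) (K := K) (K' := K')
    (s := (s : ℝ)) (r := ρ) hη hL1 h0 hρ2 hs0.le hc0 hθ0.le hθ.le hK'1 hK'K hK'L
  rw [← hε, ← hD] at hfin
  obtain ⟨t, ht⟩ : ∃ t : ℝ, t = 1 / L ^ (δ0 / (4 * ρ)) := ⟨_, rfl⟩
  have ht0 : 0 < t := by rw [ht]; positivity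
  rw [← ht] at hfin
  have hβs : 0 ≤ β ^ s := by positivity
  obtain ⟨m, hm⟩ : ∃ m : ℝ, m = K * η ^ (1 / ρ) := ⟨_, rfl⟩
  have hm0 : 0 ≤ m := by
    rw [hm]
    have := Real.rpow_nonneg hη (1 / ρ)
    have hK0 : 0 ≤ K := by linarith
    positivity
  rw [← hm] at hfin
  have hmain : |∑ b ∈ Tup s B, (PP x b - QQ z x b)| ≤ β ^ s * (D * (m + t)) :=
    t2.trans (mul_le_mul_of_nonneg_left hfin hβs)
  -- comparison of the exponents
  have hδ4 : δ0 / (4 * ρ) ≤ δ0 / 2 := by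
    apply div_le_div_of_nonneg_left h0.le (by norm_num)
    linarith
  have hle : ∀ a : ℝ, δ0 / (4 * ρ) ≤ a → 1 / L ^ a ≤ t := by
    intro a ha
    rw [ht]
    exact one_div_le_one_div_of_le (by positivity) (hpow ha)
  obtain ⟨J, hJ⟩ : ∃ J : Finset (Fin s → ℕ),
    J = (Tup s B).filter (fun b => ¬ Function.Injective b) := ⟨_, rfl⟩
  have hnon' := hnon B hB hcard0
  rw [← hJ, ← hβ] at hnon'
  have hsplit : ∑ b ∈ Tup s B, (PP x b - QQ z x b) =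
      ∑ b ∈ Inj s B, (PP x b - QQ z x b) + ∑ b ∈ J, (PP x b - QQ z x b) := by
    rw [hJ]
    exact sum_Tup_split s B _
  have hJ1 : |∑ b ∈ J, (PP x b - QQ z x b)| ≤ β ^ s * t + (s : ℝ) ^ 2 * (β ^ s * t) := by
    have a1 : ∑ b ∈ J, PP x b ≤ β ^ s * t := by
      refine hnon'.trans (mul_le_mul_of_nonneg_left ?_ hβs)
      have h1 := hle (δ0 / 2) hδ4
      rw [one_div, ← Real.rpow_neg hL0.le] at h1
      refine le_trans (le_of_eq ?_) h1
      congr 1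
      ring
    have a2 : ∑ b ∈ J, QQ z x b ≤ (s : ℝ) ^ 2 * (β ^ s * t) := by
      have a3 := card_not_inj (fun _ : Fin s => B) hL0 (fun _ => by rw [← hβ]; exact hcard1)
      rw [Finset.prod_const, Finset.card_univ, Fintype.card_fin, ← hβ] at a3
      have a3' : (J.card : ℝ) ≤ (s : ℝ) ^ 2 * β ^ s / L := by
        rw [hJ]
        exact a3
      have a4 : ∑ b ∈ J, QQ z x b ≤ J.card * L ^ (1 / 2 : ℝ) := by
        refine (Finset.sum_le_sum fun b _ => hQs b).trans ?_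
        rw [Finset.sum_const, nsmul_eq_mul]
      refine a4.trans ((mul_le_mul_of_nonneg_right a3' (by positivity)).trans ?_)
      have a5 : L ^ (1 / 2 : ℝ) / L ≤ t := by
        have a6 : L ^ (1 / 2 : ℝ) / L = 1 / L ^ (1 / 2 : ℝ) := by
          rw [div_eq_div_iff hL0.ne' (by positivity), ← Real.rpow_add hL0]
          norm_num
        rw [a6]
        exact hle _ (by linarith)
      calc (s : ℝ) ^ 2 * β ^ s / L * L ^ (1 / 2 : ℝ) =
          (s : ℝ) ^ 2 * (β ^ s * (L ^ (1 / 2 : ℝ) / L)) := by ring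
        _ ≤ (s : ℝ) ^ 2 * (β ^ s * t) := by
            refine mul_le_mul_of_nonneg_left (mul_le_mul_of_nonneg_left a5 hβs) (sq_nonneg _)
    have b1 : 0 ≤ ∑ b ∈ J, PP x b := Finset.sum_nonneg fun b _ => PP_nonneg x b
    have b2 : 0 ≤ ∑ b ∈ J, QQ z x b := Finset.sum_nonneg fun b _ => QQ_nonneg z x b
    rw [Finset.sum_sub_distrib]
    exact abs_sub_le_of b1 b2 a1 a2
  have hI1 : |∑ b ∈ Inj s B, (pin x b - SI b) - ∑ b ∈ Inj s B, (PP x b - QQ z x b)| ≤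
      β ^ s * (t + t) := by
    rw [← Finset.sum_sub_distrib]
    refine (Finset.abs_sum_le_sum_abs _ _).trans ?_
    have c1 : ∀ b ∈ Inj s B, |pin x b - SI b - (PP x b - QQ z x b)| ≤ t + t := by
      intro b hb
      rw [mem_Inj, mem_Tup] at hb
      have hi := hb.2
      have hx : ∀ i, b i ≤ x := fun i => hB _ (hb.1 i)
      have d1 := (hp b hi hx).trans (hle (1 / 2) (by linarith))
      have d2 := hQ b hi hx
      have d3 : 1 / L ^ 1 ≤ t := by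
        have := hle 1 (by linarith)
        rwa [Real.rpow_one, ← pow_one L] at this
      have d4 := d2.trans d3
      have e : pin x b - SI b - (PP x b - QQ z x b) =
          -(PP x b - pin x b) + (QQ z x b - SI b) := by ring
      rw [e]
      refine (abs_add_le _ _).trans ?_
      rw [abs_neg]
      linarith
    refine (Finset.sum_le_sum c1).trans ?_
    rw [Finset.sum_const, nsmul_eq_mul]
    have h3 := card_Inj_le s B
    rw [← hβ] at h3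
    exact mul_le_mul_of_nonneg_right h3 (by linarith)
  have htot : |∑ b ∈ Inj s B, (pin x b - SI b)| ≤
      β ^ s * (D * m) + (D + 3 + (s : ℝ) ^ 2) * (β ^ s * t) := by
    refine (abs_le_of_split hsplit hI1 hmain hJ1).trans (le_of_eq ?_)
    ring
  have e4 : t = 1 / L ^ (δ0 / (8 * ρ)) * (1 / L ^ (δ0 / (8 * ρ))) := by
    rw [ht, one_div, one_div, ← Real.rpow_neg hL0.le, ← Real.rpow_neg hL0.le,
      ← Real.rpow_add hL0]
    congr 1
    field_simp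
    ring
  have e5 : L ^ (δ0 / (8 * ρ)) * (1 / L ^ (δ0 / (8 * ρ))) = 1 := by
    have : L ^ (δ0 / (8 * ρ)) ≠ 0 := by positivity
    field_simp
  have e6 : (D + 3 + (s : ℝ) ^ 2) * (β ^ s * t) ≤ β ^ s * (1 / L ^ (δ0 / (8 * ρ))) := by
    calc (D + 3 + (s : ℝ) ^ 2) * (β ^ s * t) ≤ L ^ (δ0 / (8 * ρ)) * (β ^ s * t) :=
          mul_le_mul_of_nonneg_right hL2 (mul_nonneg hβs ht0.le)
      _ = β ^ s * (L ^ (δ0 / (8 * ρ)) * (1 / L ^ (δ0 / (8 * ρ)))) *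
          (1 / L ^ (δ0 / (8 * ρ))) := by
          rw [e4]
          ring
      _ = β ^ s * (1 / L ^ (δ0 / (8 * ρ))) := by
          rw [e5]
          ring
  rw [← hρ, ← hβ]
  calc |∑ b ∈ Inj s B, (pin x b - SI b)| ≤
      β ^ s * (D * m) + (D + 3 + (s : ℝ) ^ 2) * (β ^ s * t) := htot
    _ ≤ β ^ s * (D * m) + β ^ s * (1 / L ^ (δ0 / (8 * ρ))) := by linarith
    _ = (D * K * η ^ (1 / ρ) + 1 / L ^ (δ0 / (8 * ρ))) * β ^ s := by
        rw [hm]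
        ring

end Pool.Agent.HLR
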