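import Pool.Agent.Lib.HLR.Close
import Pool.Agent.Lib.HLR.Convex
import Pool.Agent.Lib.HLR.Upper

/-!
# The mixed moment from below

PROOF SKETCH. `s = k + 1`. With `K = SS lp (nuz z) B`, `M = SS (nuz z) (nuz z) B` (functions of `w ∈ Om x`), `convex_nonneg k`:
`K^(k+1) >= (k+1) K M^k - k M^(k+1)`. By `moment_pow` / `moment_mixed` (as in `moment_comb`, Defect.lean): `∑_w K^(k+1) = x^2 ∑ PP QQ`,
`∑_w K M^k = x^2 ∑_{Tup (k+1) B} RR QQ` (here `f₀ = lp`, `g₀ = nuz z`, `f = g = nuz z`; `Av x (Fin.cons (nuz z) (fun _ => nuz z)) = QQ`, see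
`hcons` in `conc_K`, StepOne.lean), `∑_w M^(k+1) = x^2 ∑ QQ^2`. Hence `∑ PP QQ >= ∑ QQ^2 - (k+1) ∑ |RR - QQ| QQ` and `|RR - QQ| <= 1 / L^2`
(`RR_close k A 2`), `QQ <= L^(1/2)` (`QQ_small`), `(k + 1) L^(1/2) <= L`. (`card_Tup`; divide by `x^2`.)
-/

set_option autoImplicit false

open Finset Filter

namespace Pool.Agent.HLR

open Pool.Agent.HLB Pool.Agent.HLT UpperAux

theorem PQ_lower (s A : ℕ) (hs : 1 ≤ s) : ∀ᶠ x : ℕ in atTop, ∀ B : Finset ℕ, (∀ b ∈ B, b ≤ x) →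
    ∑ b ∈ Tup s B, QQ (zA A x) x b ^ 2 - (B.card : ℝ) ^ s / Real.log x ≤
      ∑ b ∈ Tup s B, PP x b * QQ (zA A x) x b := by
  obtain ⟨k, rfl⟩ : ∃ k, s = k + 1 := ⟨s - 1, by omega⟩
  have hlim : Tendsto (fun n : ℕ => Real.log (n : ℝ)) atTop atTop :=
    Real.tendsto_log_atTop.comp tendsto_natCast_atTop_atTop
  have hpow : ∀ᶠ x : ℕ in atTop, ((k : ℝ) + 1) ≤ Real.log x ^ (1 / 2 : ℝ) :=
    (tendsto_rpow_atTop (by norm_num : (0 : ℝ) < 1 / 2)).comp hlim |>.eventually_ge_atTop _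
  filter_upwards [RR_close k A 2, QQ_small (k + 1) A (by norm_num : (0 : ℝ) < 1 / 2), hpow,
    hlim.eventually_ge_atTop 1, eventually_gt_atTop 0] with x hRQ hQ hpw hL1 hx0
  intro B hB
  set L := Real.log (x : ℝ) with hL
  set z := zA A x with hz
  have hL0 : 0 < L := by linarith
  have hbx : ∀ b ∈ Tup (k + 1) B, ∀ i, b i ≤ x := fun b hb i => hB _ (mem_Tup.1 hb i)
  have hcons : (Fin.cons (nuz z) (fun _ : Fin k => nuz z) : Fin (k + 1) → ℕ → ℝ) =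
      fun _ => nuz z := by
    funext i
    refine Fin.cases ?_ ?_ i
    · rfl
    · intro j
      rfl
  have m1 : ∑ w ∈ Om x, SS HLT.lp (nuz z) B w ^ (k + 1) =
      (x : ℝ) ^ 2 * ∑ b ∈ Tup (k + 1) B, PP x b * QQ z x b :=
    moment_pow (k + 1) x hx0 B HLT.lp (nuz z)
  have m2 : ∑ w ∈ Om x, SS HLT.lp (nuz z) B w * SS (nuz z) (nuz z) B w ^ k =
      (x : ℝ) ^ 2 * ∑ b ∈ Tup (k + 1) B, RR z x b * QQ z x b := by
    have h := moment_mixed k x hx0 B HLT.lp (nuz z) (nuz z) (nuz z)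
    rw [hcons] at h
    exact h
  have m3 : ∑ w ∈ Om x, SS (nuz z) (nuz z) B w ^ (k + 1) =
      (x : ℝ) ^ 2 * ∑ b ∈ Tup (k + 1) B, QQ z x b ^ 2 := by
    rw [moment_pow (k + 1) x hx0 B (nuz z) (nuz z)]
    congr 1
    refine Finset.sum_congr rfl fun b _ => ?_
    rw [sq]
    rfl
  have h0 : 0 ≤ ∑ w ∈ Om x, (SS HLT.lp (nuz z) B w ^ (k + 1) - (k + 1) * (SS HLT.lp (nuz z) B w *
      SS (nuz z) (nuz z) B w ^ k) + k * SS (nuz z) (nuz z) B w ^ (k + 1)) :=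
    Finset.sum_nonneg fun w _ => convex_nonneg k _ _
      (SS_nonneg _ _ (fun n => lp_nonneg n) (fun n => nuz_nonneg _ n) B w)
      (SS_nonneg _ _ (fun n => nuz_nonneg _ n) (fun n => nuz_nonneg _ n) B w)
  rw [Finset.sum_add_distrib, Finset.sum_sub_distrib, ← Finset.mul_sum, ← Finset.mul_sum,
    m1, m2, m3] at h0
  have hx2 : (0 : ℝ) < (x : ℝ) ^ 2 := by
    have : (0 : ℝ) < x := by exact_mod_cast hx0
    positivity
  have h0' : 0 ≤ (x : ℝ) ^ 2 * (∑ b ∈ Tup (k + 1) B, PP x b * QQ z x b -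
      (k + 1) * ∑ b ∈ Tup (k + 1) B, RR z x b * QQ z x b +
      k * ∑ b ∈ Tup (k + 1) B, QQ z x b ^ 2) := by
    refine h0.trans (le_of_eq ?_)
    ring
  have h1 := nonneg_of_mul_nonneg_right h0' hx2
  have hs : L ^ (1 / 2 : ℝ) * L ^ (1 / 2 : ℝ) = L := by
    rw [← Real.rpow_add hL0]
    norm_num
  have hLh : 0 < L ^ (1 / 2 : ℝ) := Real.rpow_pos_of_pos hL0 _
  have hk1 : ((k : ℝ) + 1) * L ^ (1 / 2 : ℝ) ≤ L := by
    calc ((k : ℝ) + 1) * L ^ (1 / 2 : ℝ) ≤ L ^ (1 / 2 : ℝ) * L ^ (1 / 2 : ℝ) :=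
          mul_le_mul_of_nonneg_right hpw hLh.le
      _ = L := hs
  have h2 : ∀ b ∈ Tup (k + 1) B, ((k : ℝ) + 1) * (QQ z x b ^ 2 - RR z x b * QQ z x b) ≤ 1 / L := by
    intro b hb
    have h3 := (abs_le.1 (hRQ b (hbx b hb))).1
    have h4 : 0 ≤ QQ z x b := QQ_nonneg z x b
    have h5 : QQ z x b ≤ L ^ (1 / 2 : ℝ) := hQ b
    have h6 : QQ z x b ^ 2 - RR z x b * QQ z x b ≤ 1 / L ^ 2 * L ^ (1 / 2 : ℝ) := by
      calc QQ z x b ^ 2 - RR z x b * QQ z x b = (QQ z x b - RR z x b) * QQ z x b := by ring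
        _ ≤ 1 / L ^ 2 * QQ z x b := mul_le_mul_of_nonneg_right (by linarith) h4
        _ ≤ 1 / L ^ 2 * L ^ (1 / 2 : ℝ) := mul_le_mul_of_nonneg_left h5 (by positivity)
    calc ((k : ℝ) + 1) * (QQ z x b ^ 2 - RR z x b * QQ z x b) ≤
          ((k : ℝ) + 1) * (1 / L ^ 2 * L ^ (1 / 2 : ℝ)) :=
          mul_le_mul_of_nonneg_left h6 (by positivity)
      _ = 1 / L ^ 2 * (((k : ℝ) + 1) * L ^ (1 / 2 : ℝ)) := by ring
      _ ≤ 1 / L ^ 2 * L := mul_le_mul_of_nonneg_left hk1 (by positivity)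
      _ = 1 / L := by field_simp
  have h7 := Finset.sum_le_sum h2
  rw [← Finset.mul_sum, Finset.sum_sub_distrib, Finset.sum_const, nsmul_eq_mul, card_Tup] at h7
  push_cast at h7
  have h8 : (B.card : ℝ) ^ (k + 1) * (1 / L) = (B.card : ℝ) ^ (k + 1) / L := by ring
  rw [h8] at h7
  linarith

end Pool.Agent.HLR
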