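import Pool.Agent.Lib.HLR.Defect
import Pool.Agent.Lib.HLR.OneDefs
import Pool.Agent.Lib.HLS.PPSI

/-!
# Moments of the number of prime translates in terms of moments of the singular series

PROOF SKETCH. Split `Tup q B` with `sum_Tup_split` (Defect.lean). Injective tuples: `PP <= C SI + 1/L` (`PP_le_SI`), so
`PP^2 <= 2 C^2 SI^2 + 2`, sum `<= 2 C^2 K β^q + 2 β^q` (`card_Inj_le`), `K >= 1`. Non-injective tuples: `noninj_PP q hδ` with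
`η = δ / 2` (resp. `noninj_PP1`) gives `<= β^q L^(-δ/2) <= β^q`. Constant `2 C^2 + 3`, resp. `C + 2`.
-/

set_option autoImplicit false

open Finset Filter

namespace Pool.Agent.HLR

open Pool.Agent.HLB Pool.Agent.HLT UpperAux

theorem moment_PP_K (q : ℕ) (hq : 1 ≤ q) {δ : ℝ} (hδ : 0 < δ) : ∃ C : ℝ, 1 ≤ C ∧
    ∀ᶠ x : ℕ in atTop, ∀ B : Finset ℕ, (∀ b ∈ B, b ≤ x) → Real.log x ^ (2 + δ) ≤ B.card →
    ∀ K : ℝ, 1 ≤ K → ∑ b ∈ Inj q B, SI b ^ 2 ≤ K * (B.card : ℝ) ^ q →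
      ∑ b ∈ Tup q B, PP x b ^ 2 ≤ C * K * (B.card : ℝ) ^ q := by
  obtain ⟨C, hC1, hC⟩ := PP_le_SI q hq
  refine ⟨2 * C ^ 2 + 3, by nlinarith, ?_⟩
  filter_upwards [hC, noninj_PP q hδ (half_pos hδ), ev_log_ge 1] with x hx hnon hL1
  intro B hB hBc K hK hS
  have hL0 : 0 < Real.log x := by linarith
  have hβ0 : (0 : ℝ) ≤ (B.card : ℝ) ^ q := by positivity
  have hbx : ∀ b ∈ Tup q B, ∀ i, b i ≤ x := fun b hb i => hB _ (mem_Tup.1 hb i)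
  have h1 : ∀ b ∈ Inj q B, PP x b ^ 2 ≤ 2 * C ^ 2 * SI b ^ 2 + 2 := by
    intro b hb
    rw [mem_Inj] at hb
    have h2 := hx b hb.2 (hbx b hb.1)
    have h3 : 1 / Real.log x ≤ 1 := by
      rw [div_le_one hL0]
      exact hL1
    have h4 : PP x b ≤ C * SI b + 1 := by linarith
    have h5 : PP x b ^ 2 ≤ (C * SI b + 1) ^ 2 := pow_le_pow_left₀ (PP_nonneg x b) h4 2
    nlinarith [sq_nonneg (C * SI b - 1)]
  have h2 : ∑ b ∈ Inj q B, PP x b ^ 2 ≤ 2 * C ^ 2 * (K * (B.card : ℝ) ^ q) +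
      2 * (B.card : ℝ) ^ q := by
    refine (Finset.sum_le_sum h1).trans ?_
    rw [Finset.sum_add_distrib, ← Finset.mul_sum, Finset.sum_const, nsmul_eq_mul]
    have h3 := mul_le_mul_of_nonneg_left hS (by positivity : (0 : ℝ) ≤ 2 * C ^ 2)
    have h4 := card_Inj_le q B
    linarith
  have h3 := hnon B hB hBc
  have h4 : Real.log x ^ (δ / 2 - δ) ≤ 1 :=
    Real.rpow_le_one_of_one_le_of_nonpos hL1 (by linarith)
  have h5 : (B.card : ℝ) ^ q * Real.log x ^ (δ / 2 - δ) ≤ (B.card : ℝ) ^ q :=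
    mul_le_of_le_one_right hβ0 h4
  have h6 : (B.card : ℝ) ^ q ≤ K * (B.card : ℝ) ^ q := le_mul_of_one_le_left hβ0 hK
  rw [sum_Tup_split]
  nlinarith

theorem moment_PP1_K (q : ℕ) (hq : 1 ≤ q) {δ : ℝ} (hδ : 0 < δ) : ∃ C : ℝ, 1 ≤ C ∧
    ∀ᶠ x : ℕ in atTop, ∀ B : Finset ℕ, (∀ b ∈ B, b ≤ x) → Real.log x ^ (1 + δ) ≤ B.card →
    ∀ K : ℝ, 1 ≤ K → ∑ b ∈ Inj q B, SI b ≤ K * (B.card : ℝ) ^ q →
      ∑ b ∈ Tup q B, PP x b ≤ C * K * (B.card : ℝ) ^ q := by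
  obtain ⟨C, hC1, hC⟩ := PP_le_SI q hq
  refine ⟨C + 2, by linarith, ?_⟩
  filter_upwards [hC, noninj_PP1 q hδ (half_pos hδ), ev_log_ge 1] with x hx hnon hL1
  intro B hB hBc K hK hS
  have hL0 : 0 < Real.log x := by linarith
  have hβ0 : (0 : ℝ) ≤ (B.card : ℝ) ^ q := by positivity
  have hbx : ∀ b ∈ Tup q B, ∀ i, b i ≤ x := fun b hb i => hB _ (mem_Tup.1 hb i)
  have h1 : ∀ b ∈ Inj q B, PP x b ≤ C * SI b + 1 := by
    intro b hb
    rw [mem_Inj] at hb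
    have h2 := hx b hb.2 (hbx b hb.1)
    have h3 : 1 / Real.log x ≤ 1 := by
      rw [div_le_one hL0]
      exact hL1
    linarith
  have h2 : ∑ b ∈ Inj q B, PP x b ≤ C * (K * (B.card : ℝ) ^ q) + (B.card : ℝ) ^ q := by
    refine (Finset.sum_le_sum h1).trans ?_
    rw [Finset.sum_add_distrib, ← Finset.mul_sum, Finset.sum_const, nsmul_eq_mul]
    have h3 := mul_le_mul_of_nonneg_left hS (by positivity : (0 : ℝ) ≤ C)
    have h4 := card_Inj_le q B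
    linarith
  have h3 := hnon B hB hBc
  have h4 : Real.log x ^ (δ / 2 - δ) ≤ 1 :=
    Real.rpow_le_one_of_one_le_of_nonpos hL1 (by linarith)
  have h5 : (B.card : ℝ) ^ q * Real.log x ^ (δ / 2 - δ) ≤ (B.card : ℝ) ^ q :=
    mul_le_of_le_one_right hβ0 h4
  have h6 : (B.card : ℝ) ^ q ≤ K * (B.card : ℝ) ^ q := le_mul_of_one_le_left hβ0 hK
  rw [sum_Tup_split]
  nlinarith

end Pool.Agent.HLR
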