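import Pool.Agent.Lib.HLS.ConcEta
import Pool.Agent.Lib.HLS.Low
import Pool.Agent.Lib.HLS.MomPP
import Pool.Agent.Lib.HLS.MomQQ
import Pool.Agent.Lib.HLS.Num

/-!
# Stability: second moments

`r = k + 2`, `δ0 = min δ (1/4)`, `β = |B|`, `L = log x`. Let `θ = δ0 / (2 r)`, `K' = min K (L^θ)`. `conc_N_eta k` and
`tele` bound `∑ PP^2 - ∑ QQ^2`, `PQ_lower` bounds `∑ PP QQ` from below; hence `∑ (PP - QQ)^2` is small, and
`PP`, `QQ` are close to `pin`, `SI` on injective tuples. The numerical part is `final_num`.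
-/

set_option autoImplicit false

open Finset Filter

namespace Pool.Agent.HLR

open Pool.Agent.HLB Pool.Agent.HLT UpperAux

namespace Stable2Aux

/-- The difference of the second moments over all tuples. -/
lemma sq_diff (s x z : ℕ) (hx1 : 1 ≤ x) (B : Finset ℕ) (hβ : (0 : ℝ) < B.card) {V C1 K' : ℝ}
    (hV0 : 0 ≤ V) (hC1 : 0 ≤ C1) (hK' : 0 ≤ K')
    (hV : ∑ w ∈ Om x, (SS lp lp B w - SS (nuz z) (nuz z) B w) ^ 2 ≤
      (Om x).card * ((B.card : ℝ) ^ 2 * V))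
    (hPP : ∑ b ∈ Tup (2 * s) B, PP x b ^ 2 ≤ C1 * K' * (B.card : ℝ) ^ (2 * s))
    (hQQ : ∑ b ∈ Tup (2 * s) B, QQ z x b ^ 2 ≤ 4 * K' * (B.card : ℝ) ^ (2 * s)) :
    ∑ b ∈ Tup s B, PP x b ^ 2 - ∑ b ∈ Tup s B, QQ z x b ^ 2 ≤
      (B.card : ℝ) ^ s * (s * Real.sqrt (V * (1 + s * (2 ^ (2 * s) * (C1 + 4) * K')))) := by
  have hx0 : (0 : ℝ) < x := by exact_mod_cast hx1
  have hOm : ((Om x).card : ℝ) = (x : ℝ) ^ 2 := by
    rw [card_Om]
    push_cast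
    ring
  have hNn : ∀ w : ℕ × ℕ, 0 ≤ SS lp lp B w := fun w => SS_nonneg lp lp lp_nonneg lp_nonneg _ _
  have hMn : ∀ w : ℕ × ℕ, 0 ≤ SS (nuz z) (nuz z) B w :=
    fun w => SS_nonneg (nuz z) (nuz z) (nuz_nonneg z) (nuz_nonneg z) _ _
  have hN2 : ∀ m : ℕ, ∑ w ∈ Om x, SS lp lp B w ^ m = (x : ℝ) ^ 2 * ∑ b ∈ Tup m B, PP x b ^ 2 := by
    intro m
    rw [moment_pow m x hx1 B lp lp]
    congr 1
    exact Finset.sum_congr rfl fun b _ => by unfold PP; ring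
  have hM2 : ∀ m : ℕ, ∑ w ∈ Om x, SS (nuz z) (nuz z) B w ^ m =
      (x : ℝ) ^ 2 * ∑ b ∈ Tup m B, QQ z x b ^ 2 := by
    intro m
    rw [moment_pow m x hx1 B (nuz z) (nuz z)]
    congr 1
    exact Finset.sum_congr rfl fun b _ => by unfold QQ; ring
  have hmN : ∑ w ∈ Om x, SS lp lp B w ^ (2 * s) ≤
      (x : ℝ) ^ 2 * (C1 * K' * (B.card : ℝ) ^ (2 * s)) := by
    rw [hN2]
    gcongr
  have hmM : ∑ w ∈ Om x, SS (nuz z) (nuz z) B w ^ (2 * s) ≤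
      (x : ℝ) ^ 2 * (4 * K' * (B.card : ℝ) ^ (2 * s)) := by
    rw [hM2]
    gcongr
  have hQ0 : 0 ≤ 2 ^ (2 * s) * (C1 + 4) * K' := by positivity
  have hQ : ∑ w ∈ Om x, (SS lp lp B w + SS (nuz z) (nuz z) B w) ^ (2 * s) ≤
      (Om x).card * ((B.card : ℝ) ^ (2 * s) * (2 ^ (2 * s) * (C1 + 4) * K')) := by
    have h := two_pow_sum (Om x) (2 * s) _ _ (fun w _ => hNn w) (fun w _ => hMn w) hmN hmM
    refine h.trans (le_of_eq ?_)
    rw [hOm]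
    ring
  have t1 := tele (Om x) s (fun _ w => SS lp lp B w)
    (fun _ w => SS (nuz z) (nuz z) B w) (fun _ => (B.card : ℝ)) V (2 ^ (2 * s) * (C1 + 4) * K')
    (fun i w _ => hNn w) (fun i w _ => hMn w) (fun _ => hβ) hV0 hQ0 (fun _ => hV) (fun _ => hQ)
  simp only [Finset.prod_const, Finset.card_univ, Fintype.card_fin] at t1
  have t2 := (le_abs_self _).trans t1
  rw [Finset.sum_sub_distrib, hN2, hM2, hOm, ← mul_sub, mul_assoc] at t2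
  exact le_of_mul_le_mul_left t2 (by positivity)

/-- The mean square of `PP - QQ`. -/
lemma sq_sum (s x z : ℕ) (B : Finset ℕ) {L E : ℝ}
    (h1 : ∑ b ∈ Tup s B, PP x b ^ 2 - ∑ b ∈ Tup s B, QQ z x b ^ 2 ≤ (B.card : ℝ) ^ s * E)
    (h2 : ∑ b ∈ Tup s B, QQ z x b ^ 2 - (B.card : ℝ) ^ s / L ≤
      ∑ b ∈ Tup s B, PP x b * QQ z x b) :
    ∑ b ∈ Tup s B, (PP x b - QQ z x b) ^ 2 ≤ (B.card : ℝ) ^ s * (E + 2 / L) := by
  have e : ∑ b ∈ Tup s B, (PP x b - QQ z x b) ^ 2 =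
      ∑ b ∈ Tup s B, PP x b ^ 2 - 2 * ∑ b ∈ Tup s B, PP x b * QQ z x b +
        ∑ b ∈ Tup s B, QQ z x b ^ 2 := by
    rw [Finset.mul_sum, ← Finset.sum_sub_distrib, ← Finset.sum_add_distrib]
    exact Finset.sum_congr rfl fun b _ => by ring
  have e2 : (B.card : ℝ) ^ s * (E + 2 / L) = (B.card : ℝ) ^ s * E + 2 * ((B.card : ℝ) ^ s / L) := by
    ring
  rw [e, e2]
  linarith

/-- From `PP`, `QQ` to `pin`, `SI`. -/
lemma to_pin (s x z : ℕ) (B : Finset ℕ) (hB : ∀ b ∈ B, b ≤ x) {L : ℝ} (hL : 1 ≤ L)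
    (hp : ∀ t : Fin s → ℕ, Function.Injective t → (∀ i, t i ≤ x) →
      |PP x t - pin x t| ≤ 1 / L ^ (1 / 2 : ℝ))
    (hQ : ∀ b : Fin s → ℕ, Function.Injective b → (∀ i, b i ≤ x) →
      |QQ z x b - SI b| ≤ 1 / L ^ 1) :
    ∑ b ∈ Inj s B, (pin x b - SI b) ^ 2 ≤
      3 * ∑ b ∈ Tup s B, (PP x b - QQ z x b) ^ 2 + (B.card : ℝ) ^ s * (6 / L) := by
  have hL0 : 0 < L := by linarith
  have hpt : ∀ b ∈ Inj s B, (pin x b - SI b) ^ 2 ≤ 3 * (PP x b - QQ z x b) ^ 2 + 6 / L := by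
    intro b hb
    obtain ⟨hb1, hb2⟩ := mem_Inj.1 hb
    have hbx : ∀ i, b i ≤ x := fun i => hB _ (mem_Tup.1 hb1 i)
    have g1 := hp b hb2 hbx
    have g2 := hQ b hb2 hbx
    have g3 : (PP x b - pin x b) ^ 2 ≤ 1 / L := by
      have h := pow_le_pow_left₀ (abs_nonneg _) g1 2
      rw [sq_abs] at h
      refine h.trans (le_of_eq ?_)
      rw [div_pow, one_pow, ← Real.rpow_natCast, ← Real.rpow_mul hL0.le]
      norm_num
    have g4 : (QQ z x b - SI b) ^ 2 ≤ 1 / L := by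
      have h := pow_le_pow_left₀ (abs_nonneg _) g2 2
      rw [sq_abs, pow_one] at h
      refine h.trans ?_
      rw [div_pow, one_pow]
      apply one_div_le_one_div_of_le hL0
      nlinarith
    have g5 : (pin x b - SI b) ^ 2 ≤ 3 * (PP x b - QQ z x b) ^ 2 +
        3 * (PP x b - pin x b) ^ 2 + 3 * (QQ z x b - SI b) ^ 2 := by
      have e : pin x b - SI b =
          (PP x b - QQ z x b) - (PP x b - pin x b) + (QQ z x b - SI b) := by ring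
      rw [e]
      nlinarith [sq_nonneg ((PP x b - QQ z x b) + (PP x b - pin x b)),
        sq_nonneg ((PP x b - QQ z x b) - (QQ z x b - SI b)),
        sq_nonneg ((PP x b - pin x b) + (QQ z x b - SI b))]
    have e2 : 6 / L = 3 * (1 / L) + 3 * (1 / L) := by ring
    rw [e2]
    linarith
  have h6 : (0 : ℝ) ≤ 6 / L := by positivity
  calc ∑ b ∈ Inj s B, (pin x b - SI b) ^ 2
      ≤ ∑ b ∈ Inj s B, (3 * (PP x b - QQ z x b) ^ 2 + 6 / L) := Finset.sum_le_sum hpt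
    _ = 3 * ∑ b ∈ Inj s B, (PP x b - QQ z x b) ^ 2 + (Inj s B).card * (6 / L) := by
      rw [Finset.sum_add_distrib, ← Finset.mul_sum, Finset.sum_const, nsmul_eq_mul]
    _ ≤ _ := by
      have h1 : ∑ b ∈ Inj s B, (PP x b - QQ z x b) ^ 2 ≤ ∑ b ∈ Tup s B, (PP x b - QQ z x b) ^ 2 :=
        Finset.sum_le_sum_of_subset_of_nonneg (fun b hb => (mem_Inj.1 hb).1)
          fun b _ _ => sq_nonneg _
      have h2 := mul_le_mul_of_nonneg_right (card_Inj_le s B) h6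
      linarith

end Stable2Aux

open Stable2Aux in
theorem stable2 (r s : ℕ) (hr : 2 ≤ r) (hs : 1 ≤ s) {δ : ℝ} (hδ : 0 < δ) : ∃ C δ' : ℝ, 0 < C ∧ 0 < δ' ∧
    ∀ᶠ x : ℕ in atTop, ∀ B : Finset ℕ, (∀ b ∈ B, b ≤ x) → Real.log x ^ (2 + δ) ≤ B.card →
    ∀ K η : ℝ, 1 ≤ K → 0 ≤ η →
      ∑ b ∈ Inj (2 * s) B, SI b ^ 2 ≤ K * (B.card : ℝ) ^ (2 * s) →
      ∑ b ∈ Inj r B, pin x b ^ 2 ≤ ∑ b ∈ Inj r B, SI b ^ 2 + η * (B.card : ℝ) ^ r →
      ∑ b ∈ Inj s B, (pin x b - SI b) ^ 2 ≤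
        (C * K * η ^ (1 / (r : ℝ)) + 1 / Real.log x ^ δ') * (B.card : ℝ) ^ s := by
  obtain ⟨k, rfl⟩ : ∃ k, r = k + 2 := ⟨r - 2, by omega⟩
  obtain ⟨δ0, hδ0⟩ : ∃ δ0 : ℝ, δ0 = min δ (1 / 4) := ⟨_, rfl⟩
  have h0 : 0 < δ0 := by
    rw [hδ0]
    exact lt_min hδ (by norm_num)
  have h0' : δ0 ≤ 1 / 4 := by
    rw [hδ0]
    exact min_le_right _ _
  have h0'' : δ0 ≤ δ := by
    rw [hδ0]
    exact min_le_left _ _
  obtain ⟨R, hR⟩ : ∃ R : ℝ, R = ((k + 2 : ℕ) : ℝ) := ⟨_, rfl⟩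
  have hR' : R = (k : ℝ) + 2 := by rw [hR]; push_cast; ring
  have hR2 : 2 ≤ R := by
    rw [hR']
    have : (0 : ℝ) ≤ k := Nat.cast_nonneg k
    linarith
  have hR0 : 0 < R := by linarith
  obtain ⟨θ, hθ⟩ : ∃ θ : ℝ, θ = δ0 / (2 * R) := ⟨_, rfl⟩
  have hθ0 : 0 < θ := by rw [hθ]; positivity
  have hθ2 : 0 < θ / 2 := by positivity
  have hs2 : 1 ≤ 2 * s := by omega
  have hsR : (1 : ℝ) ≤ s := by exact_mod_cast hs
  obtain ⟨C1, hC1, hPPK⟩ := moment_PP_K (2 * s) hs2 hδ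
  obtain ⟨Aq, hAq⟩ := moment_QQ_K (2 * s) hs2 hδ
  obtain ⟨Ac, hAc⟩ := conc_N_eta k h0 h0'
  obtain ⟨AQ, hAQ⟩ := QQ_close s 1 hs
  obtain ⟨A, hA⟩ : ∃ A : ℕ, A = Aq + Ac + AQ := ⟨_, rfl⟩
  obtain ⟨c, hc⟩ : ∃ c : ℝ, c = 2 ^ (2 * s) * (C1 + 4) := ⟨_, rfl⟩
  have hc0 : 0 < c := by rw [hc]; positivity
  obtain ⟨C, hC⟩ : ∃ C : ℝ, C = 3 * (s * Real.sqrt (2 * (1 + s * c))) := ⟨_, rfl⟩
  have hCpos : 0 < C := by
    rw [hC]
    have : 0 < Real.sqrt (2 * (1 + s * c)) := Real.sqrt_pos.2 (by positivity)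
    positivity
  have hd8 : 0 < δ0 / (8 * R) := by positivity
  refine ⟨C, δ0 / (8 * R), hCpos, hd8, ?_⟩
  filter_upwards [hPPK, hAq A (by omega), hAc A (by omega), hAQ A (by omega), PQ_lower s A hs,
    pin_close s, SI_small (2 * s) hs2 hθ2, ev_rpow_ge (C + 12) hd8,
    tendsto_log_nat.eventually (eventually_ge_atTop (1 : ℝ)), eventually_ge_atTop 1]
    with x mPP mQQ hconc hQc hPQ hpc hSI hL8 hL1 hx1
  intro B hB hcard K η hK hη hSIK hdef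
  obtain ⟨L, hL⟩ : ∃ L : ℝ, Real.log x = L := ⟨_, rfl⟩
  simp only [hL] at mPP mQQ hconc hQc hPQ hpc hSI hL8 hL1 hcard ⊢
  have hL0 : 0 < L := by linarith
  obtain ⟨β, hβ⟩ : ∃ β : ℝ, β = (B.card : ℝ) := ⟨_, rfl⟩
  have hβ1 : 1 ≤ β := by
    rw [hβ]
    exact (Real.one_le_rpow hL1 (by linarith)).trans hcard
  have hβ0 : 0 < β := by linarith
  -- the truncated constant
  obtain ⟨K', hK'⟩ : ∃ K' : ℝ, K' = min K (L ^ θ) := ⟨_, rfl⟩
  have hK1 : 1 ≤ K' := by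
    rw [hK']
    exact le_min hK (Real.one_le_rpow hL1 hθ0.le)
  have hKK : K' ≤ K := by rw [hK']; exact min_le_left _ _
  have hKL : K' ≤ L ^ θ := by rw [hK']; exact min_le_right _ _
  have hSI2 : ∑ b ∈ Inj (2 * s) B, SI b ^ 2 ≤ L ^ θ * (B.card : ℝ) ^ (2 * s) := by
    have h1 : ∀ b ∈ Inj (2 * s) B, SI b ^ 2 ≤ L ^ θ := by
      intro b hb
      obtain ⟨hb1, hb2⟩ := mem_Inj.1 hb
      have h2 := hSI b hb2 fun i => hB _ (mem_Tup.1 hb1 i)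
      have h3 := pow_le_pow_left₀ (SI_nonneg b hb2) h2 2
      refine h3.trans (le_of_eq ?_)
      rw [← Real.rpow_natCast, ← Real.rpow_mul hL0.le]
      congr 1
      push_cast
      ring
    calc ∑ b ∈ Inj (2 * s) B, SI b ^ 2 ≤ (Inj (2 * s) B).card • L ^ θ :=
          Finset.sum_le_card_nsmul _ _ _ h1
      _ = ((Inj (2 * s) B).card : ℝ) * L ^ θ := by rw [nsmul_eq_mul]
      _ ≤ (B.card : ℝ) ^ (2 * s) * L ^ θ :=
          mul_le_mul_of_nonneg_right (card_Inj_le _ _) (by positivity)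
      _ = _ := mul_comm _ _
  have hSIK' : ∑ b ∈ Inj (2 * s) B, SI b ^ 2 ≤ K' * (B.card : ℝ) ^ (2 * s) := by
    rcases le_total K (L ^ θ) with h | h
    · rw [hK', min_eq_left h]; exact hSIK
    · rw [hK', min_eq_right h]; exact hSI2
  have m1 := mPP B hB hcard K' hK1 hSIK'
  have m2 := mQQ B hB hcard K' hK1 hSIK'
  have hcard0 : L ^ (2 + δ0) ≤ (B.card : ℝ) :=
    (Real.rpow_le_rpow_of_exponent_le hL1 (by linarith)).trans hcard
  have hcc := hconc B hB hcard0 η hη hdef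
  obtain ⟨V, hV⟩ : ∃ V : ℝ, V = 2 * (η + 1 / L ^ (δ0 / 2)) ^ (2 / R) := ⟨_, rfl⟩
  have hε0 : 0 ≤ η + 1 / L ^ (δ0 / 2) := by positivity
  have hV0 : 0 ≤ V := by rw [hV]; positivity
  have hVV : ∑ w ∈ Om x, (SS lp lp B w - SS (nuz (zA A x)) (nuz (zA A x)) B w) ^ 2 ≤
      (Om x).card * ((B.card : ℝ) ^ 2 * V) := by
    refine hcc.trans (le_of_eq ?_)
    rw [hV, hR']
    ring
  have hβ0' : (0 : ℝ) < B.card := by rw [← hβ]; exact hβ0
  have d1 := sq_diff s x (zA A x) hx1 B hβ0' hV0 (by linarith) (by linarith) hVV m1 m2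
  have d2 := sq_sum s x (zA A x) B d1 (hPQ B hB)
  have d3 := to_pin s x (zA A x) B hB hL1 hpc hQc
  have hfin := final_num (η := η) (L := L) (δ := δ0) (θ := θ) (c := c) (K := K) (K' := K')
    (s := (s : ℝ)) (r := R) hη hL1 h0 hR2 (by positivity) hc0.le hθ0.le (le_of_eq hθ) hK1 hKK hKL
  have hfin' : s * Real.sqrt (V * (1 + s * (2 ^ (2 * s) * (C1 + 4) * K'))) ≤
      s * Real.sqrt (2 * (1 + s * c)) * (K * η ^ (1 / R) + 1 / L ^ (δ0 / (4 * R))) := by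
    rw [hV, ← hc]
    exact hfin
  -- the small terms
  have hX : L ^ (δ0 / (4 * R)) = L ^ (δ0 / (8 * R)) * L ^ (δ0 / (8 * R)) := by
    rw [← Real.rpow_add hL0]
    congr 1
    field_simp
    ring
  have hY0 : 0 < L ^ (δ0 / (8 * R)) := by positivity
  have hsmall : (C + 12) / L ^ (δ0 / (4 * R)) ≤ 1 / L ^ (δ0 / (8 * R)) := by
    rw [hX, div_le_div_iff₀ (by positivity) hY0, one_mul]
    exact mul_le_mul_of_nonneg_right hL8 hY0.le
  have hLL : 12 / L ≤ 12 / L ^ (δ0 / (4 * R)) := by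
    apply div_le_div_of_nonneg_left (by norm_num) (by positivity)
    calc L ^ (δ0 / (4 * R)) ≤ L ^ (1 : ℝ) := by
          apply Real.rpow_le_rpow_of_exponent_le hL1
          rw [div_le_one (by positivity)]
          linarith
      _ = L := Real.rpow_one L
  rw [← hR]
  have hβs : (0 : ℝ) ≤ (B.card : ℝ) ^ s := by positivity
  calc ∑ b ∈ Inj s B, (pin x b - SI b) ^ 2
      ≤ 3 * ((B.card : ℝ) ^ s * (s * Real.sqrt (V * (1 + s * (2 ^ (2 * s) * (C1 + 4) * K'))) +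
          2 / L)) + (B.card : ℝ) ^ s * (6 / L) := by linarith
    _ = (3 * (s * Real.sqrt (V * (1 + s * (2 ^ (2 * s) * (C1 + 4) * K')))) + 12 / L) *
          (B.card : ℝ) ^ s := by ring
    _ ≤ _ := by
      apply mul_le_mul_of_nonneg_right _ hβs
      have e1 : C * K * η ^ (1 / R) + (C + 12) / L ^ (δ0 / (4 * R)) =
          3 * (s * Real.sqrt (2 * (1 + s * c)) * (K * η ^ (1 / R) + 1 / L ^ (δ0 / (4 * R)))) +
            12 / L ^ (δ0 / (4 * R)) := by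
        rw [hC]
        ring
      linarith

end Pool.Agent.HLR
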