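import Pool.Agent.Lib.HLS.IntDefect
import Pool.Agent.Lib.HLS.Stable1
import Pool.Agent.Lib.HLS.Stable2

/-!
# Stability for intervals

PROOF SKETCH. `B = range (H + 1)`, `|B| = H + 1`, `H <= |B| <= 2 H`. `K` from `SI_avg (2 s) m` (constant). `m = 2`: `int_defect2` gives the
hypothesis of `stable2 2 s` with `η' = C (η^(1/2) + 1 / L^(1/2))` (`H^2 <= |B|^2`); `η'^(1/2) <= C^(1/2) (η^(1/4) + 1 / L^(1/4))`
(`rpow_split`-like: `Real.rpow_add_le_add_rpow`); `|B|^s <= 2^s H^s`. `m = 1`: `int_defect1`, `stable1 2 s` with `η' = C (η + 1 / L)`,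
`η'^(1/2) <= C^(1/2) (η^(1/2) + 1 / L^(1/2))`. All powers of `1 / L` are absorbed in `1 / L^δ'`,
`δ' = min (δ'_0, 1/4) / 2`. (`(∀ b ∈ B, b <= x)`: `H <= H L^3 <= x`.)
-/

set_option autoImplicit false

open Finset Filter

namespace Pool.Agent.HLR

open Pool.Agent.HLB Pool.Agent.HLT UpperAux

theorem IntStableAux.num {C₀ K C η L δ₀ H β e : ℝ} {s : ℕ} (hC₀ : 0 < C₀) (hK : 1 ≤ K)
    (hC : 1 ≤ C) (hη : 0 ≤ η) (hL : 1 ≤ L) (hH : 1 ≤ H) (hβ0 : 0 ≤ β)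
    (hβ : β ≤ 2 * H)
    (hA : C₀ * K * C ^ (1 / 2 : ℝ) * 2 ^ s + 2 ^ s ≤ L ^ (min δ₀ (1 / 4) / 2)) :
    (C₀ * K * (C * (η ^ e + 1 / L ^ (1 / 2 : ℝ))) ^ (1 / 2 : ℝ) + 1 / L ^ δ₀) * β ^ s ≤
      (C₀ * K * C ^ (1 / 2 : ℝ) * 2 ^ s * η ^ (e * (1 / 2)) +
        1 / L ^ (min δ₀ (1 / 4) / 2)) * H ^ s := by
  have hL0 : 0 < L := by linarith
  have hC0 : 0 < C := by linarith
  have hK0 : 0 < K := by linarith
  have h1 : (C * (η ^ e + 1 / L ^ (1 / 2 : ℝ))) ^ (1 / 2 : ℝ) ≤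
      C ^ (1 / 2 : ℝ) * (η ^ (e * (1 / 2)) + 1 / L ^ (1 / 4 : ℝ)) := by
    rw [Real.mul_rpow hC0.le (by positivity)]
    apply mul_le_mul_of_nonneg_left _ (by positivity)
    have h2 := rpow_split (η := η ^ e) (a := 1 / 2) (p := 1 / 2)
      (by positivity) hL (by norm_num) (by norm_num)
    have h3 : (η ^ e) ^ (1 / 2 : ℝ) = η ^ (e * (1 / 2)) := (Real.rpow_mul hη _ _).symm
    have h4 : (1 / 2 : ℝ) * (1 / 2) = 1 / 4 := by norm_num
    rw [h3, h4] at h2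
    exact h2
  obtain ⟨D, hD⟩ : ∃ D : ℝ, D = L ^ (min δ₀ (1 / 4) / 2) := ⟨_, rfl⟩
  rw [← hD] at hA ⊢
  have hD0 : 0 < D := by rw [hD]; positivity
  have hDD : D * D = L ^ min δ₀ (1 / 4) := by
    rw [hD, ← Real.rpow_add hL0]
    ring_nf
  have h5 : 1 / L ^ (1 / 4 : ℝ) ≤ 1 / (D * D) := by
    rw [hDD]
    exact one_div_le_one_div_of_le (by positivity)
      (Real.rpow_le_rpow_of_exponent_le hL (min_le_right _ _))
  have h6 : 1 / L ^ δ₀ ≤ 1 / (D * D) := by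
    rw [hDD]
    exact one_div_le_one_div_of_le (by positivity)
      (Real.rpow_le_rpow_of_exponent_le hL (min_le_left _ _))
  have h7 : β ^ s ≤ 2 ^ s * H ^ s := by
    rw [← mul_pow]
    exact pow_le_pow_left₀ hβ0 hβ s
  obtain ⟨A, hAd⟩ : ∃ A : ℝ, A = C₀ * K * C ^ (1 / 2 : ℝ) := ⟨_, rfl⟩
  rw [← hAd] at hA ⊢
  have hA0 : 0 < A := by rw [hAd]; positivity
  have h8 : C₀ * K * (C * (η ^ e + 1 / L ^ (1 / 2 : ℝ))) ^ (1 / 2 : ℝ) ≤
      A * (η ^ (e * (1 / 2)) + 1 / L ^ (1 / 4 : ℝ)) := by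
    rw [hAd, mul_assoc (C₀ * K)]
    exact mul_le_mul_of_nonneg_left h1 (by positivity)
  have h9 : (0 : ℝ) < 2 ^ s := by positivity
  have h10 : (A * 2 ^ s + 2 ^ s) * (1 / (D * D)) ≤ 1 / D := by
    rw [mul_one_div, div_le_div_iff₀ (by positivity) hD0, one_mul]
    exact mul_le_mul_of_nonneg_right hA hD0.le
  calc (C₀ * K * (C * (η ^ e + 1 / L ^ (1 / 2 : ℝ))) ^ (1 / 2 : ℝ) + 1 / L ^ δ₀) * β ^ s
      ≤ (A * (η ^ (e * (1 / 2)) + 1 / L ^ (1 / 4 : ℝ)) + 1 / L ^ δ₀) * (2 ^ s * H ^ s) :=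
        mul_le_mul (by linarith) h7 (by positivity) (by positivity)
    _ ≤ (A * (η ^ (e * (1 / 2)) + 1 / (D * D)) + 1 / (D * D)) * (2 ^ s * H ^ s) := by
        apply mul_le_mul_of_nonneg_right _ (by positivity)
        have := mul_le_mul_of_nonneg_left h5 hA0.le
        linarith
    _ = (A * 2 ^ s * η ^ (e * (1 / 2)) + (A * 2 ^ s + 2 ^ s) * (1 / (D * D))) * H ^ s := by ring
    _ ≤ (A * 2 ^ s * η ^ (e * (1 / 2)) + 1 / D) * H ^ s := by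
        apply mul_le_mul_of_nonneg_right _ (by positivity)
        linarith

/-- The common form of the two defect bounds. -/
theorem IntStableAux.defect (m : ℕ) (hm : m = 1 ∨ m = 2) : ∃ C : ℝ, 1 ≤ C ∧
    ∀ᶠ x : ℕ in atTop, ∀ H : ℕ, 1 ≤ H →
    (H : ℝ) * Real.log x ^ 3 ≤ x → ∀ η : ℝ, 0 ≤ η →
    ∑ h ∈ Icc 1 H, max (pin x (![0, h] : Fin 2 → ℕ) - SI (![0, h] : Fin 2 → ℕ)) 0 ≤ η * H →
    ∑ b ∈ Inj 2 (range (H + 1)), pin x b ^ m ≤ ∑ b ∈ Inj 2 (range (H + 1)), SI b ^ m +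
      C * (η ^ (1 / (m : ℝ)) + 1 / Real.log x ^ (1 / 2 : ℝ)) * (H : ℝ) ^ 2 := by
  have hlog : ∀ᶠ x : ℕ in atTop, 1 ≤ Real.log x :=
    (Real.tendsto_log_atTop.comp tendsto_natCast_atTop_atTop).eventually_ge_atTop 1
  rcases hm with rfl | rfl
  · obtain ⟨C, hC, h⟩ := int_defect1
    refine ⟨C, hC, ?_⟩
    filter_upwards [h, hlog] with x hx hL H hH1 hHL η h0 hsum
    have h2 := hx H hH1 hHL η h0 hsum
    simp only [pow_one, Nat.cast_one, div_one, Real.rpow_one]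
    refine h2.trans ?_
    have h4 : 1 / Real.log x ≤ 1 / Real.log x ^ (1 / 2 : ℝ) := by
      apply one_div_le_one_div_of_le (by positivity)
      calc Real.log x ^ (1 / 2 : ℝ) ≤ Real.log x ^ (1 : ℝ) :=
            Real.rpow_le_rpow_of_exponent_le hL (by norm_num)
        _ = Real.log x := Real.rpow_one _
    have h5 : C * (η + 1 / Real.log x) * (H : ℝ) ^ 2 ≤
        C * (η + 1 / Real.log x ^ (1 / 2 : ℝ)) * (H : ℝ) ^ 2 := by
      apply mul_le_mul_of_nonneg_right _ (by positivity)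
      exact mul_le_mul_of_nonneg_left (by linarith) (by linarith)
    linarith
  · obtain ⟨C, hC, h⟩ := int_defect2
    refine ⟨C, hC, ?_⟩
    filter_upwards [h] with x hx H hH1 hHL η h0 hsum
    have h2 := hx H hH1 hHL η h0 hsum
    rw [Nat.cast_ofNat]
    exact h2

/-- The common form of the two stability theorems for pairs. -/
theorem IntStableAux.stable (m s : ℕ) (hm : m = 1 ∨ m = 2) (hs : 1 ≤ s) {δ : ℝ} (hδ : 0 < δ) :
    ∃ C δ' : ℝ, 0 < C ∧ 0 < δ' ∧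
    ∀ᶠ x : ℕ in atTop, ∀ B : Finset ℕ, (∀ b ∈ B, b ≤ x) → Real.log x ^ (m + δ) ≤ B.card →
    ∀ K η : ℝ, 1 ≤ K → 0 ≤ η →
      ∑ b ∈ Inj (2 * s) B, SI b ^ m ≤ K * (B.card : ℝ) ^ (2 * s) →
      ∑ b ∈ Inj 2 B, pin x b ^ m ≤ ∑ b ∈ Inj 2 B, SI b ^ m + η * (B.card : ℝ) ^ 2 →
      |∑ b ∈ Inj s B, (pin x b - SI b) ^ m| ≤
        (C * K * η ^ (1 / 2 : ℝ) + 1 / Real.log x ^ δ') * (B.card : ℝ) ^ s := by
  rcases hm with rfl | rfl
  · obtain ⟨C, δ', hC, hδ', h⟩ := stable1 2 s le_rfl hs hδ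
    refine ⟨C, δ', hC, hδ', ?_⟩
    filter_upwards [h] with x hx B hB hcard K η hK hη h1 h2
    rw [Nat.cast_one] at hcard
    simp only [pow_one] at h1 h2 ⊢
    have h3 := hx B hB hcard K η hK hη h1 h2
    rw [Nat.cast_ofNat] at h3
    exact h3
  · obtain ⟨C, δ', hC, hδ', h⟩ := stable2 2 s le_rfl hs hδ
    refine ⟨C, δ', hC, hδ', ?_⟩
    filter_upwards [h] with x hx B hB hcard K η hK hη h1 h2
    rw [Nat.cast_ofNat] at hcard
    have h3 := hx B hB hcard K η hK hη h1 h2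
    rw [Nat.cast_ofNat] at h3
    rw [abs_of_nonneg (Finset.sum_nonneg fun b _ => sq_nonneg _)]
    exact h3

theorem interval_stable (m s : ℕ) (hm : m = 1 ∨ m = 2) (hs : 1 ≤ s) {δ : ℝ} (hδ : 0 < δ) :
    ∃ C δ' : ℝ, 0 < C ∧ 0 < δ' ∧ ∀ᶠ x : ℕ in atTop, ∀ H : ℕ, Real.log x ^ (m + δ) ≤ H →
    (H : ℝ) * Real.log x ^ 3 ≤ x → ∀ η : ℝ, 0 ≤ η →
    ∑ h ∈ Icc 1 H, max (pin x (![0, h] : Fin 2 → ℕ) - SI (![0, h] : Fin 2 → ℕ)) 0 ≤ η * H →
    |∑ b ∈ Inj s (range (H + 1)), (pin x b - SI b) ^ m| ≤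
      (C * η ^ (1 / (2 * (m : ℝ))) + 1 / Real.log x ^ δ') * (H : ℝ) ^ s := by
  obtain ⟨C, hC, hdef⟩ := IntStableAux.defect m hm
  obtain ⟨C₀, δ₀, hC₀, hδ₀, hst⟩ := IntStableAux.stable m s hm hs hδ
  obtain ⟨K, hK, hSI⟩ := SI_avg (2 * s) m (by omega)
  have hC0 : 0 < C := by linarith
  have hK0 : 0 < K := by linarith
  have hδ2 : 0 < min δ₀ (1 / 4) / 2 := by positivity
  have hlogt : Tendsto (fun x : ℕ => Real.log x) atTop atTop :=
    Real.tendsto_log_atTop.comp tendsto_natCast_atTop_atTop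
  have hlarge : ∀ᶠ x : ℕ in atTop, C₀ * K * C ^ (1 / 2 : ℝ) * 2 ^ s + 2 ^ s ≤
      Real.log x ^ (min δ₀ (1 / 4) / 2) :=
    ((tendsto_rpow_atTop hδ2).comp hlogt).eventually_ge_atTop _
  refine ⟨C₀ * K * C ^ (1 / 2 : ℝ) * 2 ^ s, min δ₀ (1 / 4) / 2, by positivity, hδ2, ?_⟩
  filter_upwards [hdef, hst, hlarge, hlogt.eventually_ge_atTop 1] with x hdx hsx hlx hL
  intro H hH hHx η h0 hsum
  have hL0 : 0 < Real.log x := by linarith
  have hHpos : 1 ≤ H := by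
    rw [Nat.one_le_iff_ne_zero]
    rintro rfl
    rw [Nat.cast_zero] at hH
    have : 0 < Real.log x ^ ((m : ℝ) + δ) := by positivity
    linarith
  have hHr : (1 : ℝ) ≤ H := by exact_mod_cast hHpos
  have hHle : (H : ℝ) ≤ x := by
    refine le_trans ?_ hHx
    have h2 : (1 : ℝ) ≤ Real.log x ^ 3 := one_le_pow₀ hL
    nlinarith
  have hcard : ((range (H + 1)).card : ℝ) = H + 1 := by
    rw [Finset.card_range]
    push_cast
    ring
  have hd := hdx H hHpos hHx η h0 hsum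
  have hpos : 0 ≤ C * (η ^ (1 / (m : ℝ)) + 1 / Real.log x ^ (1 / 2 : ℝ)) := by positivity
  have hb := hsx (range (H + 1)) (by
      intro b hb
      rw [Finset.mem_range] at hb
      have h2 : H ≤ x := by exact_mod_cast hHle
      omega) (by
      rw [hcard]
      linarith) K (C * (η ^ (1 / (m : ℝ)) + 1 / Real.log x ^ (1 / 2 : ℝ))) hK hpos (by
      refine (hSI H hHpos).trans ?_
      apply mul_le_mul_of_nonneg_left _ hK0.le
      rw [hcard]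
      exact pow_le_pow_left₀ (by positivity) (by linarith) _) (by
      refine hd.trans ?_
      rw [hcard]
      have h3 : C * (η ^ (1 / (m : ℝ)) + 1 / Real.log x ^ (1 / 2 : ℝ)) * (H : ℝ) ^ 2 ≤
          C * (η ^ (1 / (m : ℝ)) + 1 / Real.log x ^ (1 / 2 : ℝ)) * ((H : ℝ) + 1) ^ 2 := by
        apply mul_le_mul_of_nonneg_left _ hpos
        exact pow_le_pow_left₀ (by positivity) (by linarith) _
      linarith)
  rw [hcard] at hb
  have he : 1 / (2 * (m : ℝ)) = 1 / (m : ℝ) * (1 / 2) := by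
    rcases hm with rfl | rfl <;> norm_num
  rw [he]
  exact hb.trans (IntStableAux.num hC₀ hK hC h0 hL hHr (by positivity) (by linarith) hlx)

end Pool.Agent.HLR
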