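import Pool.Agent.Lib.HLR.ToPi

/-!
# The excess of the moments is controlled by the mean of the positive part of the error
-/

set_option autoImplicit false

open Finset Filter

namespace Pool.Agent.HLR

open Pool.Agent.HLB Pool.Agent.HLT UpperAux

theorem ms_pos_ineq (m r : ℕ) (hm : m = 1 ∨ m = 2) (hr : 1 ≤ r) {θ : ℝ} (hθ : 0 < θ) :
    ∀ᶠ x : ℕ in atTop, ∀ B : Finset ℕ, (∀ b ∈ B, b ≤ x) →
      ∑ b ∈ Inj r B, pin x b ^ m ≤
        ∑ b ∈ Inj r B, SI b ^ m + Real.log x ^ θ * ∑ b ∈ Inj r B, max (pin x b - SI b) 0 := by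
  have hη : 0 < θ / 2 := by positivity
  filter_upwards [SI_small r hr hη, PP_inj_small r hη, pin_close r,
    tendsto_log_nat.eventually (eventually_ge_atTop (1 : ℝ)), ev_rpow_ge 3 hη]
    with x hS hP hpc hL1 hL3
  intro B hB
  set L : ℝ := Real.log x with hL
  have hL0 : 0 < L := by linarith
  have hmem : ∀ b ∈ Inj r B, Function.Injective b ∧ ∀ i, b i ≤ x := by
    intro b hb
    unfold Inj at hb
    rw [Finset.mem_filter, mem_Tup] at hb
    exact ⟨hb.2, fun i => hB _ (hb.1 i)⟩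
  have hpin0 : ∀ b : Fin r → ℕ, 0 ≤ pin x b := by
    intro b
    unfold pin
    have : 0 ≤ Real.log x := hL0.le
    positivity
  have hθ1 : 1 ≤ L ^ θ := Real.one_le_rpow hL1 hθ.le
  have hsum : ∀ b ∈ Inj r B, pin x b + SI b ≤ L ^ θ := by
    intro b hb
    obtain ⟨hi, hx⟩ := hmem b hb
    have a1 := hP b hi hx
    have a2 := (abs_le.mp (hpc b hi hx)).1
    have a3 : 1 / L ^ (1 / 2 : ℝ) ≤ 1 := by
      rw [div_le_one (by positivity)]
      exact Real.one_le_rpow hL1 (by norm_num)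
    have a4 : 1 ≤ L ^ (θ / 2) := Real.one_le_rpow hL1 hη.le
    have a5 := hS b hi hx
    have a6 : L ^ θ = L ^ (θ / 2) * L ^ (θ / 2) := by
      rw [← Real.rpow_add hL0]
      congr 1
      ring
    rw [a6]
    nlinarith
  rw [Finset.mul_sum, ← Finset.sum_add_distrib]
  refine Finset.sum_le_sum fun b hb => ?_
  have h1 := hsum b hb
  have h0 : 0 ≤ SI b := SI_nonneg b (hmem b hb).1
  have h2 := hpin0 b
  have h3 : pin x b - SI b ≤ max (pin x b - SI b) 0 := le_max_left _ _
  have h4 : 0 ≤ max (pin x b - SI b) 0 := le_max_right _ _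
  rcases hm with rfl | rfl
  · nlinarith
  · have h5 : pin x b ^ 2 - SI b ^ 2 = (pin x b - SI b) * (pin x b + SI b) := by ring
    have h6 : (pin x b - SI b) * (pin x b + SI b) ≤
        max (pin x b - SI b) 0 * (pin x b + SI b) :=
      mul_le_mul_of_nonneg_right h3 (by linarith)
    have h7 : max (pin x b - SI b) 0 * (pin x b + SI b) ≤ max (pin x b - SI b) 0 * L ^ θ :=
      mul_le_mul_of_nonneg_left h1 h4
    linarith

end Pool.Agent.HLR
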