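import Pool.Agent.Lib.HLR.Defect
import Pool.Agent.Lib.HLS.PosIneq

/-!
# One-sided hypotheses
-/

set_option autoImplicit false

open Finset Filter

namespace Pool.Agent.HLR

open Pool.Agent.HLB Pool.Agent.HLT UpperAux

theorem ms_of_pos2 (r : ℕ) (hr : 1 ≤ r) {δ : ℝ} (hδ : 0 < δ) : ∀ᶠ x : ℕ in atTop,
    ∀ B : Finset ℕ, (∀ b ∈ B, b ≤ x) →
      ∑ b ∈ Inj r B, max (pin x b - SI b) 0 ≤ (B.card : ℝ) ^ r / Real.log x ^ δ →
      ∑ b ∈ Inj r B, pin x b ^ 2 ≤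
        ∑ b ∈ Inj r B, SI b ^ 2 + (1 / Real.log x ^ (δ / 2)) * (B.card : ℝ) ^ r := by
  filter_upwards [ms_pos_ineq 2 r (Or.inr rfl) hr (show 0 < δ / 2 by positivity),
    tendsto_log_nat.eventually (eventually_ge_atTop (1 : ℝ))] with x hx hL1 B hB h
  have hL0 : 0 < Real.log x := by linarith
  refine (hx B hB).trans ?_
  have h1 : Real.log x ^ (δ / 2) * ∑ b ∈ Inj r B, max (pin x b - SI b) 0 ≤
      Real.log x ^ (δ / 2) * ((B.card : ℝ) ^ r / Real.log x ^ δ) :=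
    mul_le_mul_of_nonneg_left h (by positivity)
  have h2 : Real.log x ^ (δ / 2) * ((B.card : ℝ) ^ r / Real.log x ^ δ) =
      (1 / Real.log x ^ (δ / 2)) * (B.card : ℝ) ^ r := by
    have h3 : Real.log x ^ δ = Real.log x ^ (δ / 2) * Real.log x ^ (δ / 2) := by
      rw [← Real.rpow_add hL0]
      congr 1
      ring
    rw [h3]
    have : Real.log x ^ (δ / 2) ≠ 0 := by positivity
    field_simp
  linarith

theorem ms_of_pos1 (r x : ℕ) (δ : ℝ) (B : Finset ℕ)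
    (h : ∑ b ∈ Inj r B, max (pin x b - SI b) 0 ≤ (B.card : ℝ) ^ r / Real.log x ^ δ) :
    ∑ b ∈ Inj r B, pin x b ≤
        ∑ b ∈ Inj r B, SI b + (1 / Real.log x ^ δ) * (B.card : ℝ) ^ r := by
  have h1 : ∑ b ∈ Inj r B, (pin x b - SI b) ≤ ∑ b ∈ Inj r B, max (pin x b - SI b) 0 :=
    Finset.sum_le_sum fun b _ => le_max_left _ _
  rw [Finset.sum_sub_distrib] at h1
  have h2 : (1 / Real.log x ^ δ) * (B.card : ℝ) ^ r = (B.card : ℝ) ^ r / Real.log x ^ δ := by ring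
  rw [h2]
  linarith

theorem SI_mean_small (q : ℕ) (hq : 1 ≤ q) {θ : ℝ} (hθ : 0 < θ) : ∀ᶠ x : ℕ in atTop,
    ∀ B : Finset ℕ, (∀ b ∈ B, b ≤ x) →
      ∑ b ∈ Inj q B, SI b ^ 2 ≤ Real.log x ^ θ * (B.card : ℝ) ^ q ∧
      ∑ b ∈ Inj q B, SI b ≤ Real.log x ^ θ * (B.card : ℝ) ^ q := by
  filter_upwards [SI_small q hq (show 0 < θ / 2 by positivity),
    tendsto_log_nat.eventually (eventually_ge_atTop (1 : ℝ))] with x hx hL1 B hB
  have hL0 : 0 < Real.log x := by linarith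
  have hmem : ∀ b ∈ Inj q B, Function.Injective b ∧ ∀ i, b i ≤ x := by
    intro b hb
    unfold Inj at hb
    rw [Finset.mem_filter, mem_Tup] at hb
    exact ⟨hb.2, fun i => hB _ (hb.1 i)⟩
  have h1 : 1 ≤ Real.log x ^ (θ / 2) := Real.one_le_rpow hL1 (by positivity)
  have h2 : Real.log x ^ θ = Real.log x ^ (θ / 2) * Real.log x ^ (θ / 2) := by
    rw [← Real.rpow_add hL0]
    congr 1
    ring
  have key : ∀ f : (Fin q → ℕ) → ℝ, (∀ b ∈ Inj q B, f b ≤ Real.log x ^ θ) →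
      ∑ b ∈ Inj q B, f b ≤ Real.log x ^ θ * (B.card : ℝ) ^ q := by
    intro f hf
    refine (Finset.sum_le_sum hf).trans ?_
    rw [Finset.sum_const, nsmul_eq_mul, mul_comm]
    exact mul_le_mul_of_nonneg_left (card_Inj_le q B) (by positivity)
  constructor
  · refine key _ fun b hb => ?_
    obtain ⟨hi, hbx⟩ := hmem b hb
    have h3 := hx b hi hbx
    have h4 : 0 ≤ SI b := SI_nonneg b hi
    rw [h2]
    nlinarith
  · refine key _ fun b hb => ?_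
    obtain ⟨hi, hbx⟩ := hmem b hb
    have h3 := hx b hi hbx
    rw [h2]
    nlinarith

end Pool.Agent.HLR
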