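import Pool.Agent.Lib.VK.ShortDefs
import Pool.Agent.Lib.HLR.SpecDil
import Pool.Agent.Lib.HL.PntAux
import Pool.Agent.Lib.HLT.FinalPoly
import Pool.Agent.Lib.HLU.Base

/-!
# The separated spectrum of a dilated and translated set

`T' = c + d T`. If `Θ` is `1/H`-separated, split it by the value of `⌊2 d {θ}⌋`; in one class the points `d {θ}` are again `1/H`-separated and
`|WW T' θ| = |WW T (d {θ})|`.
-/

set_option autoImplicit false

open Finset Filter

namespace Pool.Agent.HLR

open Pool.Agent.HLB Pool.Agent.HLT Pool.Agent.VK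

lemma nrm_small {y : ℝ} (h : |y| < 1 / 2) : nrm y = |y| := by
  unfold nrm
  have h1 := abs_lt.mp h
  have h2 : round y = 0 := by
    rw [round_eq_zero_iff, Set.mem_Ico]
    exact ⟨by linarith [h1.1], h1.2⟩
  rw [h2]
  simp

lemma nrm_add_int' (α : ℝ) (k : ℤ) : nrm (α + k) = nrm α := by
  unfold nrm
  rw [round_add_intCast]
  congr 1
  push_cast
  ring

lemma WW_dil (T : Finset ℕ) (c d : ℕ) (hd : 1 ≤ d) (θ : ℝ) :
    ‖WW (T.image (fun t => c + t * d)) θ‖ = ‖WW T (d * Int.fract θ)‖ := by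
  have hinj : ∀ a ∈ T, ∀ b ∈ T, c + a * d = c + b * d → a = b := by
    intro a _ b _ h
    have h1 : a * d = b * d := by omega
    exact Nat.eq_of_mul_eq_mul_right (by omega) h1
  have key : WW (T.image (fun t => c + t * d)) θ = ex (c * θ) * WW T (d * Int.fract θ) := by
    unfold WW
    rw [sum_image hinj, mul_sum]
    refine sum_congr rfl fun t _ => ?_
    have h4 : (((c + t * d : ℕ) : ℝ)) * θ =
        c * θ + (t * (d * Int.fract θ) + (((t : ℤ) * (d : ℤ) * ⌊θ⌋ : ℤ) : ℝ)) := by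
      have h5 : θ = Int.fract θ + (⌊θ⌋ : ℝ) := (Int.fract_add_floor θ).symm
      push_cast
      conv_lhs => rw [h5]
      conv_rhs => lhs; rw [h5]
      ring
    rw [h4, ex_add, ex_add_int]
  rw [key, norm_mul, norm_ex, one_mul]

theorem sep_dil (H : ℕ) (hH : 1 ≤ H) (T : Finset ℕ) (c d : ℕ) (hd : 1 ≤ d) (L1 R : ℝ)
    (hsp : ∀ Θ : Finset ℝ, Sep H Θ → (∀ θ ∈ Θ, (T.card : ℝ) ≤ L1 * ‖WW T θ‖) → (Θ.card : ℝ) ≤ R)
    (Θ : Finset ℝ) (hΘ : Sep H Θ)
    (hl : ∀ θ ∈ Θ, ((T.image (fun t => c + t * d)).card : ℝ) ≤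
      L1 * ‖WW (T.image (fun t => c + t * d)) θ‖) : (Θ.card : ℝ) ≤ 2 * d * R := by
  classical
  have hHR : (0 : ℝ) < H := by exact_mod_cast hH
  have hdR : (1 : ℝ) ≤ d := by exact_mod_cast hd
  have hd0 : (0 : ℝ) < d := by linarith
  set cl : ℝ → ℕ := fun θ => ⌊2 * d * Int.fract θ⌋₊ with hcl
  have hmap : ∀ θ ∈ Θ, cl θ ∈ range (2 * d) := by
    intro θ _
    rw [Finset.mem_range, hcl]
    have h1 := Int.fract_lt_one θ
    have h2 := Int.fract_nonneg θ
    have h3 : 2 * (d : ℝ) * Int.fract θ < ((2 * d : ℕ) : ℝ) := by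
      push_cast
      nlinarith
    exact (Nat.floor_lt (by positivity)).mpr h3
  have hcard : Θ.card = ∑ j ∈ range (2 * d), (Θ.filter (fun θ => cl θ = j)).card :=
    Finset.card_eq_sum_card_fiberwise hmap
  have hj : ∀ j ∈ range (2 * d), ((Θ.filter (fun θ => cl θ = j)).card : ℝ) ≤ R := by
    intro j _
    set Θj : Finset ℝ := Θ.filter (fun θ => cl θ = j) with hΘj
    -- distances in one class
    have hdist : ∀ θ ∈ Θj, ∀ θ' ∈ Θj, θ ≠ θ' →
        1 / (H : ℝ) ≤ nrm (d * Int.fract θ - d * Int.fract θ') := by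
      intro θ h1 θ' h2 hne
      rw [hΘj, Finset.mem_filter] at h1 h2
      have h3 := hΘ θ h1.1 θ' h2.1 hne
      have f1 := Int.fract_nonneg θ
      have f2 := Int.fract_nonneg θ'
      have g1 := Nat.floor_le (show 0 ≤ 2 * (d : ℝ) * Int.fract θ by positivity)
      have g2 := Nat.lt_floor_add_one (2 * (d : ℝ) * Int.fract θ)
      have g3 := Nat.floor_le (show 0 ≤ 2 * (d : ℝ) * Int.fract θ' by positivity)
      have g4 := Nat.lt_floor_add_one (2 * (d : ℝ) * Int.fract θ')
      have e1 : (⌊2 * (d : ℝ) * Int.fract θ⌋₊ : ℝ) = j := congrArg (Nat.cast : ℕ → ℝ) h1.2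
      have e2 : (⌊2 * (d : ℝ) * Int.fract θ'⌋₊ : ℝ) = j := congrArg (Nat.cast : ℕ → ℝ) h2.2
      rw [e1] at g1 g2
      rw [e2] at g3 g4
      have hlt : |d * Int.fract θ - d * Int.fract θ'| < 1 / 2 := by
        rw [abs_lt]
        constructor <;> linarith
      have hlt2 : |Int.fract θ - Int.fract θ'| < 1 / 2 := by
        refine lt_of_le_of_lt ?_ hlt
        rw [← mul_sub, abs_mul, abs_of_pos hd0]
        have := abs_nonneg (Int.fract θ - Int.fract θ')
        nlinarith
      have e3 : nrm (θ - θ') = |Int.fract θ - Int.fract θ'| := by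
        have h5 : θ - θ' = (Int.fract θ - Int.fract θ') + ((⌊θ⌋ - ⌊θ'⌋ : ℤ) : ℝ) := by
          have h6 := Int.fract_add_floor θ
          have h7 := Int.fract_add_floor θ'
          push_cast
          linarith
        rw [h5, nrm_add_int', nrm_small hlt2]
      rw [e3] at h3
      rw [nrm_small hlt, ← mul_sub, abs_mul, abs_of_pos hd0]
      have := abs_nonneg (Int.fract θ - Int.fract θ')
      nlinarith
    have hinj : Set.InjOn (fun θ : ℝ => (d : ℝ) * Int.fract θ) (Θj : Set ℝ) := by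
      intro θ h1 θ' h2 h
      by_contra hne
      have h3 := hdist θ h1 θ' h2 hne
      have h4 : (d : ℝ) * Int.fract θ = d * Int.fract θ' := h
      rw [h4, sub_self] at h3
      have h5 : nrm 0 = 0 := by
        unfold nrm
        simp
      rw [h5] at h3
      have : 0 < 1 / (H : ℝ) := by positivity
      linarith
    have h1 := hsp (Θj.image (fun θ : ℝ => (d : ℝ) * Int.fract θ)) (by
      intro a ha b hb hab
      rw [Finset.mem_image] at ha hb
      obtain ⟨θ, hθ, rfl⟩ := ha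
      obtain ⟨θ', hθ', rfl⟩ := hb
      exact hdist θ hθ θ' hθ' (fun h => hab (by rw [h]))) (by
      intro a ha
      rw [Finset.mem_image] at ha
      obtain ⟨θ, hθ, rfl⟩ := ha
      have h2 := hl θ (Finset.mem_filter.mp hθ).1
      rw [card_image_dil T c d hd, WW_dil T c d hd θ] at h2
      exact h2)
    rw [Finset.card_image_of_injOn hinj] at h1
    exact h1
  rw [hcard]
  push_cast
  refine (Finset.sum_le_sum hj).trans ?_
  rw [Finset.sum_const, Finset.card_range, nsmul_eq_mul]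
  push_cast
  exact le_rfl

end Pool.Agent.HLR
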