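import Pool.Agent.Lib.HLS.SepMean
import Pool.Agent.Lib.VK.Final
import Pool.Agent.Lib.HLR.GoodDil
import Pool.Agent.Lib.HLR.Dilations
import Pool.Agent.Lib.HLU.Coinc0
import Pool.Agent.Lib.HLU.SpcLow

/-!
# Good dilations, shifts sparse at a short scale

As `HLR/GoodDil.lean`, `HLR/PairHL.lean` and `HLR/Dilations.lean`, with `pair_mean_short` in place of `pair_mean`.
-/

set_option autoImplicit false

open Finset Filter

namespace Pool.Agent.HLR

open Pool.Agent.HLB Pool.Agent.HLT Pool.Agent.VK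

theorem good_dil_short (K A1 B : ℕ) (F : ℕ → ℕ) : ∃ b0 B0 : ℕ, ∀ A : ℕ, ∀ᶠ x : ℕ in atTop,
    ∀ H : ℕ, 1 ≤ H → WN A B0 x H →
    ∀ T : Finset ℕ, SpX F b0 x H T → (∀ t ∈ T, 4 * (t * Real.log x ^ K) ≤ x) →
      ∃ E ⊆ T, (E.card : ℝ) ≤ T.card / Real.log x ^ A1 ∧ ∀ t ∈ T, t ∉ E →
        ∀ c d : ℕ, 4 * c ≤ 3 * x → 1 ≤ d → (d : ℝ) ≤ Real.log x ^ K →
          |∑ n ∈ Icc 1 x, ff (zA A x) (n + c) * ff (zA A x) (n + (c + t * d))| ≤
            x / Real.log x ^ B := by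
  classical
  obtain ⟨b0, B0, hev⟩ := pair_mean_short K (A1 + K + 3 * B + 12) F
  refine ⟨b0, B0, fun A => ?_⟩
  have e1 := tendsto_log_nat.eventually (eventually_ge_atTop (8 : ℝ))
  have e2 : ∀ᶠ x : ℕ in atTop, 32 * Real.log x ^ (B + 2) ≤ (x : ℝ) := by
    filter_upwards [tendsto_log_nat.eventually (ev_poly_exp 32 (B + 2)),
      eventually_ge_atTop 1] with x h hx
    rwa [Real.exp_log (by exact_mod_cast hx)] at h
  filter_upwards [hev A, DZ_inv_le A, e1, e2, eventually_ge_atTop 1] with x hx hDZ hL1 hx2 hx1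
  intro H hH hWN T hSp hT
  set L : ℝ := Real.log x with hL
  set z : ℕ := zA A x with hz
  have hL0 : 0 < L := by linarith
  have hL1' : 1 ≤ L := by linarith
  have hx0 : (0 : ℝ) < x := by exact_mod_cast hx1
  -- bound for ff
  have hff : ∀ m : ℕ, 1 ≤ m → m ≤ 2 * x → |ff z m| ≤ 2 * L := by
    intro m hm1 hm2
    have a1 : lp m ≤ 2 * L := by
      refine (lp_le m).trans ?_
      have h1 : Real.log m ≤ Real.log (2 * x) := by
        apply Real.log_le_log (by exact_mod_cast hm1)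
        exact_mod_cast hm2
      rw [Real.log_mul (by norm_num) hx0.ne'] at h1
      have h2 : Real.log 2 ≤ 1 := by
        have := Real.log_two_lt_d9
        linarith
      linarith
    have a2 : nuz z m ≤ 2 * L := by
      refine (nuz_le z m).trans ?_
      linarith
    have a3 := lp_nonneg m
    have a4 := nuz_nonneg z m
    unfold ff
    rw [abs_le]
    constructor <;> linarith
  -- the grid
  set g : ℕ := ⌊(x : ℝ) / L ^ (B + 4)⌋₊ + 1 with hg
  have hg0 : 0 < g := Nat.succ_pos _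
  have hg1 : (x : ℝ) / L ^ (B + 4) ≤ g := by
    rw [hg]
    push_cast
    exact (Nat.lt_floor_add_one _).le
  have hg2 : (g : ℝ) ≤ x / L ^ (B + 4) + 1 := by
    rw [hg]
    push_cast
    have := Nat.floor_le (show (0 : ℝ) ≤ x / L ^ (B + 4) by positivity)
    linarith
  set S : Finset (ℕ × ℕ) := (range (⌊L ^ (B + 4)⌋₊ + 1) ×ˢ Icc 1 ⌊L ^ K⌋₊).filter
    (fun p => 4 * (g * p.1) ≤ 3 * x) with hS
  set f : ℕ → ℕ → ℕ → ℝ := fun c d t =>
    ∑ n ∈ Icc 1 x, ff z (n + c) * ff z (n + (c + t * d)) with hf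
  set bad : ℕ × ℕ → Finset ℕ := fun p =>
    T.filter (fun t => x / (2 * L ^ B) < |f (g * p.1) p.2 t|) with hbad
  have hScard : (S.card : ℝ) ≤ 2 * L ^ (B + 4) * L ^ K := by
    have h1 : S.card ≤ (⌊L ^ (B + 4)⌋₊ + 1) * ⌊L ^ K⌋₊ := by
      refine (Finset.card_filter_le _ _).trans ?_
      rw [Finset.card_product, Finset.card_range, Nat.card_Icc, Nat.add_sub_cancel]
    have h2 : (S.card : ℝ) ≤ ((⌊L ^ (B + 4)⌋₊ : ℝ) + 1) * (⌊L ^ K⌋₊ : ℝ) := by
      exact_mod_cast h1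
    have h3 := Nat.floor_le (show (0 : ℝ) ≤ L ^ (B + 4) by positivity)
    have h4 := Nat.floor_le (show (0 : ℝ) ≤ L ^ K by positivity)
    have h5 : (1 : ℝ) ≤ L ^ (B + 4) := one_le_pow₀ hL1'
    refine h2.trans (mul_le_mul (by linarith) h4 (Nat.cast_nonneg _) (by positivity))
  have hbc : ∀ p ∈ S, ((bad p).card : ℝ) ≤
      T.card * (4 * L ^ (2 * B) / L ^ (A1 + K + 3 * B + 12)) := by
    intro p hp
    rw [hS, Finset.mem_filter, Finset.mem_product, Finset.mem_range, Finset.mem_Icc] at hp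
    obtain ⟨⟨hp1, hp2, hp3⟩, hp4⟩ := hp
    have hd : (p.2 : ℝ) ≤ L ^ K :=
      (Nat.cast_le.mpr hp3).trans (Nat.floor_le (by positivity))
    have h1 := hx H hH hWN T hSp hT (g * p.1) p.2 hp4 hp2 hd
    have h2 : ((bad p).card : ℝ) * (x / (2 * L ^ B)) ^ 2 ≤
        T.card * (x ^ 2 / L ^ (A1 + K + 3 * B + 12)) := by
      refine le_trans ?_ h1
      rw [← nsmul_eq_mul, ← Finset.sum_const]
      refine (Finset.sum_le_sum (s := bad p) fun t ht => ?_).trans
        (Finset.sum_le_sum_of_subset_of_nonneg (Finset.filter_subset _ _)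
          fun t _ _ => sq_nonneg (f (g * p.1) p.2 t))
      have h3 := (Finset.mem_filter.mp ht).2
      rw [← sq_abs (f (g * p.1) p.2 t)]
      exact pow_le_pow_left₀ (by positivity) h3.le 2
    have h3 : (x / (2 * L ^ B)) ^ 2 = (x : ℝ) ^ 2 / (4 * L ^ (2 * B)) := by
      rw [div_pow, mul_pow, ← pow_mul, mul_comm B 2]
      norm_num
    rw [h3] at h2
    have h4 : (0 : ℝ) < (x : ℝ) ^ 2 / (4 * L ^ (2 * B)) := by positivity
    rw [← le_div_iff₀ h4] at h2
    refine h2.trans (le_of_eq ?_)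
    field_simp
  refine ⟨S.biUnion bad, ?_, ?_, ?_⟩
  · intro t ht
    rw [Finset.mem_biUnion] at ht
    obtain ⟨p, _, hp⟩ := ht
    exact (Finset.mem_filter.mp hp).1
  · have h1 : ((S.biUnion bad).card : ℝ) ≤ ∑ p ∈ S, ((bad p).card : ℝ) := by
      exact_mod_cast Finset.card_biUnion_le
    have h2 := Finset.sum_le_sum hbc
    rw [Finset.sum_const, nsmul_eq_mul] at h2
    refine (h1.trans h2).trans ?_
    have h3 : (S.card : ℝ) * (T.card * (4 * L ^ (2 * B) / L ^ (A1 + K + 3 * B + 12))) ≤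
        2 * L ^ (B + 4) * L ^ K * (T.card * (4 * L ^ (2 * B) / L ^ (A1 + K + 3 * B + 12))) :=
      mul_le_mul_of_nonneg_right hScard (by positivity)
    refine h3.trans ?_
    have h4 : L ^ (A1 + K + 3 * B + 12) = L ^ A1 * L ^ K * L ^ (B + 4) * L ^ (2 * B) * L ^ 8 := by
      rw [← pow_add, ← pow_add, ← pow_add, ← pow_add]
      congr 1
      ring
    have h5 : 2 * L ^ (B + 4) * L ^ K * (T.card * (4 * L ^ (2 * B) / L ^ (A1 + K + 3 * B + 12))) =
        (T.card / L ^ A1) * (8 / L ^ 8) := by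
      rw [h4]
      field_simp
      ring
    rw [h5]
    have h6 : 8 / L ^ 8 ≤ 1 := by
      rw [div_le_one (by positivity)]
      calc (8 : ℝ) ≤ L := hL1
        _ = L ^ 1 := (pow_one L).symm
        _ ≤ L ^ 8 := pow_le_pow_right₀ hL1' (by norm_num)
    exact mul_le_of_le_one_right (by positivity) h6
  · intro t ht htE c d hc hd1 hd2
    have htd : 4 * (t * d) ≤ x := by
      have h1 := hT t ht
      have h2 : (4 * ((t : ℝ) * d)) ≤ x := by
        refine le_trans ?_ h1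
        gcongr
      exact_mod_cast h2
    set m : ℕ := c / g with hm
    have hm1 : g * m ≤ c := Nat.mul_div_le c g
    have hm2 : c ≤ g * m + g := by
      have := Nat.lt_mul_div_succ c hg0
      rw [Nat.mul_succ] at this
      exact this.le
    have hmS : (m, d) ∈ S := by
      rw [hS, Finset.mem_filter, Finset.mem_product, Finset.mem_range, Finset.mem_Icc]
      refine ⟨⟨?_, hd1, Nat.le_floor hd2⟩, ?_⟩
      · rw [Nat.lt_succ_iff]
        apply Nat.le_floor
        have h1 : (m : ℝ) ≤ (c : ℝ) / g := Nat.cast_div_le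
        refine h1.trans ?_
        rw [div_le_iff₀ (by exact_mod_cast hg0)]
        have h2 : (x : ℝ) ≤ L ^ (B + 4) * g := by
          rw [div_le_iff₀ (by positivity)] at hg1
          linarith
        have h3 : (c : ℝ) ≤ x := by
          have : c ≤ x := by omega
          exact_mod_cast this
        linarith
      · change 4 * (g * m) ≤ 3 * x
        omega
    have hgood : |f (g * m) d t| ≤ x / (2 * L ^ B) := by
      by_contra hcon
      push Not at hcon
      apply htE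
      rw [Finset.mem_biUnion]
      exact ⟨(m, d), hmS, Finset.mem_filter.mpr ⟨ht, hcon⟩⟩
    have hw := window_diff (fun k => ff z k * ff z (k + t * d)) x c (g * m) g (4 * L ^ 2)
      hm1 hm2 (by
        intro k hk
        rw [Finset.mem_Icc] at hk
        have a1 := hff k hk.1 (by omega)
        have a2 := hff (k + t * d) (by omega) (by omega)
        rw [abs_mul]
        calc |ff z k| * |ff z (k + t * d)| ≤ (2 * L) * (2 * L) :=
              mul_le_mul a1 a2 (abs_nonneg _) (by positivity)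
          _ = 4 * L ^ 2 := by ring) (by positivity)
    have hs : ∀ c : ℕ, ∑ n ∈ Icc 1 x, (fun k => ff z k * ff z (k + t * d)) (n + c) = f c d t := by
      intro c
      refine Finset.sum_congr rfl fun n _ => ?_
      change ff z (n + c) * ff z (n + c + t * d) = _
      rw [Nat.add_assoc]
    rw [hs, hs] at hw
    have hfin : 2 * g * (4 * L ^ 2) ≤ x / (2 * L ^ B) := by
      have h1 : 2 * (g : ℝ) * (4 * L ^ 2) ≤ 2 * (x / L ^ (B + 4) + 1) * (4 * L ^ 2) := by
        gcongr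
      refine h1.trans ?_
      have h2 : 2 * (x / L ^ (B + 4) + 1) * (4 * L ^ 2) = 8 * x / L ^ (B + 2) + 8 * L ^ 2 := by
        have : L ^ (B + 4) = L ^ (B + 2) * L ^ 2 := by rw [← pow_add]
        rw [this]
        field_simp
        ring
      rw [h2]
      have h3 : 8 * x / L ^ (B + 2) ≤ x / (4 * L ^ B) := by
        rw [pow_add, div_le_div_iff₀ (by positivity) (by positivity)]
        have h4 : (32 : ℝ) ≤ L ^ 2 := by nlinarith
        have h5 : (0 : ℝ) < x * L ^ B := by positivity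
        nlinarith
      have h4 : 8 * L ^ 2 ≤ x / (4 * L ^ B) := by
        rw [le_div_iff₀ (by positivity)]
        have : 8 * L ^ 2 * (4 * L ^ B) = 32 * L ^ (B + 2) := by
          rw [pow_add]
          ring
        rw [this]
        exact hx2
      have h5 : x / (2 * L ^ B) = x / (4 * L ^ B) + x / (4 * L ^ B) := by
        field_simp
        ring
      rw [h5]
      linarith
    have e : f c d t = (f c d t - f (g * m) d t) + f (g * m) d t := by ring
    change |f c d t| ≤ _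
    rw [e]
    refine (abs_add_le _ _).trans ?_
    have h5 : x / L ^ B = x / (2 * L ^ B) + x / (2 * L ^ B) := by
      field_simp
      ring
    rw [h5]
    linarith

open PairHLAux in
theorem pair_hl_short (K A1 B : ℕ) (F : ℕ → ℕ) (κ0 κ : ℝ) (hκ0 : 0 ≤ κ0) (hW : WNE κ0) (hκ : κ0 < κ) :
    ∃ b0 : ℕ, ∀ᶠ x : ℕ in atTop, ∀ H : ℕ, (x : ℝ) ^ κ ≤ H → H ≤ x →
    ∀ T : Finset ℕ, SpX F b0 x H T → (∀ t ∈ T, 1 ≤ t ∧ 4 * (t * Real.log x ^ K) ≤ x) →
      ∃ E ⊆ T, (E.card : ℝ) ≤ T.card / Real.log x ^ A1 ∧ ∀ t ∈ T, t ∉ E →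
        ∀ c d : ℕ, 4 * c ≤ 3 * x → 1 ≤ d → (d : ℝ) ≤ Real.log x ^ K → ∀ b : Fin 2 → ℕ,
          (b 0 = c ∧ b 1 = c + t * d) ∨ (b 1 = c ∧ b 0 = c + t * d) →
            |PP x b - SI b| ≤ 1 / Real.log x ^ B := by
  obtain ⟨A0, hA0⟩ := QQ_close 2 (B + 1) (by norm_num)
  obtain ⟨b0, B0, hgd⟩ := good_dil_short K A1 (B + 1) F
  obtain ⟨A, hA, hWN⟩ := hW κ hκ A0 B0
  have hlog : Tendsto (fun x : ℕ => Real.log (x : ℝ)) atTop atTop :=
    Real.tendsto_log_atTop.comp tendsto_natCast_atTop_atTop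
  refine ⟨b0, ?_⟩
  filter_upwards [hgd A, hWN, hA0 A hA, RR_close 1 A (B + 1), hlog.eventually_ge_atTop 4,
    eventually_ge_atTop 1] with x h1 hwn h2 h3 hL hx1 H hH hHx T hT ht
  have hH1 : 1 ≤ H := by
    have e1 : (1 : ℝ) ≤ (x : ℝ) ^ κ := Real.one_le_rpow (by exact_mod_cast hx1) (by linarith)
    exact_mod_cast e1.trans hH
  obtain ⟨E, hE, hEc, hE2⟩ := h1 H hH1 (hwn H hH hHx) T hT (fun t h => (ht t h).2)
  refine ⟨E, hE, hEc, ?_⟩
  intro t htT htE c d hc hd hdL b hb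
  set L := Real.log (x : ℝ) with hLdef
  set z := zA A x with hz
  have hxR : (0 : ℝ) < x := by exact_mod_cast (by omega : 0 < x)
  have hL0 : 0 < L := by linarith
  have hff := hE2 t htT htE c d hc hd hdL
  obtain ⟨ht1, ht4⟩ := ht t htT
  have hu : c + t * d ≤ x := by
    have h5 : (4 : ℝ) * (t * d) ≤ x := by
      have : (t : ℝ) * d ≤ t * L ^ K := mul_le_mul_of_nonneg_left hdL (Nat.cast_nonneg t)
      linarith
    have h6 : 4 * (t * d) ≤ x := by exact_mod_cast h5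
    omega
  have hcx : c ≤ x := by omega
  have htd : 0 < t * d := Nat.mul_pos (by omega) (by omega)
  have hbx : ∀ i, b i ≤ x := by
    rw [Fin.forall_fin_two]
    rcases hb with ⟨h7, h8⟩ | ⟨h7, h8⟩
    · rw [h7, h8]
      exact ⟨hcx, hu⟩
    · rw [h7, h8]
      exact ⟨hu, hcx⟩
  have hbx' : ∀ i, (![b 1, b 0] : Fin 2 → ℕ) i ≤ x := by
    rw [Fin.forall_fin_two]
    exact ⟨hbx 1, hbx 0⟩
  have hbinj : Function.Injective b := by
    have hne : b 0 ≠ b 1 := by
      rcases hb with ⟨h7, h8⟩ | ⟨h7, h8⟩ <;> omega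
    intro i j hij
    fin_cases i <;> fin_cases j
    · rfl
    · exact absurd hij hne
    · exact absurd hij.symm hne
    · rfl
  have hffb : |∑ n ∈ Icc 1 x, ff z (n + b 0) * ff z (n + b 1)| ≤ x / L ^ (B + 1) := by
    rcases hb with ⟨h7, h8⟩ | ⟨h7, h8⟩
    · rw [h7, h8]
      exact hff
    · rw [h7, h8]
      have e : ∑ n ∈ Icc 1 x, ff z (n + (c + t * d)) * ff z (n + c) =
          ∑ n ∈ Icc 1 x, ff z (n + c) * ff z (n + (c + t * d)) :=
        Finset.sum_congr rfl fun n _ => mul_comm _ _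
      rw [e]
      exact hff
  have k1 : |(∑ n ∈ Icc 1 x, ff z (n + b 0) * ff z (n + b 1)) / x| ≤ 1 / L ^ (B + 1) := by
    rw [abs_div, abs_of_pos hxR, div_le_iff₀ hxR]
    calc _ ≤ (x : ℝ) / L ^ (B + 1) := hffb
      _ = 1 / L ^ (B + 1) * x := by ring
  have k2 := h3 b hbx
  have k3 := h3 ![b 1, b 0] hbx'
  have k4 := h2 b hbinj hbx
  have hs := split z x b
  have hmain : |PP x b - SI b| ≤ 4 * (1 / L ^ (B + 1)) := by
    have e : PP x b - SI b = (∑ n ∈ Icc 1 x, ff z (n + b 0) * ff z (n + b 1)) / x +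
        (RR z x b - QQ z x b) + (RR z x ![b 1, b 0] - QQ z x ![b 1, b 0]) +
        (QQ z x b - SI b) := by
      rw [← hs]
      ring
    rw [e]
    refine (abs_add_le _ _).trans ?_
    have a1 := abs_add_le ((∑ n ∈ Icc 1 x, ff z (n + b 0) * ff z (n + b 1)) / x +
        (RR z x b - QQ z x b)) (RR z x ![b 1, b 0] - QQ z x ![b 1, b 0])
    have a2 := abs_add_le ((∑ n ∈ Icc 1 x, ff z (n + b 0) * ff z (n + b 1)) / (x : ℝ))
        (RR z x b - QQ z x b)
    linarith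
  exact hmain.trans (final_ineq hL B)

theorem dil_good_short (K A1 : ℕ) (F : ℕ → ℕ) (κ0 κ : ℝ) (hκ0 : 0 ≤ κ0) (hW : WNE κ0) (hκ : κ0 < κ) :
    ∃ b0 : ℕ, ∀ᶠ x : ℕ in atTop, ∀ H : ℕ, (x : ℝ) ^ κ ≤ H → H ≤ x →
    ∀ T : Finset ℕ, SpX F b0 x H T → (∀ t ∈ T, 1 ≤ t ∧ 4 * (t * Real.log x ^ K) ≤ x) →
      ∃ E ⊆ T, (E.card : ℝ) ≤ T.card / Real.log x ^ A1 ∧ ∀ t ∈ T, t ∉ E → DP x K t := by
  obtain ⟨b0, hPH⟩ := pair_hl_short K A1 1 F κ0 κ hκ0 hW hκ
  refine ⟨b0, ?_⟩
  filter_upwards [hPH, pin_close 2, ev_log_ge 16] with x hPH hpc hL16 H hH hHx T hT hT2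
  obtain ⟨E, hET, hEc, hE⟩ := hPH H hH hHx T hT hT2
  refine ⟨E, hET, hEc, fun t ht htE => ?_⟩
  obtain ⟨ht1, ht4⟩ := hT2 t ht
  refine ⟨ht1, ht4, fun c d hc hd hdK b hb => ?_⟩
  have h1 := hE t ht htE c d hc hd hdK b hb
  have htd : 1 ≤ t * d := Nat.one_le_iff_ne_zero.2 (by positivity)
  have h4 : 4 * (t * d) ≤ x := dil_le ht4 hdK
  have hinj : Function.Injective b := by
    intro i j hij
    fin_cases i <;> fin_cases j
    · rfl
    · exfalso
      simp only [Fin.zero_eta, Fin.mk_one] at hij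
      rcases hb with ⟨h5, h6⟩ | ⟨h5, h6⟩ <;> omega
    · exfalso
      simp only [Fin.zero_eta, Fin.mk_one] at hij
      rcases hb with ⟨h5, h6⟩ | ⟨h5, h6⟩ <;> omega
    · rfl
  have hle : ∀ i, b i ≤ x := by
    intro i
    fin_cases i
    · simp only [Fin.zero_eta]
      rcases hb with ⟨h5, h6⟩ | ⟨h5, h6⟩ <;> omega
    · simp only [Fin.mk_one]
      rcases hb with ⟨h5, h6⟩ | ⟨h5, h6⟩ <;> omega
  have h2 := hpc b hinj hle
  have h3 := two_small' hL16
  calc |pin x b - SI b| = |-(PP x b - pin x b) + (PP x b - SI b)| := by congr 1; ring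
    _ ≤ |-(PP x b - pin x b)| + |PP x b - SI b| := abs_add_le _ _
    _ = |PP x b - pin x b| + |PP x b - SI b| := by rw [abs_neg]
    _ ≤ 1 / Real.log x ^ (1 / 2 : ℝ) + 1 / Real.log x ^ 1 := add_le_add h2 h1
    _ ≤ _ := h3

end Pool.Agent.HLR
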