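import Pool.Agent.Lib.HLS.SepMean
import Pool.Agent.Lib.HLT.Geom

/-!
# The separated spectrum of an interval
-/

set_option autoImplicit false

open Finset Filter

namespace Pool.Agent.HLR

open Pool.Agent.HLB Pool.Agent.HLT Pool.Agent.VK

theorem spx_Icc (x H : ℕ) (hH : 1 ≤ H) (hL : 2 ≤ Real.log x) (b0 : ℕ) :
    SpX (fun b => b + 2) b0 x H (Icc 1 H) := by
  intro b _ Θ hΘ hl
  set L : ℝ := Real.log x with hLd
  have hL0 : 0 < L := by linarith
  have hHR : (0 : ℝ) < H := by exact_mod_cast hH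
  have hcard : ((Icc 1 H).card : ℝ) = H := by
    rw [Nat.card_Icc]
    simp
  set M : ℕ := ⌊L ^ b⌋₊ with hM
  have hM1 : L ^ b < (M : ℝ) + 1 := Nat.lt_floor_add_one _
  have hM2 : (M : ℝ) ≤ L ^ b := Nat.floor_le (by positivity)
  have hLb : 0 < L ^ b := by positivity
  have hsmall : ∀ θ ∈ Θ, H * |θ - round θ| ≤ L ^ b := by
    intro θ hθ
    have h1 := hl θ hθ
    rw [hcard] at h1
    have h2 : ‖WW (Icc 1 H) θ‖ ≤ mn H θ := geom H θ
    rcases (nrm_nonneg θ).eq_or_lt with h0 | h0
    · have h3 : |θ - round θ| = 0 := h0.symm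
      rw [h3, mul_zero]
      exact hLb.le
    · have h3 := h2.trans (mn_le_right hHR.le h0)
      have h4 : (H : ℝ) ≤ L ^ b * (1 / (2 * nrm θ)) := h1.trans (mul_le_mul_of_nonneg_left h3 hLb.le)
      rw [mul_one_div, le_div_iff₀ (by positivity)] at h4
      have h5 : nrm θ = |θ - round θ| := rfl
      rw [← h5]
      nlinarith [mul_pos hHR h0]
  have hc : Θ.card ≤ (Finset.Icc (-(M : ℤ) - 1) (M : ℤ)).card := by
    refine Finset.card_le_card_of_injOn (fun θ : ℝ => ⌊(H : ℝ) * (θ - round θ)⌋) ?_ ?_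
    · intro θ hθ
      have h1 := abs_le.mp (show |(H : ℝ) * (θ - round θ)| ≤ L ^ b by
        rw [abs_mul, abs_of_pos hHR]
        exact hsmall θ hθ)
      rw [Finset.mem_coe, Finset.mem_Icc]
      constructor
      · apply Int.le_floor.mpr
        push_cast
        linarith [h1.1]
      · apply Int.lt_add_one_iff.mp
        apply Int.floor_lt.mpr
        push_cast
        linarith [h1.2]
    · intro θ hθ θ' hθ' h
      by_contra hne
      have h1 := hΘ θ hθ θ' hθ' hne
      have h2 : ⌊(H : ℝ) * (θ - round θ)⌋ = ⌊(H : ℝ) * (θ' - round θ')⌋ := h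
      have h3 := Int.floor_le ((H : ℝ) * (θ - round θ))
      have h4 := Int.lt_floor_add_one ((H : ℝ) * (θ - round θ))
      have h5 := Int.floor_le ((H : ℝ) * (θ' - round θ'))
      have h6 := Int.lt_floor_add_one ((H : ℝ) * (θ' - round θ'))
      rw [h2] at h3 h4
      have h7 : nrm (θ - θ') ≤ |(θ - round θ) - (θ' - round θ')| := by
        have h8 := round_le (θ - θ') (round θ - round θ')
        unfold nrm
        refine h8.trans (le_of_eq ?_)
        congr 1
        push_cast
        ring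
      have h9 : |(θ - round θ) - (θ' - round θ')| < 1 / (H : ℝ) := by
        rw [lt_div_iff₀ hHR]
        have h10 : |(θ - round θ) - (θ' - round θ')| * H =
            |(H : ℝ) * (θ - round θ) - H * (θ' - round θ')| := by
          rw [← mul_sub, abs_mul, abs_of_pos hHR, mul_comm]
        rw [h10, abs_lt]
        constructor <;> linarith
      linarith
  have hc2 : ((Finset.Icc (-(M : ℤ) - 1) (M : ℤ)).card : ℝ) = 2 * M + 2 := by
    rw [Int.card_Icc]
    have : ((M : ℤ) + 1 - (-(M : ℤ) - 1)).toNat = 2 * M + 2 := by omega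
    rw [this]
    push_cast
    ring
  have h1 : (Θ.card : ℝ) ≤ 2 * M + 2 := by
    rw [← hc2]
    exact_mod_cast hc
  refine h1.trans ?_
  have h2 : (1 : ℝ) ≤ L ^ b := one_le_pow₀ (by linarith)
  have h3 : (4 : ℝ) ≤ L ^ 2 := by nlinarith
  calc 2 * (M : ℝ) + 2 ≤ 4 * L ^ b := by linarith
    _ ≤ L ^ 2 * L ^ b := mul_le_mul_of_nonneg_right h3 hLb.le
    _ = L ^ (b + 2) := by
        rw [pow_add]
        ring

end Pool.Agent.HLR
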