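import Pool.Agent.Lib.HLS.SepDil
import Pool.Agent.Lib.VK.FourierShort
import Pool.Agent.Lib.HLT.EnC

/-!
# Mean square over dilations of the pair correlation of `ff = lp - nuz`, shifts sparse at a short scale

`SpX F b0 x H T`: for `b ≤ b0` every `1/H`-separated set of frequencies `θ` with `|∑ t ∈ T, e(t θ)| ≥ |T| / (log x)^b` has at most `(log x)^(F b)`
elements (no condition on the position of `T`). As in `HLR/PairMean.lean`, with `fourier_any` and `sep_dil`.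
-/

set_option autoImplicit false

open Finset Filter

namespace Pool.Agent.HLR

open Pool.Agent.HLB Pool.Agent.HLT Pool.Agent.VK

/-- The spectral hypothesis at the scale `H`. -/
def SpX (F : ℕ → ℕ) (b0 x H : ℕ) (T : Finset ℕ) : Prop :=
  ∀ b ≤ b0, ∀ Θ : Finset ℝ, Sep H Θ →
    (∀ θ ∈ Θ, (T.card : ℝ) ≤ Real.log x ^ b * ‖WW T θ‖) → (Θ.card : ℝ) ≤ Real.log x ^ F b

theorem pair_mean_short (K B' : ℕ) (F : ℕ → ℕ) : ∃ b0 B : ℕ, ∀ A : ℕ, ∀ᶠ x : ℕ in atTop,
    ∀ H : ℕ, 1 ≤ H → WN A B x H →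
    ∀ T : Finset ℕ, SpX F b0 x H T → (∀ t ∈ T, 4 * (t * Real.log x ^ K) ≤ x) →
      ∀ c d : ℕ, 4 * c ≤ 3 * x → 1 ≤ d → (d : ℝ) ≤ Real.log x ^ K →
        ∑ t ∈ T, (∑ n ∈ Icc 1 x, ff (zA A x) (n + c) * ff (zA A x) (n + (c + t * d))) ^ 2 ≤
          T.card * (x ^ 2 / Real.log x ^ B') := by
  refine ⟨B' + 10, F (B' + 10) + K + B' + 8, fun A => ?_⟩
  have hlog : Tendsto (fun x : ℕ => Real.log x) atTop atTop :=
    Real.tendsto_log_atTop.comp tendsto_natCast_atTop_atTop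
  filter_upwards [DZ_inv_le A, hlog.eventually_ge_atTop 2, eventually_ge_atTop 1]
    with x h4 hL2 hx1 H hH hWN T hT hTx c d hc hd1 hd
  set L : ℝ := Real.log x with hL
  set z : ℕ := zA A x with hz
  set b : ℕ := B' + 10 with hb
  set B : ℕ := F b + K + B' + 8 with hB
  have hx0 : (0:ℝ) < x := by exact_mod_cast hx1
  have hL0 : (0:ℝ) < L := by linarith
  have hL1 : (1:ℝ) ≤ L := by linarith
  have hLL : L ≤ L ^ 2 := by nlinarith
  -- pointwise bounds
  have hff : ∀ n : ℕ, n ≤ 2 * x → |ff z n| ≤ L ^ 2 := by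
    intro n hn
    have e1 : lp n ≤ L ^ 2 := by
      refine (lp_le n).trans ?_
      rcases Nat.eq_zero_or_pos n with h0 | h0
      · subst h0
        simp
        positivity
      have : Real.log n ≤ Real.log (2 * x) := by
        apply Real.log_le_log (by exact_mod_cast h0)
        exact_mod_cast hn
      rw [Real.log_mul (by norm_num) hx0.ne'] at this
      have hl2 : Real.log 2 ≤ 1 := by
        have := Real.log_two_lt_d9
        linarith
      nlinarith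
    have e2 : nuz z n ≤ L ^ 2 := (nuz_le z n).trans (h4.trans hLL)
    have e3 := lp_nonneg n
    have e4 := nuz_nonneg z n
    unfold ff
    rw [abs_le]
    constructor <;> linarith
  -- the set of the shifts
  set T' : Finset ℕ := T.image (fun t => c + t * d) with hT'
  have hcard : T'.card = T.card := card_image_dil T c d hd1
  have hT'sub : T' ⊆ range (x + 1) := by
    intro u hu
    rw [hT', Finset.mem_image] at hu
    obtain ⟨t, ht, rfl⟩ := hu
    rw [Finset.mem_range]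
    have e1 := hTx t ht
    have e2 : (t : ℝ) * d ≤ t * L ^ K := mul_le_mul_of_nonneg_left hd (Nat.cast_nonneg t)
    have e3 : 4 * ((t : ℝ) * d) ≤ x := by linarith
    have e4 : 4 * (t * d) ≤ x := by exact_mod_cast e3
    omega
  have hinj : Set.InjOn (fun t => c + t * d) (T : Set ℕ) := by
    intro a _ b _ hab
    have h5 : c + a * d = c + b * d := hab
    have h6 : a * d = b * d := by omega
    exact Nat.eq_of_mul_eq_mul_right (by omega) h6
  set h : ℕ → ℂ := fun n => (ff z (n + c) : ℂ) with hh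
  have e2 : ∑ t ∈ T, (∑ n ∈ Icc 1 x, ff z (n + c) * ff z (n + (c + t * d))) ^ 2 =
      ∑ u ∈ T', ‖∑ n ∈ Icc 1 x, h n * (ff z (n + u) : ℂ)‖ ^ 2 := by
    rw [hT', Finset.sum_image hinj]
    refine Finset.sum_congr rfl (fun t _ => ?_)
    have e : ∑ n ∈ Icc 1 x, h n * (ff z (n + (c + t * d)) : ℂ) =
        ((∑ n ∈ Icc 1 x, ff z (n + c) * ff z (n + (c + t * d)) : ℝ) : ℂ) := by
      rw [hh]
      push_cast
      rfl
    rw [e, Complex.norm_real, Real.norm_eq_abs, sq_abs]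
  rw [e2]
  have hhn : ∀ n ∈ Icc 1 x, ‖h n‖ ^ 2 ≤ L ^ 4 := by
    intro n hn
    rw [mem_Icc] at hn
    have h1 : ‖h n‖ ≤ L ^ 2 := by
      rw [hh]
      simp only [Complex.norm_real, Real.norm_eq_abs]
      exact hff _ (by omega)
    calc ‖h n‖ ^ 2 ≤ (L ^ 2) ^ 2 := pow_le_pow_left₀ (norm_nonneg _) h1 2
      _ = L ^ 4 := by ring
  have hsumh : ∑ n ∈ Icc 1 x, ‖h n‖ ^ 2 ≤ x * L ^ 4 := by
    refine (Finset.sum_le_sum hhn).trans ?_
    rw [Finset.sum_const, nsmul_eq_mul, Nat.card_Icc]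
    simp
  have hspec : ∀ Θ : Finset ℝ, Sep H Θ → (∀ θ ∈ Θ, (T'.card : ℝ) ≤ L ^ b * ‖WW T' θ‖) →
      (Θ.card : ℝ) ≤ L ^ (K + F b + 1) := by
    intro Θ hΘ hl
    have h1 := sep_dil H hH T c d hd1 (L ^ b) (L ^ F b) (hT b le_rfl) Θ hΘ hl
    refine h1.trans ?_
    have h2 : 2 * (d : ℝ) ≤ L * L ^ K := by
      have := mul_le_mul hL2 hd (Nat.cast_nonneg d) hL0.le
      exact this
    calc 2 * (d : ℝ) * L ^ F b ≤ (L * L ^ K) * L ^ F b :=
          mul_le_mul_of_nonneg_right h2 (by positivity)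
      _ = L ^ (K + F b + 1) := by
          rw [pow_succ, pow_add]
          ring
  have hf := fourier_any x H hx1 hH T' hT'sub h (ff z) (L ^ 2) (L ^ b) (L ^ (K + F b + 1))
    ((x : ℝ) ^ 2 / L ^ B) (by positivity) (by positivity) (by positivity) (by positivity)
    (fun n hn => hff n (by rw [mem_Icc] at hn; exact hn.2)) hspec hWN
  refine hf.trans ?_
  clear hf
  rw [hcard]
  have hN0 : (0 : ℝ) < ((4 * x + 1 : ℕ) : ℝ) := by positivity
  have hcard0 : (0 : ℝ) ≤ (T.card : ℝ) := Nat.cast_nonneg _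
  have hS0 : 0 ≤ ∑ n ∈ Icc 1 x, ‖h n‖ ^ 2 := Finset.sum_nonneg fun n _ => by positivity
  -- first term
  have hA : (T.card : ℝ) / L ^ b * ((∑ n ∈ Icc 1 x, ‖h n‖ ^ 2) * (2 * x * (L ^ 2) ^ 2)) ≤
      T.card * (x ^ 2 * (2 / L ^ (B' + 2))) := by
    have h1 : (∑ n ∈ Icc 1 x, ‖h n‖ ^ 2) * (2 * x * (L ^ 2) ^ 2) ≤
        (x * L ^ 4) * (2 * x * (L ^ 2) ^ 2) :=
      mul_le_mul_of_nonneg_right hsumh (by positivity)
    have h2 := mul_le_mul_of_nonneg_left h1 (by positivity : 0 ≤ (T.card : ℝ) / L ^ b)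
    refine h2.trans (le_of_eq ?_)
    have h3 : L ^ b = L ^ (B' + 2) * (L ^ 4 * (L ^ 2) ^ 2) := by
      rw [hb, ← pow_mul, ← pow_add, ← pow_add]
    rw [h3]
    field_simp
  -- second term
  have hC : (T.card : ℝ) * (L ^ (K + F b + 1) * ((x : ℝ) ^ 2 / L ^ B) / ((4 * x + 1 : ℕ) : ℝ)) *
      ∑ n ∈ Icc 1 x, ‖h n‖ ^ 2 ≤ T.card * (x ^ 2 * (1 / L ^ (B' + 2))) := by
    rw [mul_assoc]
    refine mul_le_mul_of_nonneg_left ?_ hcard0
    have h1 : L ^ (K + F b + 1) * ((x : ℝ) ^ 2 / L ^ B) / ((4 * x + 1 : ℕ) : ℝ) *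
        ∑ n ∈ Icc 1 x, ‖h n‖ ^ 2 ≤
        L ^ (K + F b + 1) * ((x : ℝ) ^ 2 / L ^ B) / ((4 * x + 1 : ℕ) : ℝ) * (x * L ^ 4) :=
      mul_le_mul_of_nonneg_left hsumh (by positivity)
    refine h1.trans ?_
    have h3 : (x : ℝ) / ((4 * x + 1 : ℕ) : ℝ) ≤ 1 := by
      rw [div_le_one hN0]
      push_cast
      linarith
    have h2 : L ^ (K + F b + 1) * ((x : ℝ) ^ 2 / L ^ B) / ((4 * x + 1 : ℕ) : ℝ) * (x * L ^ 4) =
        x ^ 2 * (L ^ (K + F b + 1) * L ^ 4 / L ^ B) * (x / ((4 * x + 1 : ℕ) : ℝ)) := by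
      field_simp
    rw [h2]
    have h5 : L ^ B = (L ^ (K + F b + 1) * L ^ 4) * (L ^ (B' + 2) * L) := by
      rw [hB, ← pow_add, ← pow_succ, ← pow_add]
      congr 1
      ring
    have h6 : L ^ (K + F b + 1) * L ^ 4 / L ^ B ≤ 1 / L ^ (B' + 2) := by
      rw [h5, div_le_div_iff₀ (by positivity) (by positivity)]
      have h7 : 0 < L ^ (K + F b + 1) * L ^ 4 * L ^ (B' + 2) := by positivity
      nlinarith
    calc x ^ 2 * (L ^ (K + F b + 1) * L ^ 4 / L ^ B) * (x / ((4 * x + 1 : ℕ) : ℝ))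
        ≤ x ^ 2 * (1 / L ^ (B' + 2)) * 1 := by
          refine mul_le_mul (mul_le_mul_of_nonneg_left h6 (by positivity)) h3 (by positivity)
            (by positivity)
      _ = x ^ 2 * (1 / L ^ (B' + 2)) := mul_one _
  have hsum := add_le_add hA hC
  refine hsum.trans ?_
  rw [← mul_add, ← mul_add]
  refine mul_le_mul_of_nonneg_left ?_ hcard0
  have hfin : 2 / L ^ (B' + 2) + 1 / L ^ (B' + 2) ≤ 1 / L ^ B' := by
    rw [pow_add, ← add_div, div_le_div_iff₀ (by positivity) (by positivity)]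
    have h8 : (4 : ℝ) ≤ L ^ 2 := by nlinarith
    have h9 : 0 < L ^ B' := by positivity
    nlinarith
  calc (x : ℝ) ^ 2 * (2 / L ^ (B' + 2) + 1 / L ^ (B' + 2)) ≤ x ^ 2 * (1 / L ^ B') :=
        mul_le_mul_of_nonneg_left hfin (by positivity)
    _ = x ^ 2 / L ^ B' := by rw [mul_one_div]

end Pool.Agent.HLR
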