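import Pool.Agent.Lib.HLS.Stable1
import Pool.Agent.Lib.HLS.Stable2
import Pool.Agent.Lib.HLS.Pos

/-!
# Stability for arbitrary sets: both moments, and the one-sided hypothesis
-/

set_option autoImplicit false

open Finset Filter

namespace Pool.Agent.HLR

open Pool.Agent.HLB Pool.Agent.HLT UpperAux

theorem set_stable (m r s : ℕ) (hm : m = 1 ∨ m = 2) (hr : 2 ≤ r) (hs : 1 ≤ s) {δ : ℝ} (hδ : 0 < δ) :
    ∃ C δ' : ℝ, 0 < C ∧ 0 < δ' ∧ ∀ᶠ x : ℕ in atTop, ∀ B : Finset ℕ, (∀ b ∈ B, b ≤ x) →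
    Real.log x ^ (m + δ) ≤ B.card → ∀ K η : ℝ, 1 ≤ K → 0 ≤ η →
      ∑ b ∈ Inj (2 * s) B, SI b ^ m ≤ K * (B.card : ℝ) ^ (2 * s) →
      ∑ b ∈ Inj r B, pin x b ^ m ≤ ∑ b ∈ Inj r B, SI b ^ m + η * (B.card : ℝ) ^ r →
      |∑ b ∈ Inj s B, (pin x b - SI b) ^ m| ≤
        (C * K * η ^ (1 / (r : ℝ)) + 1 / Real.log x ^ δ') * (B.card : ℝ) ^ s := by
  rcases hm with rfl | rfl
  · obtain ⟨C, δ', hC, hδ', h⟩ := stable1 r s hr hs hδ
    refine ⟨C, δ', hC, hδ', ?_⟩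
    filter_upwards [h] with x hx B hB hcard K η hK hη h1 h2
    rw [Nat.cast_one] at hcard
    simp only [pow_one] at h1 h2 ⊢
    exact hx B hB hcard K η hK hη h1 h2
  · obtain ⟨C, δ', hC, hδ', h⟩ := stable2 r s hr hs hδ
    refine ⟨C, δ', hC, hδ', ?_⟩
    filter_upwards [h] with x hx B hB hcard K η hK hη h1 h2
    rw [Nat.cast_ofNat] at hcard
    rw [abs_of_nonneg (Finset.sum_nonneg fun b _ => sq_nonneg _)]
    exact hx B hB hcard K η hK hη h1 h2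

theorem set_pos (m r s : ℕ) (hm : m = 1 ∨ m = 2) (hr : 2 ≤ r) (hs : 1 ≤ s) {δ : ℝ} (hδ : 0 < δ) :
    ∃ δ' : ℝ, 0 < δ' ∧ ∀ᶠ x : ℕ in atTop, ∀ B : Finset ℕ, (∀ b ∈ B, b ≤ x) →
    Real.log x ^ (m + δ) ≤ B.card →
      ∑ b ∈ Inj r B, max (pin x b - SI b) 0 ≤ (B.card : ℝ) ^ r / Real.log x ^ δ →
      |∑ b ∈ Inj s B, (pin x b - SI b) ^ m| ≤ (B.card : ℝ) ^ s / Real.log x ^ δ' := by
  obtain ⟨C, δ0, hC, hδ0, hst⟩ := set_stable m r s hm hr hs hδ
  have hr0 : (0 : ℝ) < r := by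
    have : 0 < r := by omega
    exact_mod_cast this
  have hθ : 0 < δ / (4 * r) := by positivity
  have hδ'' : 0 < min (δ / (4 * r)) δ0 / 2 := by positivity
  refine ⟨min (δ / (4 * r)) δ0 / 2, hδ'', ?_⟩
  filter_upwards [hst, ms_of_pos2 r (by omega) hδ, SI_mean_small (2 * s) (by omega) hθ,
    tendsto_log_nat.eventually (eventually_ge_atTop (1 : ℝ)), ev_rpow_ge (C + 1) hδ'']
    with x hx hpos hS hL1 hCL B hB hcard h
  have hL0 : 0 < Real.log x := by linarith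
  set L : ℝ := Real.log x with hL
  have hmom : ∑ b ∈ Inj r B, pin x b ^ m ≤ ∑ b ∈ Inj r B, SI b ^ m +
      (1 / L ^ (δ / 2)) * (B.card : ℝ) ^ r := by
    rcases hm with rfl | rfl
    · simp only [pow_one]
      refine (ms_of_pos1 r x δ B h).trans ?_
      have h1 : 1 / L ^ δ ≤ 1 / L ^ (δ / 2) :=
        one_div_le_one_div_of_le (by positivity) (Real.rpow_le_rpow_of_exponent_le hL1 (by linarith))
      have h2 := mul_le_mul_of_nonneg_right h1 (by positivity : (0 : ℝ) ≤ (B.card : ℝ) ^ r)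
      linarith
    · exact hpos B hB h
  have hSm : ∑ b ∈ Inj (2 * s) B, SI b ^ m ≤ L ^ (δ / (4 * r)) * (B.card : ℝ) ^ (2 * s) := by
    rcases hm with rfl | rfl
    · simp only [pow_one]
      exact (hS B hB).2
    · exact (hS B hB).1
  have h3 := hx B hB hcard (L ^ (δ / (4 * r))) (1 / L ^ (δ / 2)) (Real.one_le_rpow hL1 hθ.le)
    (by positivity) hSm hmom
  refine h3.trans ?_
  have e1 : (1 / L ^ (δ / 2)) ^ (1 / (r : ℝ)) = L ^ (-(δ / (2 * r))) := by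
    rw [one_div (L ^ (δ / 2)), ← Real.rpow_neg hL0.le, ← Real.rpow_mul hL0.le]
    congr 1
    field_simp
  have e2 : C * L ^ (δ / (4 * r)) * (1 / L ^ (δ / 2)) ^ (1 / (r : ℝ)) = C * L ^ (-(δ / (4 * r))) := by
    rw [e1, mul_assoc, ← Real.rpow_add hL0]
    congr 2
    field_simp
    ring
  rw [e2]
  have h4 : (B.card : ℝ) ^ s / L ^ (min (δ / (4 * r)) δ0 / 2) =
      (1 / L ^ (min (δ / (4 * r)) δ0 / 2)) * (B.card : ℝ) ^ s := by ring
  rw [h4]
  refine mul_le_mul_of_nonneg_right ?_ (by positivity)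
  set w : ℝ := min (δ / (4 * r)) δ0 / 2 with hw
  have h5 : L ^ (-(δ / (4 * r))) ≤ L ^ (-(w + w)) := by
    apply Real.rpow_le_rpow_of_exponent_le hL1
    have := min_le_left (δ / (4 * r)) δ0
    rw [hw]
    linarith
  have h6 : 1 / L ^ δ0 ≤ L ^ (-(w + w)) := by
    rw [one_div, ← Real.rpow_neg hL0.le]
    apply Real.rpow_le_rpow_of_exponent_le hL1
    have := min_le_right (δ / (4 * r)) δ0
    rw [hw]
    linarith
  have h7 : L ^ (-(w + w)) = L ^ (-w) * L ^ (-w) := by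
    rw [← Real.rpow_add hL0]
    congr 1
    ring
  have h8 : L ^ w * L ^ (-w) = 1 := by
    rw [← Real.rpow_add hL0]
    simp
  have h9 : 0 < L ^ (-w) := by positivity
  have h10 : (C + 1) * L ^ (-w) ≤ 1 :=
    (mul_le_mul_of_nonneg_right hCL h9.le).trans (le_of_eq h8)
  have h11 : 1 / L ^ w = L ^ (-w) := by rw [one_div, ← Real.rpow_neg hL0.le]
  rw [h11]
  calc C * L ^ (-(δ / (4 * r))) + 1 / L ^ δ0 ≤ C * L ^ (-(w + w)) + L ^ (-(w + w)) :=
        add_le_add (mul_le_mul_of_nonneg_left h5 hC.le) h6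
    _ = ((C + 1) * L ^ (-w)) * L ^ (-w) := by
        rw [h7]
        ring
    _ ≤ 1 * L ^ (-w) := mul_le_mul_of_nonneg_right h10 h9.le
    _ = L ^ (-w) := one_mul _

end Pool.Agent.HLR
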